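import Pool.Agent.Lib.H25U.Defs

/-!
# A1: the Lie algebra is spanned by involutions modulo scalars
-/

set_option autoImplicit false
set_option linter.unusedSectionVars false
namespace Pool.Agent.H25U
open Module Pool.Agent.H53Toric Pool.Agent.H49M
open Pool.Agent.H86N (CoreN)

variable {K : Type*} [Field K] {V : Type*} [AddCommGroup V] [Module K V]

variable {L : Submodule K (Module.End K V)}

theorem A1_pert [CharZero K] {y N : Module.End K V} {c : K} (hy : y + c • 1 ∈ L)
    (hy2 : y * y = 1) (hN : N ∈ L) (hNN : N * N = 0) (hyN : y * N = -(N * y)) :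
    N ∈ Submodule.span K {z | z ∈ L ∧ ∃ c : K, (z - c • 1) * (z - c • 1) = 1} := by
  have h1 : y + c • 1 ∈ Submodule.span K {z | z ∈ L ∧ ∃ c : K, (z - c • 1) * (z - c • 1) = 1} :=
    Submodule.subset_span ⟨hy, c, by rw [add_sub_cancel_right, hy2]⟩
  have h2 : y + c • 1 - N ∈ Submodule.span K {z | z ∈ L ∧ ∃ c : K, (z - c • 1) * (z - c • 1) = 1} := by
    refine Submodule.subset_span ⟨L.sub_mem hy hN, c, ?_⟩
    have e0 : y + c • (1 : Module.End K V) - N - c • 1 = y - N := by abel
    have e : (y - N) * (y - N) = y * y - y * N - N * y + N * N := by noncomm_ring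
    rw [e0, e, hy2, hyN, hNN]
    simp
  have h3 := Submodule.sub_mem _ h1 h2
  rwa [sub_sub_cancel] at h3

/-- The span of the involutions of `L` (modulo scalars) is `L`. -/
theorem A1_span [CharZero K] [Nontrivial V] (h : CoreN L) {s : Module.End K V} (hs : InL L s)
    (hs2 : s * s = 1) : L ≤ Submodule.span K {z | z ∈ L ∧ ∃ c : K, (z - c • 1) * (z - c • 1) = 1} := by
  set I := Submodule.span K {z | z ∈ L ∧ ∃ c : K, (z - c • 1) * (z - c • 1) = 1} with hI
  have hIL : I ≤ L := Submodule.span_le.2 fun y hy => hy.1
  have hid : ∀ X ∈ L, ∀ Y ∈ I, X * Y - Y * X ∈ I := by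
    intro X hX Y hY
    induction hY using Submodule.span_induction with
    | mem z hz =>
      obtain ⟨hz, c, hz2⟩ := hz
      obtain ⟨y, hy⟩ : ∃ y, y = z - c • 1 := ⟨_, rfl⟩
      have hzy : z = y + c • 1 := by rw [hy, sub_add_cancel]
      have hy2 : y * y = 1 := by rw [hy]; exact hz2
      rw [hzy] at hz
      have hyW : InW L y := ⟨c, hz⟩
      have p1 : (1 + y) * X * (1 - y) ∈ I := by
        refine A1_pert hz hy2 (InW.plus h.lie hyW hy2 hX) ?_ ?_
        · calc (1 + y) * X * (1 - y) * ((1 + y) * X * (1 - y)) =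
              (1 + y) * X * (1 - y * y) * X * (1 - y) := by noncomm_ring
            _ = 0 := by rw [hy2, sub_self]; simp
        · have e1 : y * ((1 + y) * X * (1 - y)) = (y + y * y) * X * (1 - y) := by noncomm_ring
          have e2 : (1 + y) * X * (1 - y) * y = (1 + y) * X * (y - y * y) := by noncomm_ring
          rw [e1, e2, hy2]
          noncomm_ring
      have p2 : (1 - y) * X * (1 + y) ∈ I := by
        refine A1_pert hz hy2 (InW.minus h.lie hyW hy2 hX) ?_ ?_
        · calc (1 - y) * X * (1 + y) * ((1 - y) * X * (1 + y)) =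
              (1 - y) * X * (1 - y * y) * X * (1 + y) := by noncomm_ring
            _ = 0 := by rw [hy2, sub_self]; simp
        · have e1 : y * ((1 - y) * X * (1 + y)) = (y - y * y) * X * (1 + y) := by noncomm_ring
          have e2 : (1 - y) * X * (1 + y) * y = (1 - y) * X * (y + y * y) := by noncomm_ring
          rw [e1, e2, hy2]
          noncomm_ring
      have p3 := I.smul_mem (1 / 2 : K) (I.sub_mem p2 p1)
      have e0 : X * z - z * X = X * y - y * X := by
        rw [hzy, mul_add, add_mul, smul_mul_assoc, mul_smul_comm, one_mul, mul_one]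
        abel
      have e : (1 - y) * X * (1 + y) - (1 + y) * X * (1 - y) = (2 : K) • (X * y - y * X) := by
        have : (1 - y) * X * (1 + y) - (1 + y) * X * (1 - y) =
            (X * y - y * X) + (X * y - y * X) := by noncomm_ring
        rw [this, two_smul]
      rw [e, smul_smul] at p3
      norm_num at p3
      rw [e0]
      exact p3
    | zero => simp
    | add a b _ _ ha hb =>
      have e : X * (a + b) - (a + b) * X = (X * a - a * X) + (X * b - b * X) := by noncomm_ring
      rw [e]
      exact I.add_mem ha hb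
    | smul c a _ ha =>
      rw [mul_smul_comm, smul_mul_assoc, ← smul_sub]
      exact I.smul_mem c ha
  rcases h.simple I hIL hid with h0 | h0
  · exfalso
    obtain ⟨c, hc⟩ := hs.mem
    have h1 : s + c • 1 ∈ I := Submodule.subset_span ⟨hc, c, by rw [add_sub_cancel_right, hs2]⟩
    rw [h0, Submodule.mem_bot] at h1
    have h2 : s = (-c) • 1 := by rw [neg_smul]; exact eq_neg_of_add_eq_zero_left h1
    rw [h2, smul_mul_smul_comm, one_mul] at hs2
    obtain ⟨v, hv⟩ := exists_ne (0 : V)
    have h3 := LinearMap.congr_fun hs2 v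
    rw [LinearMap.smul_apply, Module.End.one_apply] at h3
    have h4 : (-c * -c - 1) • v = 0 := by rw [sub_smul, h3, one_smul, sub_self]
    have h5 : (-c - 1) * (-c + 1) = 0 := by
      have := (smul_eq_zero.1 h4).resolve_right hv
      linear_combination this
    rcases mul_eq_zero.1 h5 with h6 | h6
    · apply hs.ne1
      rw [h2, sub_eq_zero.1 h6, one_smul]
    · apply hs.ne2
      rw [h2, eq_neg_of_add_eq_zero_left h6, neg_smul, one_smul]
  · exact h0.ge

theorem A1_setup [CharZero K] [FiniteDimensional K V] [Nontrivial V] (h : CoreN L)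
    {s : Module.End K V} (hs : InL L s) (hs2 : s * s = 1) : SetupN L where
  lie := h.lie
  irr := h.irr
  tr := h.tr
  span := A1_span h hs hs2

end Pool.Agent.H25U
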