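import Pool.Agent.Lib.H25U.T6
import Pool.Agent.Lib.H76P.T12

/-!
# T10: entries; affine maps
-/

set_option autoImplicit false
set_option linter.unusedSectionVars false
namespace Pool.Agent.H25U
open Module Matrix Pool.Agent.H53Toric
open Pool.Agent.H76P (dg dq dg_apply dg_mul dg_add dg_smul dg_one dg_inj Aff)
open Pool.Agent.H76T (IsIdeal Fam)
open Pool.Agent.H76V (Cmp alg calg)

variable {κ : Type*} {K : Type*} [Field K] [CharZero K] [Fintype κ] [DecidableEq κ]
  {L : Submodule K (Module.End K (κ → K))}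

/-- the entry: if `Y * X = dg g'`, `X * Y = dg g` and `g' c = 1` then there is `d` -/
theorem t10_entry {X Y : Module.End K (κ → K)} {δ : Module.Dual ℚ (Yo L)} (hwX : IsWt L δ X)
    (hXYX : X * Y * X = X) {g g' : κ → K} (hg : X * Y = dg g) (hg' : Y * X = dg g') {c : κ}
    (hc : g' c = 1) : ∃ d, pt L d - pt L c = δ ∧ g d = 1 := by
  have h1 : Y (X (Pi.single c 1)) = Pi.single c 1 := by
    have h2 : (Y * X) (Pi.single c (1 : K)) = dg g' (Pi.single c 1) := by rw [hg']
    rw [Module.End.mul_apply] at h2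
    rw [h2]
    ext a
    rw [dg_apply]
    by_cases hac : a = c
    · subst hac
      rw [hc, one_mul]
    · rw [Pi.single_eq_of_ne hac, mul_zero]
  have h2 : X (Pi.single c (1 : K)) ≠ 0 := by
    intro h0
    rw [h0, map_zero] at h1
    have h3 := congrFun h1 c
    rw [Pi.single_eq_same, Pi.zero_apply] at h3
    exact zero_ne_one h3
  obtain ⟨d, hd⟩ := Function.ne_iff.1 h2
  rw [Pi.zero_apply] at hd
  refine ⟨d, ?_, ?_⟩
  · apply hwX.entry
    rw [LinearMap.toMatrix'_apply]
    exact hd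
  · have h3 : (dg g) (X (Pi.single c (1 : K))) = X (Pi.single c 1) := by
      rw [← hg]
      have h4 := congrArg (fun T : Module.End K (κ → K) => T (Pi.single c 1)) hXYX
      exact h4
    have h4 := congrFun h3 d
    rw [dg_apply] at h4
    exact mul_right_cancel₀ hd (by rw [h4, one_mul])

/-- PROOF. `precomposition with σ`: the linear map `S : Yo L → Yo L`, `f ↦ f ∘ σ`, is injective, hence bijective (finite dimension);
`s = ` its transpose, `(s u) f = u (f ∘ σ)`.  `(s (pt b - pt a)) f = f (σ b) - f (σ a)`. -/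
theorem exists_aff {σ : Equiv.Perm κ} (hσ : ∀ f ∈ Yo L, f ∘ σ ∈ Yo L) :
    ∃ s : Module.Dual ℚ (Yo L) ≃ₗ[ℚ] Module.Dual ℚ (Yo L), Aff (pt L) σ s ∧
      ∀ (u : Module.Dual ℚ (Yo L)) (f : Yo L), s u f = u ⟨(f : κ → ℚ) ∘ σ, hσ f f.2⟩ := by
  let S : Yo L →ₗ[ℚ] Yo L :=
    { toFun := fun f => ⟨(f : κ → ℚ) ∘ σ, hσ f f.2⟩
      map_add' := fun f g => rfl
      map_smul' := fun c f => rfl }
  have hS : Function.Injective S := by
    intro f g hfg
    apply Subtype.ext
    have h1 : (f : κ → ℚ) ∘ σ = (g : κ → ℚ) ∘ σ := congrArg Subtype.val hfg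
    ext a
    have h2 := congrFun h1 (σ.symm a)
    simpa using h2
  let S' : Yo L ≃ₗ[ℚ] Yo L := LinearEquiv.ofInjectiveEndo S hS
  refine ⟨S'.dualMap, ?_, ?_⟩
  · intro a b
    refine LinearMap.ext fun f => ?_
    rfl
  · intro u f
    rfl

end Pool.Agent.H25U
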