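import Pool.Agent.Lib.H25U.T6
import Pool.Agent.Lib.H25U.T7

/-!
# T8: a mixed root
-/

set_option autoImplicit false
set_option linter.unusedSectionVars false
namespace Pool.Agent.H25U
open Pool.Agent.H76P Pool.Agent.H76V Pool.Agent.H76Q
open Module Matrix Pool.Agent.H53Toric
open Pool.Agent.H76T (IsIdeal Fam)
open Pool.Agent.H76V (Cmp alg calg)

variable {κ : Type*} {K : Type*} [Field K] [CharZero K] [Fintype κ] [DecidableEq κ]
  {L : Submodule K (Module.End K (κ → K))} {J : Matrix κ κ K}
variable [IsAlgClosed K] [Nonempty κ] {m : ℕ} {I : Fin m → Submodule K (Module.End K (κ → K))}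

/-- PROOF. Suppose there is no such `X`.  Let `Z = dq f`, `y = dq ε`.  Claim: `Z` commutes with every `X ∈ I j` with `[y, X] = 2 X` or `= -2 X`:
`X` is the sum of its weight components `wc L δ X` (`wc_sum`), which are in `I j` (`wc_mem`, `hF.ideal j`); if `wc L δ X ≠ 0`, the
matrix of `X` has an entry `(a, b)`, not zero, with `pt L a - pt L b = δ`, and `[y, X] = ±2 X` gives `ε a - ε b = ±2`, so `ε a ≠ ε b`.  By
assumption `f a = f b`, so `[Z, wc L δ X] = (f a - f b) wc L δ X = 0` (`wc_wt`).  So `Z` commutes with `X`.  By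
`gen_of_grading` `Z` commutes with `I j`; `Z ∈ I j` commutes with `I i`, `i ≠ j`, so `Z` commutes with `L` (`hF.sup`), so it is a scalar
(`h.gen`) and `f` is constant; the sum of its values is `0` (`Yo_sum`), so `f = 0`. -/
theorem mixed_root (h : CmpN L) (hF : Fam L I) {j : Fin m} {ε : κ → ℚ} (hε : ε ∈ Hs L)
    (hε0 : ε ≠ 0) (hεj : dq ε ∈ I j) {f : κ → ℚ} (hf : f ∈ Yo L) (hfj : dq f ∈ I j) (hf0 : f ≠ 0) :
    ∃ X ∈ I j, ∃ a b : κ, X ≠ 0 ∧ ε a ≠ ε b ∧ f a ≠ f b ∧ IsWt L (pt L a - pt L b) X := by
  classical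
  by_contra hcon
  push Not at hcon
  have hεY : ε ∈ Yo L := Submodule.subset_span hε
  have claim : ∀ X ∈ I j, (dq ε * X - X * dq ε = (2 : K) • X ∨
      dq ε * X - X * dq ε = (-2 : K) • X) → dq f * X = X * dq f := by
    intro X hX hyX
    obtain ⟨s, -, hs⟩ := wc_sum (L := L) X
    have h1 : ∀ δ ∈ s, dq f * wc L δ X = wc L δ X * dq f := by
      intro δ _
      by_cases h0 : wc L δ X = 0
      · rw [h0, mul_zero, zero_mul]
      · have h2 : ∃ a b, LinearMap.toMatrix' (wc L δ X) a b ≠ 0 := by
          by_contra h3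
          push Not at h3
          apply h0
          refine t5_ext fun a b => ?_
          rw [h3 a b, map_zero, Matrix.zero_apply]
        obtain ⟨a, b, hab⟩ := h2
        rw [t5_wc] at hab
        by_cases h3 : pt L a - pt L b = δ
        swap
        · rw [if_neg h3] at hab
          exact absurd rfl hab
        rw [if_pos h3] at hab
        have h4 : ε a ≠ ε b := by
          intro h5
          have h6 := t5_comm (L := L) ⟨ε, hεY⟩ X a b
          rw [LinearMap.sub_apply, pt_apply, pt_apply] at h6
          change LinearMap.toMatrix' (dq ε * X - X * dq ε) a b =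
            ((ε a - ε b : ℚ) : K) * LinearMap.toMatrix' X a b at h6
          rw [h5, sub_self, Rat.cast_zero, zero_mul] at h6
          rcases hyX with h7 | h7 <;> rw [h7, map_smul, Matrix.smul_apply, smul_eq_mul] at h6
          · exact hab ((mul_eq_zero.1 h6).resolve_left two_ne_zero)
          · exact hab ((mul_eq_zero.1 h6).resolve_left (neg_ne_zero.2 two_ne_zero))
        have h5 : IsWt L (pt L a - pt L b) (wc L δ X) := by
          rw [h3]
          exact wc_wt δ X
        have h6 : f a = f b := by
          by_contra h7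
          exact hcon _ (wc_mem (hF.ideal j) hX δ) a b h0 h4 h7 h5
        have h7 := h5 ⟨f, hf⟩
        rw [LinearMap.sub_apply, pt_apply, pt_apply] at h7
        change dq f * wc L δ X - wc L δ X * dq f = ((f a - f b : ℚ) : K) • wc L δ X at h7
        rw [h6, sub_self, Rat.cast_zero, zero_smul, sub_eq_zero] at h7
        exact h7
    rw [← hs, Finset.mul_sum, Finset.sum_mul]
    exact Finset.sum_congr rfl h1
  obtain ⟨⟨c, hc⟩, -⟩ := id hε
  have hd0 : (dq ε : Module.End K (κ → K)) ≠ 0 := by
    intro h0
    apply hε0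
    apply dq_inj (K := K)
    rw [h0]
    refine LinearMap.ext fun v => funext fun a => ?_
    simp [dq, dg_apply]
  have h2 := gen_of_grading h hF hεj hd0 (dq_sqU hc) claim
  have h3 : (dq f : Module.End K (κ → K)) = 0 := t4_zero h hF ((hF.ideal j).1 hfj) fun i Y hY => by
    by_cases hij : i = j
    · subst hij
      exact h2 Y hY
    · exact hF.comm j i (Ne.symm hij) _ hfj Y hY
  apply hf0
  apply dq_inj (K := K)
  rw [h3]
  refine LinearMap.ext fun v => funext fun a => ?_
  simp [dq, dg_apply]

end Pool.Agent.H25U
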