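import Pool.Agent.Lib.H76V.VA2
import Pool.Agent.Lib.H25U.T1

/-!
# The decomposition of an irreducible Lie algebra with many elements of degree two
-/

set_option autoImplicit false
set_option linter.unusedSectionVars false
namespace Pool.Agent.H25U
open Pool.Agent.H76P Pool.Agent.H76V Pool.Agent.H76Q
open Module Matrix Pool.Agent.H53Toric
open Pool.Agent.H76T (IsIdeal Fam tr_skew scalar_skew adjoin_comm)

section gen
variable {K : Type*} [Field K] {V : Type*} [AddCommGroup V] [Module K V]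

/-- An operator `y` of trace zero such that `(y + c) ^ 2 = 1` and `y ≠ 0` is not a scalar. -/
theorem shift_ne [CharZero K] [FiniteDimensional K V] [Nontrivial V] {y : Module.End K V} {c : K}
    (htr : LinearMap.trace K V y = 0) (hy0 : y ≠ 0) : y + c • 1 ≠ 1 ∧ y + c • 1 ≠ -1 := by
  have key : ∀ d : K, y = d • 1 → False := by
    intro d hd
    rw [hd, map_smul, LinearMap.trace_one, smul_eq_mul, mul_eq_zero] at htr
    rcases htr with h1 | h1
    · exact hy0 (by rw [hd, h1, zero_smul])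
    · exact absurd h1 (by exact_mod_cast (finrank_pos (R := K) (M := V)).ne')
  refine ⟨fun h => key (1 - c) ?_, fun h => key (-1 - c) ?_⟩
  · rw [eq_sub_of_add_eq h, sub_smul, one_smul]
  · rw [eq_sub_of_add_eq h, sub_smul, neg_one_smul]

/-- The rank of the idempotent. -/
theorem idem_rank [CharZero K] [FiniteDimensional K V] {s : Module.End K V} (hs : s * s = 1)
    (h1 : s ≠ 1) (h2 : s ≠ -1) : 0 < finrank K (LinearMap.range ((1 / 2 : K) • (1 + s))) ∧
      finrank K (LinearMap.range ((1 / 2 : K) • (1 + s))) < finrank K V := by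
  constructor
  · rw [Nat.pos_iff_ne_zero]
    intro h0
    have h3 := LinearMap.range_eq_bot.1 (Submodule.finrank_eq_zero.1 h0)
    apply h2
    have h4 : (1 : Module.End K V) + s = 0 := (smul_eq_zero.1 h3).resolve_left (by norm_num)
    exact eq_neg_of_add_eq_zero_right h4
  · refine lt_of_le_of_ne (Submodule.finrank_le _) fun h0 => h1 ?_
    have h3 : LinearMap.range ((1 / 2 : K) • (1 + s)) = ⊤ := Submodule.eq_top_of_finrank_eq h0
    have h4 : s * ((1 / 2 : K) • (1 + s)) = (1 / 2 : K) • (1 + s) := by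
      rw [mul_smul_comm, mul_add, hs, mul_one, add_comm]
    ext v
    obtain ⟨w, rfl⟩ := LinearMap.range_eq_top.1 h3 v
    exact LinearMap.congr_fun h4 w

end gen

variable {κ : Type*} [Fintype κ] [DecidableEq κ] {K : Type*} [Field K]

variable [CharZero K] {L : Submodule K (Module.End K (κ → K))} 

variable [IsAlgClosed K] [Nonempty κ] {m : ℕ} {I : Fin m → Submodule K (Module.End K (κ → K))}

/-- An element of degree two is in one of the minimal ideals. -/
theorem CmpN.one (h : CmpN L) (hF : Fam L I) {y : Module.End K (κ → K)} (hy : y ∈ L) {c : K}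
    (hy2 : (y + c • 1) * (y + c • 1) = 1) (hy0 : y ≠ 0) : ∃ j, y ∈ I j := by
  refine hF.one h.irr h.tr hy hy0 (a := 2 * c) (b := c * c - 1) ?_
  have e : (y + c • (1 : Module.End K (κ → K))) * (y + c • 1) = y * y + (2 * c) • y + (c * c) • 1 := by
    simp only [add_mul, mul_add, mul_smul_comm, smul_mul_assoc, mul_one, one_mul, smul_smul]
    module
  rw [e] at hy2
  have e2 : y * y = 1 - (c * c) • 1 - (2 * c) • y := eq_sub_of_add_eq (eq_sub_of_add_eq hy2)
  rw [e2]
  module

/-- Every minimal ideal contains an element of degree two. -/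
theorem CmpN.inv_mem (h : CmpN L) (hF : Fam L I) (k : Fin m) :
    ∃ y ∈ I k, y ≠ 0 ∧ ∃ c : K, (y + c • 1) * (y + c • 1) = 1 := by
  by_contra hcon
  push Not at hcon
  apply hF.ne_bot k
  rw [eq_bot_iff]
  intro X hX
  obtain ⟨c, hc⟩ := h.gen X (fun y hy hy2 => by
    by_cases hy0 : y = 0
    · rw [hy0, mul_zero, zero_mul]
    obtain ⟨c, hy2⟩ := hy2
    obtain ⟨j, hj⟩ := h.one hF hy hy2 hy0
    have hkj : k ≠ j := by
      rintro rfl
      exact hcon y hj hy0 c hy2
    exact hF.comm k j hkj X hX y hj)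
  have h1 := h.tr X ((hF.ideal k).1 hX)
  rw [hc, map_smul, LinearMap.trace_one, smul_eq_mul, mul_eq_zero] at h1
  rw [Submodule.mem_bot, hc]
  rcases h1 with h1 | h1
  · rw [h1, zero_smul]
  · exact absurd h1 (by exact_mod_cast (finrank_pos (R := K) (M := κ → K)).ne')

/-- The dimensions of the two factors. -/
theorem CmpN.dims (h : CmpN L) (hF : Fam L I) {i j : Fin m} (hij : i ≠ j) :
    ∃ a d : ℕ, finrank K (calg I j) = a * a ∧ finrank K (alg I j) = d * d ∧
      finrank K (κ → K) = a * d ∧ 2 ≤ a ∧ 2 ≤ d ∧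
      (∀ N ∈ alg I j, ∀ X ∈ alg I j, N * X * N = N → a ∣ finrank K (LinearMap.range N)) ∧
      (∀ N ∈ calg I j, ∀ X ∈ calg I j, N * X * N = N →
        d ∣ finrank K (LinearMap.range N)) := by
  obtain ⟨a, d, ha, hd, hV, h1, h2⟩ := two_rank' (Fam.calg_comm hF j) (Fam.calg_top hF h.irr j)
  have hV0 : 0 < finrank K (κ → K) := finrank_pos
  have hd0 : 0 < d := by
    rcases Nat.eq_zero_or_pos d with h5 | h5
    · rw [h5, mul_zero] at hV; omega
    · exact h5
  have ha0 : 0 < a := by
    rcases Nat.eq_zero_or_pos a with h5 | h5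
    · rw [h5, zero_mul] at hV; omega
    · exact h5
  refine ⟨a, d, ha, hd, hV, ?_, ?_, h1, h2⟩
  · obtain ⟨y, hy, hy0, c, hy2⟩ := h.inv_mem hF i
    obtain ⟨n1, n2⟩ := shift_ne (c := c) (h.tr y ((hF.ideal i).1 hy)) hy0
    have hs : y + c • 1 ∈ calg I j :=
      Subalgebra.add_mem _ (mem_calg hij hy) (Subalgebra.smul_mem _ (Subalgebra.one_mem _) _)
    have hf : (1 / 2 : K) • (1 + (y + c • 1)) ∈ calg I j :=
      Subalgebra.smul_mem _ (Subalgebra.add_mem _ (Subalgebra.one_mem _) hs) _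
    have h3 := h2 _ hf 1 (Subalgebra.one_mem _) (by rw [mul_one, half_idem hy2])
    obtain ⟨h4, h5⟩ := idem_rank hy2 n1 n2
    obtain ⟨t, ht⟩ := h3
    rw [ht] at h4 h5
    rw [hV, mul_comm a d] at h5
    have h6 : t < a := Nat.lt_of_mul_lt_mul_left h5
    have h7 : 0 < t := Nat.pos_of_mul_pos_left h4
    omega
  · obtain ⟨y, hy, hy0, c, hy2⟩ := h.inv_mem hF j
    obtain ⟨n1, n2⟩ := shift_ne (c := c) (h.tr y ((hF.ideal j).1 hy)) hy0
    have hs : y + c • 1 ∈ alg I j :=
      Subalgebra.add_mem _ (mem_alg hy) (Subalgebra.smul_mem _ (Subalgebra.one_mem _) _)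
    have hf : (1 / 2 : K) • (1 + (y + c • 1)) ∈ alg I j :=
      Subalgebra.smul_mem _ (Subalgebra.add_mem _ (Subalgebra.one_mem _) hs) _
    have h3 := h1 _ hf 1 (Subalgebra.one_mem _) (by rw [mul_one, half_idem hy2])
    obtain ⟨h4, h5⟩ := idem_rank hy2 n1 n2
    obtain ⟨t, ht⟩ := h3
    rw [ht] at h4 h5
    rw [hV] at h5
    have h6 : t < d := Nat.lt_of_mul_lt_mul_left h5
    have h7 : 0 < t := Nat.pos_of_mul_pos_left h4
    omega

/-- A partner in the same ideal. -/
theorem CmpN.partner (h : CmpN L) (hF : Fam L I) {j : Fin m} {N : Module.End K (κ → K)}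
    (hN : N ∈ I j) (hN2 : N * N = 0) : ∃ X ∈ I j, N * X * N = N := by
  obtain ⟨X, hX, hNX⟩ := exists_partner h.lie h.irr h.tr ((hF.ideal j).1 hN) hN2
  have h1 : X ∈ ⨆ j, I j := by rw [hF.sup]; exact hX
  obtain ⟨f, hfI, hfX⟩ := (Submodule.mem_iSup_iff_exists_finsupp I X).1 h1
  have hXs : X = f j + ∑ i ∈ Finset.univ.erase j, f i := by
    rw [Finset.add_sum_erase _ _ (Finset.mem_univ j), ← hfX, Finsupp.sum_fintype]
    intro _; rfl
  refine ⟨f j, hfI j, ?_⟩
  have h2 : N * (∑ i ∈ Finset.univ.erase j, f i) * N = 0 := by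
    rw [Finset.mul_sum, Finset.sum_mul]
    apply Finset.sum_eq_zero
    intro i hi
    rw [hF.comm j i (Finset.ne_of_mem_erase hi).symm N hN (f i) (hfI i), mul_assoc, hN2,
      mul_zero]
  have h3 := hNX
  rw [hXs, mul_add, add_mul, h2, add_zero] at h3
  exact h3

end Pool.Agent.H25U
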