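import Pool.Agent.Lib.H25U.A3

/-!
# A3s: `L0` is spanned by brackets
-/

set_option autoImplicit false
set_option linter.unusedSectionVars false
namespace Pool.Agent.H25U
open Module Pool.Agent.H53Toric Pool.Agent.H49M
open Pool.Agent.H86N (CoreN)

variable {K : Type*} [Field K] {V : Type*} [AddCommGroup V] [Module K V]

variable {L : Submodule K (Module.End K V)}

/-- Chunk A3s. The span `I` of `Lp`, `Lm` and all `[X, Y]`, `X ∈ Lp`, `Y ∈ Lm`, is a nonzero ideal
(`[Lp, Lp] = 0`, `[Lm, Lm] = 0`, `[L0, Lp] ⊆ Lp`, `[[X, Y], Lp] ⊆ Lp`, Jacobi), hence `I = L`;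
compare the components commuting with `s`: for `Z = a + b + c ∈ I` with `Z ∈ L0` apply
`T ↦ T - (1/4)(1+s)T(1-s) - (1/4)(1-s)T(1+s)`, which kills `Lp` and `Lm` and is the identity on
operators commuting with `s`. -/
theorem A3_span [CharZero K] [IsAlgClosed K] [FiniteDimensional K V] [Nontrivial V]
    (h : CoreN L) {s : Module.End K V} (hs : InL L s) (hs2 : s * s = 1)
    {Z : Module.End K V} (hZ : Z ∈ L0 L s) :
    Z ∈ Submodule.span K {W | ∃ X ∈ Lp L s, ∃ Y ∈ Lm L s, W = X * Y - Y * X} := by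
  set B := Submodule.span K {W | ∃ X ∈ Lp L s, ∃ Y ∈ Lm L s, W = X * Y - Y * X} with hB
  let I : Submodule K (Module.End K V) := Lp L s ⊔ B ⊔ Lm L s
  have hBm : ∀ X ∈ Lp L s, ∀ Y ∈ Lm L s, X * Y - Y * X ∈ B := fun X hX Y hY =>
    Submodule.subset_span ⟨X, hX, Y, hY, rfl⟩
  have hI1 : Lp L s ≤ I := le_sup_left.trans le_sup_left
  have hI2 : B ≤ I := le_sup_right.trans le_sup_left
  have hI3 : Lm L s ≤ I := le_sup_right
  have hBL0 : B ≤ L0 L s := by
    refine Submodule.span_le.2 ?_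
    rintro _ ⟨X, hX, Y, hY, rfl⟩
    exact A3_pm h hX hY
  have hIL : I ≤ L := by
    refine sup_le (sup_le (fun X hX => hX.1) fun X hX => (hBL0 hX).1) fun X hX => hX.1
  have h0B : ∀ Z ∈ L0 L s, ∀ T ∈ B, Z * T - T * Z ∈ B := by
    intro Z hZ T hT
    induction hT using Submodule.span_induction with
    | mem T hT =>
      obtain ⟨X, hX, Y, hY, rfl⟩ := hT
      have e : Z * (X * Y - Y * X) - (X * Y - Y * X) * Z =
          ((Z * X - X * Z) * Y - Y * (Z * X - X * Z)) +
          (X * (Z * Y - Y * Z) - (Z * Y - Y * Z) * X) := by noncomm_ring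
      rw [e]
      exact B.add_mem (hBm _ (A3_0p h hZ hX) Y hY) (hBm X hX _ (A3_0m h hZ hY))
    | zero => simp
    | add x y _ _ hx hy =>
      have e : Z * (x + y) - (x + y) * Z = (Z * x - x * Z) + (Z * y - y * Z) := by noncomm_ring
      rw [e]
      exact B.add_mem hx hy
    | smul r x _ hx =>
      rw [mul_smul_comm, smul_mul_assoc, ← smul_sub]
      exact B.smul_mem r hx
  have hid : ∀ Z ∈ L, ∀ T ∈ I, Z * T - T * Z ∈ I := by
    intro Z hZ T hT
    obtain ⟨a, ha, b, hb, c, hc, rfl⟩ := A2_decomp h hs hs2 hZ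
    obtain ⟨T', hT', x3, hx3, rfl⟩ := Submodule.mem_sup.1 hT
    obtain ⟨x1, hx1, x2, hx2, rfl⟩ := Submodule.mem_sup.1 hT'
    have e : (a + b + c) * (x1 + x2 + x3) - (x1 + x2 + x3) * (a + b + c) =
        (a * x1 - x1 * a) + -(x2 * a - a * x2) + (a * x3 - x3 * a) +
        (b * x1 - x1 * b) + (b * x2 - x2 * b) + (b * x3 - x3 * b) +
        -(x1 * c - c * x1) + -(x2 * c - c * x2) + (c * x3 - x3 * c) := by noncomm_ring
    rw [e, A2_pp ha hx1, A2_pp hx1 ha, A2_mm hc hx3, A2_mm hx3 hc, sub_self, zero_add, add_zero]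
    have hx2' := hBL0 hx2
    exact I.add_mem (I.add_mem (I.add_mem (I.add_mem (I.add_mem (I.add_mem
      (I.neg_mem (hI1 (A3_0p h hx2' ha))) (hI2 (hBm a ha x3 hx3))) (hI1 (A3_0p h hb hx1)))
      (hI2 (h0B b hb x2 hx2))) (hI3 (A3_0m h hb hx3))) (I.neg_mem (hI2 (hBm x1 hx1 c hc))))
      (I.neg_mem (hI3 (A3_0m h hx2' hc)))
  have hL : L ≤ I := by
    rcases h.simple I hIL hid with h1 | h1
    · exfalso
      apply A2_ne h hs hs2
      rw [eq_bot_iff, ← h1]
      exact hI1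
    · exact h1.ge
  obtain ⟨T', hT', c, hc, hZe⟩ := Submodule.mem_sup.1 (hL hZ.1)
  obtain ⟨a, ha, b, hb, rfl⟩ := Submodule.mem_sup.1 hT'
  have hb' := hBL0 hb
  -- compare the weights
  have h1 : s * Z = Z * s := hZ.2
  rw [← hZe] at h1
  have h2 : a - c = 0 := by
    have e : s * (a + b + c) - (a + b + c) * s = (s * a - a * s) + (s * b - b * s) +
        (s * c - c * s) := by noncomm_ring
    rw [← sub_eq_zero, e, ha.2.1, ha.2.2, hb'.2, hc.2.1, hc.2.2] at h1
    have e2 : a - -a + (b * s - b * s) + (-c - c) = (2 : K) • (a - c) := by module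
    rw [e2] at h1
    exact (smul_eq_zero.1 h1).resolve_left (by norm_num)
  have h3 : a = 0 := by
    have h4 : s * a = s * c := by rw [sub_eq_zero.1 h2]
    rw [ha.2.1, hc.2.1, ← sub_eq_zero.1 h2] at h4
    have h5 : (2 : K) • a = 0 := by
      rw [two_smul]
      nth_rw 1 [h4]
      exact neg_add_cancel _
    exact (smul_eq_zero.1 h5).resolve_left (by norm_num)
  have h4 : c = 0 := by rw [← sub_eq_zero.1 h2, h3]
  rw [← hZe, h3, h4, zero_add, add_zero]
  exact hb

end Pool.Agent.H25U
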