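import Pool.Agent.Lib.H25U.A4

/-!
# B1: a frame for a given involution
-/

set_option autoImplicit false
set_option linter.unusedSectionVars false
namespace Pool.Agent.H25U
open Pool.Agent.H86N (CoreN)
open Module Pool.Agent.H53Toric Polynomial Pool.Agent.H49M

variable {K : Type*} [Field K] {V : Type*} [AddCommGroup V] [Module K V]

variable {L : Submodule K (Module.End K V)}

theorem B1_ext_aux [IsAlgClosed K] [CharZero K] [FiniteDimensional K V] [Nontrivial V]
    {g : Submodule K (Module.End K V)} (hg : IsLie g) (hirr : Irr g)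
    (htr : ∀ X ∈ g, LinearMap.trace K V X = 0) (n : ℕ) :
    ∀ N ∈ g, N * N = 0 → finrank K (LinearMap.range N) = n → N ≠ 0 →
    ∃ N' ∈ g, N' * N' = 0 ∧ N' ≠ 0 ∧ ((∃ c, N' = c * N) ∧ ∃ d, N' = N * d) ∧
      ∀ X ∈ g, ∃ c : K, N' * X * N' = c • N' := by
  induction n using Nat.strong_induction_on with
  | _ n ih =>
  intro N hN hN2 hrk hN0
  obtain ⟨M, hM, hNMN⟩ := exists_partner hg hirr htr hN hN2
  have hee : (N * M) * (N * M) = N * M := by
    calc (N * M) * (N * M) = (N * M * N) * M := by noncomm_ring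
      _ = N * M := by rw [hNMN]
  have heJ : N * M ∈ JJ g N (N * M) := ⟨hee, hee, by rw [hNMN]; exact hN⟩
  have he0 : N * M ≠ 0 := by
    intro h
    rw [h, zero_mul] at hNMN
    exact hN0 hNMN.symm
  have hrkN : finrank K (LinearMap.range (N * M)) = n := by
    rw [← hrk]
    exact rank_eq_of_dvd (a := N * M) (b := N) rfl hNMN.symm
  by_cases hf : ∃ f ∈ JJ g N (N * M), f * f = f ∧ f ≠ 0 ∧ f ≠ N * M
  · obtain ⟨f, hfJ, hff, hf0, hfe⟩ := hf
    -- both parts
    have hpart : ∀ f ∈ JJ g N (N * M), f * f = f →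
        (f * N) * (f * N) = 0 ∧ (finrank K (LinearMap.range (f * N)) : K) =
          LinearMap.trace K V f := by
      intro f hfJ hff
      refine ⟨?_, ?_⟩
      · calc (f * N) * (f * N) = f * (N * f) * N := by noncomm_ring
          _ = 0 := by rw [JJ_N_mul hN2 hfJ, mul_zero, zero_mul]
      · rw [trace_idem hff]
        congr 1
        apply rank_eq_of_dvd (c := N) (d := M) rfl
        rw [mul_assoc, hfJ.2.1]
    have hf'J : N * M - f ∈ JJ g N (N * M) := (JJ g N (N * M)).sub_mem heJ hfJ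
    have hff' : (N * M - f) * (N * M - f) = N * M - f := by
      have : (N * M - f) * (N * M - f) = (N * M) * (N * M) - (N * M) * f - f * (N * M) + f * f := by
        noncomm_ring
      rw [this, hee, hfJ.1, hfJ.2.1, hff]
      abel
    obtain ⟨h1, h2⟩ := hpart f hfJ hff
    obtain ⟨h3, h4⟩ := hpart _ hf'J hff'
    have hsum : (finrank K (LinearMap.range (f * N)) : K) +
        (finrank K (LinearMap.range ((N * M - f) * N)) : K) = (n : K) := by
      rw [h2, h4, ← map_add, add_sub_cancel, trace_idem hee, hrkN]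
    have hsum' : finrank K (LinearMap.range (f * N)) +
        finrank K (LinearMap.range ((N * M - f) * N)) = n := by
      exact_mod_cast hsum
    have hne : ∀ f ∈ JJ g N (N * M), f ≠ 0 → 0 < finrank K (LinearMap.range (f * N)) := by
      intro f hfJ hf0
      rw [Nat.pos_iff_ne_zero]
      intro h
      have h0 := LinearMap.range_eq_bot.1 (Submodule.finrank_eq_zero.1 h)
      apply hf0
      rw [← hfJ.2.1, ← mul_assoc, h0, zero_mul]
    have hp1 := hne f hfJ hf0
    have hp2 := hne _ hf'J (by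
      intro h
      exact hfe (sub_eq_zero.1 h).symm)
    have hfN : f * N ≠ 0 := by
      intro h0
      rw [h0, LinearMap.range_zero, finrank_bot] at hp1
      exact lt_irrefl 0 hp1
    obtain ⟨N', a1, a2, a3, a4, a5⟩ := ih _ (by omega) _ hfJ.2.2 h1 rfl hfN
    obtain ⟨⟨c', hc'⟩, d', hd'⟩ := a4
    refine ⟨N', a1, a2, a3, ⟨⟨c' * f, by rw [hc', mul_assoc]⟩, M * f * N * d', ?_⟩, a5⟩
    calc N' = f * N * d' := hd'
      _ = (N * M * f) * N * d' := by rw [hfJ.1]
      _ = _ := by noncomm_ring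
  · -- extremal case
    refine ⟨N, hN, hN2, hN0, ⟨⟨1, (one_mul _).symm⟩, 1, (mul_one _).symm⟩, ?_⟩
    have hall : ∀ a ∈ JJ g N (N * M), ∃ t : K, IsNilpotent (a - t • (N * M)) := by
      intro a ha
      -- an eigenvalue on the range of e
      let W : Submodule K V := LinearMap.range (N * M)
      have hW : W ≠ ⊥ := by
        intro h
        exact he0 (LinearMap.range_eq_bot.1 h)
      have haW : ∀ x ∈ W, a x ∈ W := by
        intro x _
        refine ⟨a x, ?_⟩
        change (N * M * a) x = a x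
        rw [ha.1]
      have : Nontrivial W := Submodule.nontrivial_iff_ne_bot.2 hW
      obtain ⟨t, ht⟩ := Module.End.exists_eigenvalue (a.restrict haW)
      obtain ⟨u, hu⟩ := ht.exists_hasEigenvector
      have hu1 : a u.1 = t • u.1 := by
        have := hu.apply_eq_smul
        exact congrArg Subtype.val this
      have hu0 : u.1 ≠ 0 := by
        intro h
        exact hu.2 (Subtype.ext h)
      have heu : (N * M) u.1 = u.1 := by
        obtain ⟨v, hv⟩ := u.2
        rw [← hv]
        change (N * M * (N * M)) v = (N * M) v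
        rw [hee]
      refine ⟨t, ?_⟩
      by_contra hnn
      have hb : a - t • (N * M) ∈ JJ g N (N * M) :=
        (JJ g N (N * M)).sub_mem ha ((JJ g N (N * M)).smul_mem t heJ)
      set b := a - t • (N * M) with hbdef
      have hbu : b u.1 = 0 := by
        rw [hbdef, LinearMap.sub_apply, LinearMap.smul_apply, heu, hu1, sub_self]
      obtain ⟨p, k, hp1, hp2⟩ := fitting b
      apply hf
      refine ⟨aeval b (X * p), JJ_aeval hg hM hN2 hb p, hp1, ?_, ?_⟩
      · intro h
        apply hnn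
        refine ⟨k, ?_⟩
        rw [← hp2, h, mul_zero]
      · intro h
        have h1 : (aeval b (X * p)) u.1 = 0 := by
          rw [mul_comm, map_mul, aeval_X]
          change (aeval b p) (b u.1) = 0
          rw [hbu, map_zero]
        rw [h, heu] at h1
        exact hu0 h1
    intro X hX
    obtain ⟨t, ht⟩ := JJ_scalar hirr htr hN0 hg hN hM hN2 hNMN hall _
      (JJ_of_mem hg hN hN2 hNMN hX)
    refine ⟨t, ?_⟩
    calc N * X * N = N * X * (N * M * N) := by rw [hNMN]
      _ = (N * X * N * M) * N := by noncomm_ring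
      _ = t • N := by rw [ht, smul_mul_assoc, hNMN]


/-- **A frame for the given involution.** -/
theorem frame_at [IsAlgClosed K] [CharZero K] [FiniteDimensional K V] [Nontrivial V]
    (h : CoreN L) {s : Module.End K V} (hs : InL L s) (hs2 : s * s = 1) :
    ∃ e f : Module.End K V, Frame L s e f := by
  obtain ⟨N, hN, hN0⟩ := Submodule.exists_mem_ne_zero_of_ne_bot (A2_ne h hs hs2)
  obtain ⟨N', a1, a2, a3, ⟨⟨c, hc⟩, d, hd⟩, a5⟩ :=
    B1_ext_aux h.lie h.irr h.tr _ N hN.1 (A2_pp hN hN) rfl hN0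
  have hyN : s * N' = N' := by rw [hd, ← mul_assoc, hN.2.1]
  have hNy : N' * s = -N' := by rw [hc, mul_assoc, hN.2.2, mul_neg]
  obtain ⟨X, hX, hNX⟩ := exists_partner h.lie h.irr h.tr a1 a2
  obtain ⟨M₁, hM₁⟩ : ∃ M₁, M₁ = (1 / 4 : K) • ((1 - s) * X * (1 + s)) := ⟨_, rfl⟩
  have hM₁g : M₁ ∈ L := by rw [hM₁]; exact L.smul_mem _ (InL.minus h.lie hs hs2 hX)
  have hyM : s * M₁ = -M₁ := by
    rw [hM₁, mul_smul_comm, ← smul_neg]
    congr 1
    calc s * ((1 - s) * X * (1 + s)) = (s - s * s) * X * (1 + s) := by noncomm_ring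
      _ = _ := by rw [hs2]; noncomm_ring
  have hMy : M₁ * s = M₁ := by
    rw [hM₁, smul_mul_assoc]
    congr 1
    calc (1 - s) * X * (1 + s) * s = (1 - s) * X * (s + s * s) := by noncomm_ring
      _ = _ := by rw [hs2, add_comm]
  have hM₁L : M₁ ∈ Lm L s := ⟨hM₁g, hyM, hMy⟩
  have hM₁2 : M₁ * M₁ = 0 := A2_mm hM₁L hM₁L
  have hNMN : N' * M₁ * N' = N' := by
    have h1 : N' * (1 - s) = (2 : K) • N' := by
      rw [mul_sub, hNy, mul_one, two_smul]; abel
    have h2 : (1 + s) * N' = (2 : K) • N' := by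
      rw [add_mul, hyN, one_mul, two_smul]
    calc N' * M₁ * N' = (1 / 4 : K) • ((N' * (1 - s)) * X * ((1 + s) * N')) := by
          rw [hM₁, mul_smul_comm, smul_mul_assoc]; congr 1
      _ = N' := by
          rw [h1, h2, smul_mul_assoc, smul_mul_assoc, mul_smul_comm, smul_smul, smul_smul, hNX]
          norm_num
  refine ⟨N', M₁ * N' * M₁, hs, hs2, ⟨a1, hyN, hNy⟩,
    ⟨h.lie.sandwich hM₁g hM₁2 a1, ?_, ?_⟩, a3, ?_, ?_, a5⟩
  · rw [← mul_assoc, ← mul_assoc, hyM]; noncomm_ring
  · rw [mul_assoc, hMy]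
  · calc N' * (M₁ * N' * M₁) * N' = (N' * M₁ * N') * M₁ * N' := by noncomm_ring
      _ = N' := by rw [hNMN, hNMN]
  · calc M₁ * N' * M₁ * N' * (M₁ * N' * M₁) = M₁ * ((N' * M₁ * N') * M₁ * N') * M₁ := by
          noncomm_ring
      _ = _ := by rw [hNMN, hNMN]

end Pool.Agent.H25U
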