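import Pool.Agent.Lib.H25U.K0
import Pool.Agent.Lib.H25U.A3s

/-!
# K3: the Kemmer system of a rank one Jordan pair
-/

set_option autoImplicit false
set_option linter.unusedSectionVars false
namespace Pool.Agent.H25U
open Module Pool.Agent.H53Toric Pool.Agent.H49M
open Pool.Agent.H86N (CoreN)

variable {K : Type*} [Field K] {V : Type*} [AddCommGroup V] [Module K V]

variable {L : Submodule K (Module.End K V)}

theorem K3a_partner [CharZero K] [IsAlgClosed K] [FiniteDimensional K V] [Nontrivial V]
    (h : CoreN L) {s : Module.End K V} (hs : InL L s) (hs2 : s * s = 1)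
    {x : Module.End K V} (hx : x ∈ Lp L s) (hx0 : x ≠ 0) : ∃ y ∈ Lm L s, x * y * x ≠ 0 := by
  by_contra hcon
  push Not at hcon
  apply hx0
  apply A2_nondeg h hs hs2 hx
  intro y hy
  have h1 : IsNilpotent (x * y) := ⟨2, by
    rw [pow_two]
    calc x * y * (x * y) = (x * y * x) * y := by noncomm_ring
      _ = 0 := by rw [hcon y hy, zero_mul]⟩
  exact (LinearMap.isNilpotent_trace_of_isNilpotent h1).eq_zero

theorem K3a_rank [FiniteDimensional K V] {x y : Module.End K V} {c : K}
    (h1 : x * y * x = c • x) (h2 : y * x * y = c • y) (h0 : x * y * x ≠ 0) :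
    finrank K (LinearMap.range x) = finrank K (LinearMap.range y) := by
  have hc : c ≠ 0 := by
    rintro rfl
    rw [zero_smul] at h1
    exact h0 h1
  apply le_antisymm
  · have e : x = x * y * (c⁻¹ • x) := by
      rw [mul_smul_comm, h1, smul_smul, inv_mul_cancel₀ hc, one_smul]
    calc finrank K (LinearMap.range x) = finrank K (LinearMap.range (x * y * (c⁻¹ • x))) := by
          rw [← e]
      _ ≤ finrank K (LinearMap.range (x * y)) := finrank_range_mul_le_left _ _
      _ ≤ _ := finrank_range_mul_le_right _ _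
  · have e : y = y * x * (c⁻¹ • y) := by
      rw [mul_smul_comm, h2, smul_smul, inv_mul_cancel₀ hc, one_smul]
    calc finrank K (LinearMap.range y) = finrank K (LinearMap.range (y * x * (c⁻¹ • y))) := by
          rw [← e]
      _ ≤ finrank K (LinearMap.range (y * x)) := finrank_range_mul_le_left _ _
      _ ≤ _ := finrank_range_mul_le_right _ _

theorem K3a_rank_eq [CharZero K] [IsAlgClosed K] [FiniteDimensional K V] [Nontrivial V]
    (h : CoreN L) {s e f : Module.End K V} (F : Frame L s e f)
    (hall : ∀ x ∈ Lp L s, ∀ y ∈ Lm L s, ∃ c : K, x * y * x = c • x ∧ y * x * y = c • y)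
    {x : Module.End K V} (hx : x ∈ Lp L s) (hx0 : x ≠ 0) :
    finrank K (LinearMap.range x) = finrank K (LinearMap.range e) := by
  have key : ∃ y ∈ Lm L s, x * y * x ≠ 0 ∧ e * y * e ≠ 0 := by
    obtain ⟨y1, hy1, h1⟩ := K3a_partner h F.s_mem F.s_sq hx hx0
    have h2 : e * f * e ≠ 0 := by rw [F.efe]; exact F.e_ne
    by_cases h3 : e * y1 * e = 0
    · by_cases h4 : x * f * x = 0
      · refine ⟨y1 + f, (Lm L s).add_mem hy1 F.f_mem, ?_, ?_⟩
        · rw [mul_add, add_mul, h4, add_zero]; exact h1
        · rw [mul_add, add_mul, h3, zero_add]; exact h2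
      · exact ⟨f, F.f_mem, h4, h2⟩
    · exact ⟨y1, hy1, h1, h3⟩
  obtain ⟨y, hy, h1, h2⟩ := key
  obtain ⟨c, hc1, hc2⟩ := hall x hx y hy
  obtain ⟨d, hd1, hd2⟩ := hall e F.e_mem y hy
  rw [K3a_rank hc1 hc2 h1, K3a_rank hd1 hd2 h2]

/-- Chunk K3a. All nonzero elements have the rank of `e`, and the scalar is a multiple of the
trace. For `x ∈ Lp`, `x ≠ 0`, the set of `y ∈ Lm` with `x y x = 0` is a proper subspace of `Lm`
(it is the kernel of the linear form `y ↦ c`, and if it is everything then `x X x = 0` for all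
`X ∈ L` by `A2_decomp` (`x a = 0`, `x b x = x b s x = - x b x`...), contradicting
`exists_partner` of H53Toric.Core1). A space over an infinite field is not the union of two proper
subspaces, so there is `y ∈ Lm` with `x y x = c x`, `c ≠ 0` and `e y e = c' e`, `c' ≠ 0`; from
`x y x = c x`, `y x y = c y` the ranks of `x` and `y` are equal, and likewise for `e`, `y`. So
`rank x = rank e =: r`. Now for `x ∈ Lp`, `y ∈ Lm`, `x y x = c x`: if `c ≠ 0`, `c⁻¹ x y` is an
idempotent of rank `rank x = r` and `tr (x y) = c r` (`trace_idem`); if `c = 0` (or `x = 0`) then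
`(x y)² = 0` and `tr (x y) = 0`. Similarly for `y x y` (the same `c`; if `y = 0` trivial). -/
theorem K3_trace [CharZero K] [IsAlgClosed K] [FiniteDimensional K V] [Nontrivial V]
    (h : CoreN L) {s e f : Module.End K V} (F : Frame L s e f)
    (hall : ∀ x ∈ Lp L s, ∀ y ∈ Lm L s, ∃ c : K, x * y * x = c • x ∧ y * x * y = c • y)
    {x y : Module.End K V} (hx : x ∈ Lp L s) (hy : y ∈ Lm L s) :
    (finrank K (LinearMap.range e) : K) • (x * y * x) = LinearMap.trace K V (x * y) • x ∧
    (finrank K (LinearMap.range e) : K) • (y * x * y) = LinearMap.trace K V (x * y) • y := by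
  obtain ⟨c, hc1, hc2⟩ := hall x hx y hy
  by_cases hx0 : x = 0
  · rw [hx0]; simp
  by_cases hy0 : y = 0
  · rw [hy0]; simp
  have htr : LinearMap.trace K V (x * y) = c * (finrank K (LinearMap.range e) : K) := by
    by_cases hc : c = 0
    · have h1 : IsNilpotent (x * y) := ⟨2, by
        rw [pow_two]
        calc x * y * (x * y) = (x * y * x) * y := by noncomm_ring
          _ = 0 := by rw [hc1, hc, zero_smul, zero_mul]⟩
      rw [(LinearMap.isNilpotent_trace_of_isNilpotent h1).eq_zero, hc, zero_mul]
    · have hi : (c⁻¹ • (x * y)) * (c⁻¹ • (x * y)) = c⁻¹ • (x * y) := by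
        rw [smul_mul_smul_comm]
        have e1 : x * y * (x * y) = c • (x * y) := by
          calc x * y * (x * y) = (x * y * x) * y := by noncomm_ring
            _ = _ := by rw [hc1, smul_mul_assoc]
        rw [e1, smul_smul]
        congr 1
        field_simp
      have h1 := trace_idem hi
      have h2 : finrank K (LinearMap.range (c⁻¹ • (x * y))) = finrank K (LinearMap.range x) := by
        apply rank_eq_of_dvd (c := c⁻¹ • y) (d := x)
        · rw [mul_smul_comm]
        · rw [smul_mul_assoc, hc1, smul_smul, inv_mul_cancel₀ hc, one_smul]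
      rw [h2, K3a_rank_eq h F hall hx hx0, map_smul, smul_eq_mul] at h1
      rw [← h1, ← mul_assoc, mul_inv_cancel₀ hc, one_mul]
  rw [hc1, hc2, htr, smul_smul, smul_smul, mul_comm c]
  exact ⟨rfl, rfl⟩

/-- Chunk K3. Let `r = rank e ≠ 0`, `B (x, y) = tr (x y) / r` on `Lp × Lm`: bilinear, perfect
(`A2_nondeg`, `A2_nondeg'`), `B (e, f) = 1` (`K0_rank`), and by `K3_trace` `x y x = B (x, y) x`,
`y x y = B (x, y) y`. Choose a basis `x 0 = e`, `x 1, ..., x n` of `Lp` with `B (x i, f) = 0` for
`i ≥ 1`, and the dual basis `y j` of `Lm`: `B (x i, y j) = δ`; then `y 0 = f`. Polarising gives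
`r1`, `r2`. `irr`: a subspace stable under all `x i`, `y i` (and `s`) is stable under `Lp`, `Lm`,
hence under `L0` (`A3_span`) and `L` (`A2_decomp`). -/
theorem K3_system [CharZero K] [IsAlgClosed K] [FiniteDimensional K V] [Nontrivial V]
    (h : CoreN L) {s e f : Module.End K V} (F : Frame L s e f)
    (hall : ∀ x ∈ Lp L s, ∀ y ∈ Lm L s, ∃ c : K, x * y * x = c • x ∧ y * x * y = c • y) :
    ∃ (n : ℕ) (x y : Fin (n + 1) → Module.End K V), Kemmer s x y ∧ x 0 = e ∧ y 0 = f ∧
      (∀ i, x i ∈ L) ∧ (∀ i, y i ∈ L) ∧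
      Lp L s ≤ Submodule.span K (Set.range x) ∧ Lm L s ≤ Submodule.span K (Set.range y) := by
  have hr0 : (finrank K (LinearMap.range e) : K) ≠ 0 := by
    rw [Nat.cast_ne_zero]
    intro h0
    exact F.e_ne (LinearMap.range_eq_bot.1 (Submodule.finrank_eq_zero.1 h0))
  obtain ⟨r, hr⟩ : ∃ r : K, r = (finrank K (LinearMap.range e) : K) := ⟨_, rfl⟩
  rw [← hr] at hr0
  have htef : LinearMap.trace K V (e * f) = r := by rw [(K0_rank F).2.2, hr]
  -- the pairing
  let T : Lm L s →ₗ[K] Module.Dual K (Lp L s) :=
    { toFun := fun y =>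
        { toFun := fun x => LinearMap.trace K V (x.1 * y.1)
          map_add' := fun a b => by
            change LinearMap.trace K V ((a.1 + b.1) * y.1) = _
            rw [add_mul, map_add]
          map_smul' := fun c a => by
            change LinearMap.trace K V ((c • a.1) * y.1) = _
            rw [smul_mul_assoc, map_smul]; rfl }
      map_add' := fun a b => by
        ext x
        change LinearMap.trace K V (x.1 * (a.1 + b.1)) = _
        rw [mul_add, map_add]; rfl
      map_smul' := fun c a => by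
        ext x
        change LinearMap.trace K V (x.1 * (c • a.1)) = _
        rw [mul_smul_comm, map_smul]; rfl }
  have hT : ∀ (y : Lm L s) (x : Lp L s), T y x = LinearMap.trace K V (x.1 * y.1) := fun _ _ => rfl
  let T' : Lp L s →ₗ[K] Module.Dual K (Lm L s) := T.flip
  have hTi : Function.Injective T := by
    rw [injective_iff_map_eq_zero]
    intro y hy
    apply Subtype.ext
    apply A2_nondeg' h F.s_mem F.s_sq y.2
    intro x hx
    exact LinearMap.congr_fun hy ⟨x, hx⟩
  have hTi' : Function.Injective T' := by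
    rw [injective_iff_map_eq_zero]
    intro x hx
    apply Subtype.ext
    apply A2_nondeg h F.s_mem F.s_sq x.2
    intro y hy
    exact LinearMap.congr_fun hx ⟨y, hy⟩
  have hdim : finrank K (Lm L s) = finrank K (Module.Dual K (Lp L s)) := by
    apply le_antisymm
    · exact LinearMap.finrank_le_finrank_of_injective hTi
    · rw [Subspace.dual_finrank_eq]
      have := LinearMap.finrank_le_finrank_of_injective hTi'
      rwa [Subspace.dual_finrank_eq] at this
  let E := LinearEquiv.ofInjectiveOfFinrankEq T hTi hdim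
  have hE : ∀ y, E y = T y := fun _ => rfl
  -- the basis
  let φ : Lp L s →ₗ[K] K := T ⟨f, F.f_mem⟩
  have hφe : φ ⟨e, F.e_mem⟩ = r := htef
  have hfree : Module.Free K (LinearMap.ker φ) :=
    @Module.Free.of_divisionRing K (LinearMap.ker φ) _ (LinearMap.ker φ).addCommGroup _
  let b := Module.finBasis K (LinearMap.ker φ)
  have hli : ∀ c : K, ∀ x ∈ LinearMap.ker φ, c • (⟨e, F.e_mem⟩ : Lp L s) + x = 0 → c = 0 := by
    intro c x hx hcx
    have h1 := congrArg φ hcx
    rw [map_add, map_smul, hφe, LinearMap.mem_ker.1 hx, add_zero, map_zero, smul_eq_mul] at h1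
    exact (mul_eq_zero.1 h1).resolve_right hr0
  have hsp : ∀ z : Lp L s, ∃ c : K, z + c • (⟨e, F.e_mem⟩ : Lp L s) ∈ LinearMap.ker φ := by
    intro z
    refine ⟨-(φ z / r), ?_⟩
    rw [LinearMap.mem_ker, map_add, map_smul, hφe, smul_eq_mul, neg_mul,
      div_mul_cancel₀ _ hr0, add_neg_cancel]
  let B := Module.Basis.mkFinCons (⟨e, F.e_mem⟩ : Lp L s) b hli hsp
  have hB0 : B 0 = ⟨e, F.e_mem⟩ := by
    change (Module.Basis.mkFinCons _ b hli hsp) 0 = _
    rw [Module.Basis.coe_mkFinCons]; rfl
  have hBs : ∀ i : Fin (finrank K (LinearMap.ker φ)), φ (B i.succ) = 0 := by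
    intro i
    change φ ((Module.Basis.mkFinCons _ b hli hsp) i.succ) = _
    rw [Module.Basis.coe_mkFinCons]
    exact LinearMap.mem_ker.1 (b i).2
  let C := B.dualBasis.map E.symm
  have hTC : ∀ i j, T (C j) (B i) = if i = j then 1 else 0 := by
    intro i j
    have h1 : T (C j) = B.dualBasis j := by
      rw [← hE]
      change E (E.symm (B.dualBasis j)) = _
      rw [LinearEquiv.apply_symm_apply]
    rw [h1, Module.Basis.dualBasis_apply_self]
  let x : Fin (finrank K (LinearMap.ker φ) + 1) → Module.End K V := fun i => (B i).1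
  let y : Fin (finrank K (LinearMap.ker φ) + 1) → Module.End K V := fun i => r • (C i).1
  have hx : ∀ i, x i ∈ Lp L s := fun i => (B i).2
  have hy : ∀ i, y i ∈ Lm L s := fun i => (Lm L s).smul_mem r (C i).2
  have htr : ∀ i j, LinearMap.trace K V (x i * y j) = if i = j then r else 0 := by
    intro i j
    change LinearMap.trace K V ((B i).1 * (r • (C j).1)) = _
    rw [mul_smul_comm, map_smul, ← hT, hTC]
    split_ifs <;> simp
  have hpol1 : ∀ a ∈ Lp L s, ∀ a' ∈ Lp L s, ∀ d ∈ Lm L s, r • (a * d * a' + a' * d * a) =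
      LinearMap.trace K V (a * d) • a' + LinearMap.trace K V (a' * d) • a := by
    intro a ha a' ha' d hd
    have h1 := (K3_trace h F hall ha hd).1
    have h2 := (K3_trace h F hall ha' hd).1
    have h3 := (K3_trace h F hall ((Lp L s).add_mem ha ha') hd).1
    rw [← hr] at h1 h2 h3
    have e1 : (a + a') * d * (a + a') = a * d * a + a' * d * a' + (a * d * a' + a' * d * a) := by
      noncomm_ring
    rw [e1, smul_add, smul_add, h1, h2, add_mul, map_add] at h3
    have e2 : r • (a * d * a' + a' * d * a) = (LinearMap.trace K V (a * d) • a +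
        LinearMap.trace K V (a' * d) • a' + r • (a * d * a' + a' * d * a)) -
        (LinearMap.trace K V (a * d) • a + LinearMap.trace K V (a' * d) • a') := by abel
    rw [e2, h3]
    module
  have hpol2 : ∀ a ∈ Lp L s, ∀ d ∈ Lm L s, ∀ d' ∈ Lm L s, r • (d * a * d' + d' * a * d) =
      LinearMap.trace K V (a * d) • d' + LinearMap.trace K V (a * d') • d := by
    intro a ha d hd d' hd'
    have h1 := (K3_trace h F hall ha hd).2
    have h2 := (K3_trace h F hall ha hd').2
    have h3 := (K3_trace h F hall ha ((Lm L s).add_mem hd hd')).2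
    rw [← hr] at h1 h2 h3
    have e1 : (d + d') * a * (d + d') = d * a * d + d' * a * d' + (d * a * d' + d' * a * d) := by
      noncomm_ring
    rw [e1, smul_add, smul_add, h1, h2, mul_add, map_add] at h3
    have e2 : r • (d * a * d' + d' * a * d) = (LinearMap.trace K V (a * d) • d +
        LinearMap.trace K V (a * d') • d' + r • (d * a * d' + d' * a * d)) -
        (LinearMap.trace K V (a * d) • d + LinearMap.trace K V (a * d') • d') := by abel
    rw [e2, h3]
    module
  have hcancel : ∀ S T : Module.End K V, r • S = r • T → S = T := fun S T hST =>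
    smul_right_injective _ hr0 hST
  refine ⟨finrank K (LinearMap.ker φ), x, y, ⟨F.s_sq, fun i => (hx i).2.1, fun i => (hx i).2.2,
    fun i => (hy i).2.1, fun i => (hy i).2.2, ?_, ?_, ?_⟩, ?_, ?_, fun i => (hx i).1, fun i => (hy i).1, ?_, ?_⟩
  · intro i j k
    apply hcancel
    rw [hpol1 _ (hx i) _ (hx k) _ (hy j), htr, htr]
    split_ifs <;> simp [smul_add]
  · intro i j k
    apply hcancel
    rw [hpol2 _ (hx j) _ (hy i) _ (hy k), htr, htr]
    simp only [eq_comm (a := j)]
    split_ifs <;> simp [smul_add]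
  · intro W hWx hWy hWs
    have hp : ∀ X ∈ Lp L s, ∀ w ∈ W, X w ∈ W := by
      intro X hX w hw
      have h1 := B.sum_repr ⟨X, hX⟩
      have h2 : X = ∑ i, (B.repr ⟨X, hX⟩ i) • x i := by
        have := congrArg Subtype.val h1
        rw [AddSubmonoidClass.coe_finsetSum] at this
        exact this.symm
      rw [h2, LinearMap.sum_apply]
      exact W.sum_mem fun i _ => W.smul_mem _ (hWx i w hw)
    have hm : ∀ Y ∈ Lm L s, ∀ w ∈ W, Y w ∈ W := by
      intro Y hY w hw
      have h1 := C.sum_repr ⟨Y, hY⟩
      have h2 : Y = ∑ i, (C.repr ⟨Y, hY⟩ i) • (C i).1 := by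
        have := congrArg Subtype.val h1
        rw [AddSubmonoidClass.coe_finsetSum] at this
        exact this.symm
      rw [h2, LinearMap.sum_apply]
      refine W.sum_mem fun i _ => W.smul_mem _ ?_
      have h3 := W.smul_mem r⁻¹ (hWy i w hw)
      change r⁻¹ • (r • (C i).1) w ∈ W at h3
      rwa [LinearMap.smul_apply, smul_smul, inv_mul_cancel₀ hr0, one_smul] at h3
    have h00 : ∀ Z ∈ L0 L s, ∀ w ∈ W, Z w ∈ W := by
      intro Z hZ w hw
      have h1 := A3_span h F.s_mem F.s_sq hZ
      clear hZ
      induction h1 using Submodule.span_induction with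
      | mem Z hZ =>
        obtain ⟨X, hX, Y, hY, rfl⟩ := hZ
        rw [LinearMap.sub_apply]
        exact W.sub_mem (hp X hX _ (hm Y hY w hw)) (hm Y hY _ (hp X hX w hw))
      | zero => simp
      | add a b _ _ ha hb =>
        rw [LinearMap.add_apply]
        exact W.add_mem ha hb
      | smul c a _ ha =>
        rw [LinearMap.smul_apply]
        exact W.smul_mem c ha
    apply h.irr W
    intro X hX w hw
    obtain ⟨a, ha, b, hb, c, hc, rfl⟩ := A2_decomp h F.s_mem F.s_sq hX
    rw [LinearMap.add_apply, LinearMap.add_apply]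
    exact W.add_mem (W.add_mem (hp a ha w hw) (h00 b hb w hw)) (hm c hc w hw)
  · change (B 0).1 = e
    rw [hB0]
  · change r • (C 0).1 = f
    have h1 : r • C 0 = ⟨f, F.f_mem⟩ := by
      apply hTi
      apply B.ext
      intro i
      rw [map_smul, LinearMap.smul_apply, hTC]
      change _ = φ (B i)
      refine Fin.cases ?_ (fun i => ?_) i
      · rw [if_pos rfl, hB0, hφe, smul_eq_mul, mul_one]
      · rw [if_neg (Fin.succ_ne_zero i), hBs, smul_zero]
    exact congrArg Subtype.val h1
  · intro X hX
    have h1 := B.sum_repr ⟨X, hX⟩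
    have h2 : X = ∑ i, (B.repr ⟨X, hX⟩ i) • x i := by
      have := congrArg Subtype.val h1
      rw [AddSubmonoidClass.coe_finsetSum] at this
      exact this.symm
    rw [h2]
    exact Submodule.sum_mem _ fun i _ => Submodule.smul_mem _ _ (Submodule.subset_span ⟨i, rfl⟩)
  · intro Y hY
    have h1 := C.sum_repr ⟨Y, hY⟩
    have h2 : Y = ∑ i, (C.repr ⟨Y, hY⟩ i) • (C i).1 := by
      have := congrArg Subtype.val h1
      rw [AddSubmonoidClass.coe_finsetSum] at this
      exact this.symm
    rw [h2]
    refine Submodule.sum_mem _ fun i _ => Submodule.smul_mem _ _ ?_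
    have h3 : (C i).1 = r⁻¹ • y i := by
      change (C i).1 = r⁻¹ • (r • (C i).1)
      rw [smul_smul, inv_mul_cancel₀ hr0, one_smul]
    rw [h3]
    exact Submodule.smul_mem _ _ (Submodule.subset_span ⟨i, rfl⟩)

end Pool.Agent.H25U
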