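import Pool.Agent.Lib.H25U.K2
import Pool.Agent.Lib.H25U.K3
import Pool.Agent.Lib.H49M.K4
import Pool.Agent.Lib.H49M.R2

/-!
# K5: conclusion in the case of a rank one Jordan pair
-/

set_option autoImplicit false
set_option linter.unusedSectionVars false
namespace Pool.Agent.H25U
open Module Pool.Agent.H53Toric Pool.Agent.H49M
open Pool.Agent.H86N (CoreN)

variable {K : Type*} [Field K] {V : Type*} [AddCommGroup V] [Module K V]

variable {L : Submodule K (Module.End K V)}

theorem K5_range [CharZero K] {s : Module.End K V} (hs2 : s * s = 1) {c : K} (hc : c * c = 1) :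
    LinearMap.range ((1 / 2 : K) • (1 + c • s)) = eig s c := by
  ext v
  rw [eig, LinearMap.mem_ker, LinearMap.sub_apply, LinearMap.smul_apply, Module.End.one_apply,
    sub_eq_zero]
  constructor
  · rintro ⟨w, rfl⟩
    have h1 : s * ((1 / 2 : K) • (1 + c • s)) = c • ((1 / 2 : K) • (1 + c • s)) := by
      have h2 : c • (1 + c • s) = s + c • (1 : Module.End K V) := by
        rw [smul_add, smul_smul, hc, one_smul, add_comm]
      rw [mul_smul_comm, mul_add, mul_smul_comm, hs2, mul_one, smul_comm c, h2]
    exact LinearMap.congr_fun h1 w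
  · intro h1
    refine ⟨v, ?_⟩
    rw [LinearMap.smul_apply, LinearMap.add_apply, LinearMap.smul_apply, h1, smul_smul, hc,
      Module.End.one_apply]
    module

/-- The dimensions of the eigenspaces add up. -/
theorem K5_sum [CharZero K] [FiniteDimensional K V] {s : Module.End K V} (hs2 : s * s = 1) :
    finrank K (eig s 1) + finrank K (eig s (-1)) = finrank K V := by
  have hi : ∀ c : K, c * c = 1 → (finrank K (eig s c) : K) =
      LinearMap.trace K V ((1 / 2 : K) • (1 + c • s)) := by
    intro c hc
    have h1 : ((1 / 2 : K) • (1 + c • s)) * ((1 / 2 : K) • (1 + c • s)) = (1 / 2 : K) • (1 + c • s) := by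
      have h2 : (1 + c • s) * (1 + c • s) = (2 : K) • (1 + c • s) := by
        have h3 : (c • s) * (c • s) = 1 := by rw [smul_mul_smul_comm, hc, hs2, one_smul]
        generalize c • s = t at h3 ⊢
        have h4 : (1 + t) * (1 + t) = 1 + t + t + t * t := by noncomm_ring
        rw [h4, h3, two_smul]
        abel
      rw [smul_mul_smul_comm, h2, smul_smul]
      norm_num
    have h2 := trace_idem h1
    rw [K5_range hs2 hc] at h2
    exact h2.symm
  have h1 := hi 1 (one_mul 1)
  have h2 := hi (-1) (by ring)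
  have h3 : (finrank K (eig s 1) : K) + (finrank K (eig s (-1)) : K) = (finrank K V : K) := by
    rw [h1, h2, ← map_add]
    have e : (1 / 2 : K) • (1 + (1 : K) • s) + (1 / 2 : K) • (1 + (-1 : K) • s) = 1 := by
      rw [← smul_add, one_smul, neg_one_smul]
      have : (1 + s + (1 + -s)) = (2 : K) • (1 : Module.End K V) := by rw [two_smul]; abel
      rw [this, smul_smul]
      norm_num
    rw [e, LinearMap.trace_one]
  exact_mod_cast h3

/-- The Kemmer case: exterior powers. -/
theorem K5_final [CharZero K] [IsAlgClosed K] [FiniteDimensional K V] [Nontrivial V]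
    (h : CoreN L) {s e f : Module.End K V} (F : Frame L s e f)
    (ha : ∀ u ∈ J1 L s e f, u * f * u = 0) :
    finrank K (LinearMap.range e) = 1 ∨
    ∃ n k : ℕ, 2 ≤ k ∧ k ≤ n ∧ finrank K (eig s 1) = (n + 1).choose k ∧
      finrank K (eig s (-1)) = (n + 1).choose (k - 1) ∧ finrank K V = (n + 2).choose k ∧
      finrank K (LinearMap.range e) = n.choose (k - 1) := by
  have hall := fun (x : Module.End K V) (hx : x ∈ Lp L s) (y : Module.End K V)
    (hy : y ∈ Lm L s) => K2_all h F ha hx hy
  obtain ⟨n, x, y, hK, hx, hy, -, -, -, -⟩ := K3_system h F hall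
  obtain ⟨k, hk1, hk2, h1, h2, h3, -⟩ := R2_rank hK (by rw [hx]; exact F.e_ne)
  have h4 := K5_sum (K := K) F.s_sq
  rw [hx] at h3
  obtain ⟨j, rfl⟩ : ∃ j, k = j + 1 := ⟨k - 1, by omega⟩
  rw [Nat.add_sub_cancel] at h2 h3
  by_cases hj0 : j = 0
  · left
    rw [h3, hj0, Nat.choose_zero_right]
  by_cases hjn : j = n
  · left
    rw [h3, hjn, Nat.choose_self]
  · right
    refine ⟨n, j + 1, by omega, by omega, h1, by rw [Nat.add_sub_cancel]; exact h2, ?_,
      by rw [Nat.add_sub_cancel]; exact h3⟩
    rw [← h4, h1, h2, Nat.choose_succ_succ (n + 1) j, add_comm]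

end Pool.Agent.H25U
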