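import Pool.Agent.Lib.H25U.A2

/-!
# K0: elementary facts on frames
-/

set_option autoImplicit false
set_option linter.unusedSectionVars false
namespace Pool.Agent.H25U
open Module Pool.Agent.H53Toric Pool.Agent.H49M
open Pool.Agent.H86N (CoreN)

variable {K : Type*} [Field K] {V : Type*} [AddCommGroup V] [Module K V]

variable {L : Submodule K (Module.End K V)}

theorem K0_ee [CharZero K] {s e f : Module.End K V} (F : Frame L s e f) : e * e = 0 :=
  A2_pp F.e_mem F.e_mem

theorem K0_ff [CharZero K] {s e f : Module.End K V} (F : Frame L s e f) : f * f = 0 :=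
  A2_mm F.f_mem F.f_mem

/-- Chunk K0. `X (s X') ` computations: `e e = 0`, `f f = 0` by `A2_pp`, `A2_mm`. The extremality
of `f`: `f X f = f e f X f e f = f (e (f X f) e) f = c f e f = c f` with `f X f ∈ L`
(`IsLie.sandwich`). -/
theorem K0_swap [CharZero K] {s e f : Module.End K V} (hl : IsLie L) (F : Frame L s e f) :
    Frame L (-s) f e := by
  have hLp : Lp L (-s) = Lm L s := by
    ext X
    rw [mem_Lp, mem_Lm, neg_mul, mul_neg, neg_eq_iff_eq_neg, neg_inj]
  have hLm : Lm L (-s) = Lp L s := by
    ext X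
    rw [mem_Lp, mem_Lm, neg_mul, mul_neg, neg_inj, neg_eq_iff_eq_neg]
  refine ⟨InL.neg F.s_mem, by rw [neg_mul_neg, F.s_sq], by rw [hLp]; exact F.f_mem,
    by rw [hLm]; exact F.e_mem, ?_, F.fef, F.efe, ?_⟩
  · intro h0
    have := F.efe
    rw [h0, mul_zero, zero_mul] at this
    exact F.e_ne this.symm
  · intro X hX
    obtain ⟨c, hc⟩ := F.ext _ (hl.sandwich F.f_mem.1 (K0_ff F) hX)
    refine ⟨c, ?_⟩
    have e1 : f * X * f = f * (e * (f * X * f) * e) * f := by
      calc f * X * f = (f * e * f) * X * (f * e * f) := by rw [F.fef]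
        _ = _ := by noncomm_ring
    rw [e1, hc, mul_smul_comm, smul_mul_assoc, F.fef]

theorem K0_Lp (s : Module.End K V) : Lp L (-s) = Lm L s := by
  ext X
  rw [mem_Lp, mem_Lm, neg_mul, mul_neg, neg_eq_iff_eq_neg, neg_inj]

theorem K0_Lm (s : Module.End K V) : Lm L (-s) = Lp L s := by
  ext X
  rw [mem_Lp, mem_Lm, neg_mul, mul_neg, neg_inj, neg_eq_iff_eq_neg]

theorem K0_L0 (s : Module.End K V) : L0 L (-s) = L0 L s := by
  ext X
  rw [mem_L0, mem_L0, neg_mul, mul_neg, neg_inj]

/-- `e f X f e = e (f X f) e` and `f X f ∈ L`. -/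
theorem K0_ext [CharZero K] {s e f : Module.End K V} (hl : IsLie L) (F : Frame L s e f)
    {X : Module.End K V} (hX : X ∈ L) : ∃ c : K, e * f * X * (f * e) = c • e := by
  obtain ⟨c, hc⟩ := F.ext _ (hl.sandwich F.f_mem.1 (K0_ff F) hX)
  refine ⟨c, ?_⟩
  rw [← hc]
  noncomm_ring

/-- The rank of `e` is the rank of the idempotent `e f`, its trace. -/
theorem K0_rank [CharZero K] [FiniteDimensional K V] {s e f : Module.End K V}
    (F : Frame L s e f) :
    finrank K (LinearMap.range (e * f)) = finrank K (LinearMap.range e) ∧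
    finrank K (LinearMap.range f) = finrank K (LinearMap.range e) ∧
    LinearMap.trace K V (e * f) = (finrank K (LinearMap.range e) : K) := by
  have h1 : finrank K (LinearMap.range (e * f)) = finrank K (LinearMap.range e) :=
    rank_eq_of_dvd (c := f) (d := e) rfl F.efe.symm
  have h2 : finrank K (LinearMap.range (f * e)) = finrank K (LinearMap.range f) :=
    rank_eq_of_dvd (c := e) (d := f) rfl F.fef.symm
  have i1 : (e * f) * (e * f) = e * f := by
    calc (e * f) * (e * f) = (e * f * e) * f := by noncomm_ring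
      _ = e * f := by rw [F.efe]
  have i2 : (f * e) * (f * e) = f * e := by
    calc (f * e) * (f * e) = (f * e * f) * e := by noncomm_ring
      _ = f * e := by rw [F.fef]
  have t1 := trace_idem i1
  have t2 := trace_idem i2
  rw [LinearMap.trace_mul_comm] at t2
  refine ⟨h1, ?_, by rw [t1, h1]⟩
  rw [t1, h1, h2] at t2
  exact_mod_cast t2.symm

/-- An element `H = e f - f e` of `L` and the elements `[H, e] = 2 e`, `[H, f] = -2 f`. -/
theorem K0_H [CharZero K] {s e f : Module.End K V} (hl : IsLie L) (F : Frame L s e f) :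
    e * f - f * e ∈ L := by
  exact hl e F.e_mem.1 f F.f_mem.1

end Pool.Agent.H25U
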