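import Pool.Agent.Lib.H86N.G1
import Pool.Agent.Lib.H25U.K0

/-!
# G1: an invariant form from a form on a corner
-/

set_option autoImplicit false
set_option linter.unusedSectionVars false
namespace Pool.Agent.H25U
open Module Pool.Agent.H53Toric Pool.Agent.H49M
open Pool.Agent.H86N (CoreN)

variable {K : Type*} [Field K] {V : Type*} [AddCommGroup V] [Module K V]

variable {L : Submodule K (Module.End K V)}

theorem exists_form [CharZero K] [IsAlgClosed K] [FiniteDimensional K V] [Nontrivial V]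
    (h : CoreN L) {s e f : Module.End K V} (F : Frame L s e f) (β : V →ₗ[K] V →ₗ[K] K)
    (h1 : ∀ v w, β (e (f v)) w = β v w) (h2 : ∀ v w, β v (f (e w)) = β v w)
    (h3 : ∀ X ∈ L, ∀ v w, β (X (e (f v))) w + β v (X (f (e w))) = 0) :
    ∃ B : V →ₗ[K] V →ₗ[K] K, (∀ v w, B (e (f v)) w = β v w) ∧
      ∀ X ∈ L, ∀ v w, B (X v) w + B v (X w) = 0 :=
  Pool.Agent.H86N.exists_form' h.lie h.irr F.e_ne (A2_pp F.e_mem F.e_mem) (A2_mm F.f_mem F.f_mem) F.efe F.fef
    (K0_H h.lie F) β h1 h2 h3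

end Pool.Agent.H25U
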