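import Pool.Agent.Lib.H25U.B1
import Pool.Agent.Lib.H25U.K5
import Pool.Agent.Lib.H25U.P6
import Pool.Agent.Lib.H25U.R2
import Pool.Agent.Lib.H25U.P1

/-!
# B2: the component theorem for one frame, no balance condition
-/

set_option autoImplicit false
set_option linter.unusedSectionVars false
namespace Pool.Agent.H25U
open Module Pool.Agent.H53Toric Pool.Agent.H49M
open Pool.Agent.H86N (CoreN)

variable {K : Type*} [Field K] {V : Type*} [AddCommGroup V] [Module K V]

variable {L : Submodule K (Module.End K V)}

theorem eig_dim [CharZero K] [FiniteDimensional K V] {s : Module.End K V} (hs2 : s * s = 1) {c : K}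
    (hc : c * c = 1) : (finrank K (eig s c) : K) = LinearMap.trace K V ((1 / 2 : K) • (1 + c • s)) := by
  have h1 : ((1 / 2 : K) • (1 + c • s)) * ((1 / 2 : K) • (1 + c • s)) = (1 / 2 : K) • (1 + c • s) := by
    have h2 : (1 + c • s) * (1 + c • s) = (2 : K) • (1 + c • s) := by
      have h3 : (c • s) * (c • s) = 1 := by rw [smul_mul_smul_comm, hc, hs2, one_smul]
      generalize c • s = t at h3 ⊢
      have h4 : (1 + t) * (1 + t) = 1 + t + t + t * t := by noncomm_ring
      rw [h4, h3, two_smul]
      abel
    rw [smul_mul_smul_comm, h2, smul_smul]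
    norm_num
  have h2 := trace_idem h1
  rw [K5_range hs2 hc] at h2
  exact h2.symm

theorem eig_diff [CharZero K] [FiniteDimensional K V] {s : Module.End K V} (hs2 : s * s = 1) :
    (finrank K (eig s 1) : K) - (finrank K (eig s (-1)) : K) = LinearMap.trace K V s := by
  rw [eig_dim hs2 (one_mul 1), eig_dim hs2 (show (-1 : K) * -1 = 1 by ring), ← map_sub]
  congr 1
  rw [← smul_sub, one_smul, neg_one_smul]
  have : (1 + s - (1 + -s)) = (2 : K) • s := by rw [two_smul]; abel
  rw [this, smul_smul]
  norm_num

theorem eig_neg {s : Module.End K V} (c : K) : eig (-s) c = eig s (-c) := by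
  ext v
  rw [eig, eig, LinearMap.mem_ker, LinearMap.mem_ker, LinearMap.sub_apply, LinearMap.sub_apply,
    LinearMap.neg_apply, LinearMap.smul_apply, LinearMap.smul_apply, Module.End.one_apply, neg_smul,
    sub_neg_eq_add, ← neg_eq_zero, neg_sub, sub_neg_eq_add, add_comm]

theorem mem_eig {s : Module.End K V} {c : K} {v : V} : v ∈ eig s c ↔ s v = c • v := by
  rw [eig, LinearMap.mem_ker, LinearMap.sub_apply, LinearMap.smul_apply, Module.End.one_apply, sub_eq_zero]

/-- An invariant form forces equal dimensions. -/
theorem bal_of_form [CharZero K] [FiniteDimensional K V] (h : CoreN L) {s : Module.End K V}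
    (hs : InL L s) (hs2 : s * s = 1) {B : V →ₗ[K] V →ₗ[K] K} (hB : B ≠ 0)
    (hinv : ∀ X ∈ L, ∀ v w, B (X v) w + B v (X w) = 0) :
    finrank K (eig s 1) = finrank K (eig s (-1)) := by
  obtain ⟨c, hc⟩ := hs.mem
  have hker : ∀ v, B v = 0 → v = 0 := by
    intro v hv
    rcases h.irr (LinearMap.ker B) (by
      intro X hX v hv
      rw [LinearMap.mem_ker] at hv ⊢
      ext w
      have h1 := hinv X hX v w
      rw [hv, LinearMap.zero_apply, add_zero] at h1
      exact h1) with h1 | h1
    · have h2 : v ∈ LinearMap.ker B := hv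
      rw [h1, Submodule.mem_bot] at h2
      exact h2
    · exact absurd (LinearMap.ker_eq_top.1 h1) hB
  have key : ∀ (a b : K) (v w : V), s v = a • v → s w = b • w → (a + b + 2 * c) * B v w = 0 := by
    intro a b v w hv hw
    have h1 := hinv _ hc v w
    rw [LinearMap.add_apply, LinearMap.add_apply, hv, hw, LinearMap.smul_apply, LinearMap.smul_apply,
      Module.End.one_apply, Module.End.one_apply, ← add_smul, ← add_smul, map_smul, map_smul,
      LinearMap.smul_apply, smul_eq_mul, smul_eq_mul] at h1
    linear_combination h1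
  -- the decomposition of a vector
  have hdec : ∀ v : V, ∃ a b : V, s a = (1 : K) • a ∧ s b = (-1 : K) • b ∧ v = a + b := by
    intro v
    have hss : s (s v) = v := LinearMap.congr_fun hs2 v
    refine ⟨(1 / 2 : K) • (v + s v), (1 / 2 : K) • (v - s v), ?_, ?_, ?_⟩
    · rw [map_smul, map_add, hss, one_smul, add_comm]
    · rw [map_smul, map_sub, hss, smul_comm, neg_one_smul, neg_sub]
    · rw [← smul_add]
      have : v + s v + (v - s v) = (2 : K) • v := by rw [two_smul]; abel
      rw [this, smul_smul]
      norm_num
  by_cases hc0 : c = 0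
  · rw [hc0, zero_smul, add_zero] at hc
    have h1 := eig_diff (K := K) hs2
    rw [h.tr s hc, sub_eq_zero] at h1
    exact_mod_cast h1
  exfalso
  have hmix : ∀ v w : V, s v = (1 : K) • v → s w = (-1 : K) • w → B v w = 0 ∧ B w v = 0 := by
    intro v w hv hw
    constructor
    · have h1 := key 1 (-1) v w hv hw
      have h2 : (2 * c) * B v w = 0 := by linear_combination h1
      exact (mul_eq_zero.1 h2).resolve_left (mul_ne_zero two_ne_zero hc0)
    · have h1 := key (-1) 1 w v hw hv
      have h2 : (2 * c) * B w v = 0 := by linear_combination h1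
      exact (mul_eq_zero.1 h2).resolve_left (mul_ne_zero two_ne_zero hc0)
  by_cases hc1 : c = -1
  · -- the minus part vanishes
    apply hs.ne1
    ext v
    obtain ⟨a, b, ha, hb, rfl⟩ := hdec v
    have hb0 : b = 0 := by
      apply hker
      ext w
      obtain ⟨a', b', ha', hb', rfl⟩ := hdec w
      rw [map_add, (hmix a' b ha' hb).2, zero_add, LinearMap.zero_apply]
      have h1 := key (-1) (-1) b b' hb hb'
      have h2 : (-4 : K) * B b b' = 0 := by rw [hc1] at h1; linear_combination h1
      exact (mul_eq_zero.1 h2).resolve_left (by norm_num)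
    rw [hb0, add_zero, ha, one_smul, Module.End.one_apply]
  · apply hs.ne2
    ext v
    obtain ⟨a, b, ha, hb, rfl⟩ := hdec v
    have ha0 : a = 0 := by
      apply hker
      ext w
      obtain ⟨a', b', ha', hb', rfl⟩ := hdec w
      rw [map_add, (hmix a b' ha hb').1, add_zero, LinearMap.zero_apply]
      have h1 := key 1 1 a a' ha ha'
      have h2 : (1 + c) * B a a' = 0 := by linear_combination (1 / 2 : K) * h1
      refine (mul_eq_zero.1 h2).resolve_left fun h3 => hc1 ?_
      exact (neg_eq_of_add_eq_zero_right h3).symm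
    rw [ha0, zero_add, hb, neg_one_smul, LinearMap.neg_apply, Module.End.one_apply]

/-- The dimension of the plus space if two frames fill it. -/
theorem eig_two [CharZero K] [IsAlgClosed K] [FiniteDimensional K V] [Nontrivial V]
    {s e f e' f' u : Module.End K V} (G : Grid L s e f e' f' u)
    (h0 : (1 / 2 : K) • (1 + s) = e * f + e' * f') :
    finrank K (eig s 1) = 2 * finrank K (LinearMap.range e) := by
  have h1 := eig_dim (K := K) G.F.s_sq (one_mul (1 : K))
  rw [one_smul, h0, map_add, (K0_rank G.F).2.2, (K0_rank G.F').2.2] at h1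
  have h2 : finrank K (LinearMap.range e') = finrank K (LinearMap.range e) := by
    apply le_antisymm
    · have e1 : finrank K (LinearMap.range (u * f * u)) ≤ finrank K (LinearMap.range f) :=
        (finrank_range_mul_le_left _ _).trans (finrank_range_mul_le_right _ _)
      rw [G.ufu] at e1
      have e2 : finrank K (LinearMap.range f) ≤ finrank K (LinearMap.range e) := by
        calc finrank K (LinearMap.range f) = finrank K (LinearMap.range (f * e * f)) := by rw [G.F.fef]
          _ ≤ finrank K (LinearMap.range (f * e)) := finrank_range_mul_le_left _ _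
          _ ≤ _ := finrank_range_mul_le_right _ _
      exact e1.trans e2
    · have e1 : finrank K (LinearMap.range (u * f' * u)) ≤ finrank K (LinearMap.range f') :=
        (finrank_range_mul_le_left _ _).trans (finrank_range_mul_le_right _ _)
      rw [G.ufu'] at e1
      have e2 : finrank K (LinearMap.range f') ≤ finrank K (LinearMap.range e') := by
        calc finrank K (LinearMap.range f') = finrank K (LinearMap.range (f' * e' * f')) := by rw [G.F'.fef]
          _ ≤ finrank K (LinearMap.range (f' * e')) := finrank_range_mul_le_left _ _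
          _ ≤ _ := finrank_range_mul_le_right _ _
      exact e1.trans e2
  rw [h2] at h1
  have h3 : (finrank K (eig s 1) : K) = ((2 * finrank K (LinearMap.range e) : ℕ) : K) := by
    rw [h1]
    push_cast
    ring
  exact_mod_cast h3

/-- **The component theorem for one frame, unequal dimensions.** -/
theorem coreU_frame [CharZero K] [IsAlgClosed K] [FiniteDimensional K V] [Nontrivial V]
    (h : CoreN L) {s e f : Module.End K V} (F : Frame L s e f)
    (hne : finrank K (eig s 1) ≠ finrank K (eig s (-1))) :
    finrank K (LinearMap.range e) = 1 ∨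
    ∃ n k : ℕ, 2 ≤ k ∧ k ≤ n ∧ finrank K (eig s 1) = (n + 1).choose k ∧
      finrank K (eig s (-1)) = (n + 1).choose (k - 1) ∧ finrank K V = (n + 2).choose k ∧
      finrank K (LinearMap.range e) = n.choose (k - 1) := by
  have hnf : ∀ B : V →ₗ[K] V →ₗ[K] K, B ≠ 0 → (∀ X ∈ L, ∀ v w, B (X v) w + B v (X w) = 0) → False :=
    fun B hB hinv => hne (bal_of_form h F.s_mem F.s_sq hB hinv)
  by_cases ha : ∀ u ∈ J1 L s e f, u * f * u = 0
  · exact K5_final h F ha
  push Not at ha
  obtain ⟨u, hu, hu0⟩ := ha
  obtain ⟨e', f', G⟩ := P1_grid h F hu hu0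
  rcases P5_dich h G with hall | hp0
  · rcases P6_two h G hall with h1 | ⟨h1, -⟩
    · exact Or.inl h1
    · obtain ⟨B, hB, hinv⟩ := r2_form h G h1
      exact (hnf B hB hinv).elim
  have Fs := K0_swap h.lie F
  have hrk : finrank K (LinearMap.range f) = finrank K (LinearMap.range e) := by
    apply le_antisymm
    · calc finrank K (LinearMap.range f) = finrank K (LinearMap.range (f * e * f)) := by rw [F.fef]
        _ ≤ finrank K (LinearMap.range (f * e)) := finrank_range_mul_le_left _ _
        _ ≤ _ := finrank_range_mul_le_right _ _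
    · calc finrank K (LinearMap.range e) = finrank K (LinearMap.range (e * f * e)) := by rw [F.efe]
        _ ≤ finrank K (LinearMap.range (e * f)) := finrank_range_mul_le_left _ _
        _ ≤ _ := finrank_range_mul_le_right _ _
  by_cases ha' : ∀ w ∈ J1 L (-s) f e, w * e * w = 0
  · rcases K5_final h Fs ha' with h1 | ⟨n, k, hk2, hkn, h1, h2, h3, h4⟩
    · exact Or.inl (hrk ▸ h1)
    · right
      rw [eig_neg] at h1 h2
      rw [neg_neg] at h2
      refine ⟨n, n + 2 - k, by omega, by omega, ?_, ?_, ?_, ?_⟩
      · rw [h2, show n + 2 - k = n + 1 - (k - 1) by omega, Nat.choose_symm (by omega)]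
      · rw [h1, show n + 2 - k - 1 = n + 1 - k by omega, Nat.choose_symm (by omega)]
      · rw [h3, Nat.choose_symm (by omega)]
      · rw [← hrk, h4, show n + 2 - k - 1 = n - (k - 1) by omega, Nat.choose_symm (by omega)]
  push Not at ha'
  obtain ⟨w, hw, hw0⟩ := ha'
  obtain ⟨e'', f'', G'⟩ := P1_grid h Fs hw hw0
  rcases P5_dich h G' with hall | hq0
  · rcases P6_two h G' hall with h1 | ⟨h1, -⟩
    · exact Or.inl (hrk ▸ h1)
    · obtain ⟨B, hB, hinv⟩ := r2_form h G' h1
      exact (hnf B hB hinv).elim
  · exfalso
    have h1 := eig_two G hp0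
    have h2 := eig_two G' hq0
    rw [eig_neg] at h2
    exact hne (by rw [h1, h2, hrk])

end Pool.Agent.H25U
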