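import Pool.Agent.Lib.H25Y.Sym
import Pool.Agent.Lib.H25U.T1

/-!
# A symmetric configuration of weights gives an invariant bilinear form
-/

set_option autoImplicit false
set_option linter.unusedSectionVars false
namespace Pool.Agent.H25U
open Module Matrix Pool.Agent.H53Toric
open Pool.Agent.H76P (dg dq dg_apply dg_mul dg_add dg_smul dg_one dg_inj)
open Pool.Agent.H25Y (dg_single replica fun_mem ext_entry exists_generic apply_eq_sum form_of_graph norm_mem scalar_of_comm trace_dg)
open Pool.Agent.H76Y (NsL)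

variable {κ : Type*} {K : Type*} [Field K] [CharZero K] [Fintype κ] [DecidableEq κ]
  [IsAlgClosed K] [Nonempty κ] {L : Submodule K (Module.End K (κ → K))}

/-- The diagonal elements of `L` are symmetric if the rational ones are. -/
theorem sym_diag (hL : IsLie L) (hirr : Irr L) (htr : ∀ X ∈ L, LinearMap.trace K (κ → K) X = 0)
    (hdiag : ∀ f : κ → ℚ, dq f ∈ L → f ∈ Yo L) {k k' : κ} (hk : ∀ f ∈ Yo L, f k' = -f k)
    {g : κ → K} (hg : dg g ∈ L) : g k' = -g k := by
  rw [← add_eq_zero_iff_eq_neg, ← Module.forall_dual_apply_eq_zero_iff ℚ]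
  intro φ
  have h1 : φ (g k') = -φ (g k) := hk _ (hdiag _ (replica hL hirr htr hg φ))
  rw [map_add, h1]
  ring

/-- If the set of the weights is symmetric, there is a nonzero invariant bilinear form. -/
theorem exists_inv_form (hL : IsLie L) (hirr : Irr L)
    (htr : ∀ X ∈ L, LinearMap.trace K (κ → K) X = 0)
    (hdiag : ∀ f : κ → ℚ, dq f ∈ L → f ∈ Yo L)
    (hsep : ∀ a b : κ, a ≠ b → ∃ f ∈ Yo L, f a ≠ f b)
    (hsym : ∀ k, ∃ k', ∀ f ∈ Yo L, f k' = -f k) :
    ∃ b : (κ → K) →ₗ[K] (κ → K) →ₗ[K] K, b ≠ 0 ∧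
      ∀ X ∈ L, ∀ v w, b (X v) w + b v (X w) = 0 := by
  classical
  obtain ⟨f, hf, hinj⟩ := exists_generic hsep
  obtain ⟨M, -, hM⟩ := Finset.exists_max_image (Finset.univ : Finset κ) f Finset.univ_nonempty
  have hM' : ∀ b, f b ≤ f M := fun b => hM b (Finset.mem_univ b)
  obtain ⟨m, hm⟩ := hsym M
  have hm' : ∀ b, f m ≤ f b := by
    intro b
    obtain ⟨b', hb'⟩ := hsym b
    have h1 := hb' f hf
    have h2 := hm f hf
    have h3 := hM' b'
    linarith
  have hdf : (dq f : Module.End K (κ → K)) ∈ L := Yo_mem hf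
  -- the three parts of an element
  have hcast : ∀ a b : κ, ((f a : ℚ) : K) - ((f b : ℚ) : K) = ((f a - f b : ℚ) : K) := by
    intro a b
    push_cast
    rfl
  have split : ∀ Z ∈ L, ∃ Z₁ ∈ L, ∃ g : κ → K, dg g ∈ L ∧ ∃ Z₃ ∈ L, Z = Z₁ + dg g + Z₃ ∧
      (∀ v, Z₁ v M = 0) ∧ Z₁ (Pi.single m 1) = 0 ∧ Z₃ (Pi.single M 1) = 0 ∧ ∀ v, Z₃ v m = 0 := by
    intro Z hZ
    obtain ⟨Z₁, h1, e1⟩ := fun_mem hL hdf
      (fun c => if ∃ q : ℚ, q < 0 ∧ (q : K) = c then 1 else 0) hZ
    obtain ⟨Z₂, h2, e2⟩ := fun_mem hL hdf (fun c => if c = 0 then 1 else 0) hZ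
    obtain ⟨Z₃, h3, e3⟩ := fun_mem hL hdf
      (fun c => if ∃ q : ℚ, 0 < q ∧ (q : K) = c then 1 else 0) hZ
    have c1 : ∀ a b, (∃ q : ℚ, q < 0 ∧ (q : K) = ((f a : ℚ) : K) - ((f b : ℚ) : K)) ↔ f a < f b := by
      intro a b
      rw [hcast]
      constructor
      · rintro ⟨q, hq, h⟩
        have : q = f a - f b := by exact_mod_cast h
        linarith
      · intro h
        exact ⟨f a - f b, by linarith, rfl⟩
    have c3 : ∀ a b, (∃ q : ℚ, 0 < q ∧ (q : K) = ((f a : ℚ) : K) - ((f b : ℚ) : K)) ↔ f b < f a := by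
      intro a b
      rw [hcast]
      constructor
      · rintro ⟨q, hq, h⟩
        have : q = f a - f b := by exact_mod_cast h
        linarith
      · intro h
        exact ⟨f a - f b, by linarith, rfl⟩
    have c2 : ∀ a b, ((f a : ℚ) : K) - ((f b : ℚ) : K) = 0 ↔ a = b := by
      intro a b
      rw [hcast]
      constructor
      · intro h
        have : f a - f b = 0 := by exact_mod_cast h
        exact hinj (sub_eq_zero.1 this)
      · rintro rfl
        rw [sub_self, Rat.cast_zero]
    have e1' : ∀ a b, Z₁ (Pi.single b 1) a = if f a < f b then Z (Pi.single b 1) a else 0 := by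
      intro a b
      rw [e1]
      simp only [c1]
      split_ifs <;> simp
    have e2' : ∀ a b, Z₂ (Pi.single b 1) a = if a = b then Z (Pi.single b 1) a else 0 := by
      intro a b
      rw [e2]
      simp only [c2]
      split_ifs <;> simp
    have e3' : ∀ a b, Z₃ (Pi.single b 1) a = if f b < f a then Z (Pi.single b 1) a else 0 := by
      intro a b
      rw [e3]
      simp only [c3]
      split_ifs <;> simp
    have hZ2 : Z₂ = dg fun a => Z (Pi.single a 1) a := by
      refine ext_entry fun a b => ?_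
      rw [e2', dg_apply]
      by_cases hab : a = b
      · rw [if_pos hab, hab, Pi.single_eq_same, mul_one]
      · rw [if_neg hab, Pi.single_eq_of_ne hab, mul_zero]
    refine ⟨Z₁, h1, fun a => Z (Pi.single a 1) a, hZ2 ▸ h2, Z₃, h3, ?_, ?_, ?_, ?_, ?_⟩
    · rw [← hZ2]
      refine ext_entry fun a b => ?_
      rw [LinearMap.add_apply, LinearMap.add_apply, Pi.add_apply, Pi.add_apply, e1', e2', e3']
      rcases lt_trichotomy (f a) (f b) with h | h | h
      · have hab : a ≠ b := fun h' => by rw [h'] at h; exact lt_irrefl _ h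
        rw [if_pos h, if_neg hab, if_neg (not_lt.2 h.le), add_zero, add_zero]
      · have hab : a = b := hinj h
        rw [if_neg (by rw [h]; exact lt_irrefl _), if_pos hab, if_neg (by rw [h]; exact lt_irrefl _),
          zero_add, add_zero]
      · have hab : a ≠ b := fun h' => by rw [h'] at h; exact lt_irrefl _ h
        rw [if_neg (not_lt.2 h.le), if_neg hab, if_pos h, zero_add, zero_add]
    · intro v
      rw [apply_eq_sum]
      refine Finset.sum_eq_zero fun b _ => ?_
      rw [e1', if_neg (not_lt.2 (hM' b)), mul_zero]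
    · funext a
      rw [e1', if_neg (not_lt.2 (hm' a))]
      rfl
    · funext a
      rw [e3', if_neg (not_lt.2 (hM' a))]
      rfl
    · intro v
      rw [apply_eq_sum]
      refine Finset.sum_eq_zero fun b _ => ?_
      rw [e3', if_neg (not_lt.2 (hm' b)), mul_zero]
  -- the submodule
  let act : Module.End K (κ → K) → (κ → K) × Module.Dual K (κ → K) →
      (κ → K) × Module.Dual K (κ → K) := fun X u => (X u.1, -(u.2 ∘ₗ X))
  have act_add : ∀ X u u', act X (u + u') = act X u + act X u' := by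
    intro X u u'
    refine Prod.ext (map_add X _ _) ?_
    show -((u.2 + u'.2) ∘ₗ X) = -(u.2 ∘ₗ X) + -(u'.2 ∘ₗ X)
    rw [LinearMap.add_comp]
    abel
  have act_smul : ∀ X (c : K) u, act X (c • u) = c • act X u := by
    intro X c u
    refine Prod.ext (map_smul X _ _) ?_
    show -((c • u.2) ∘ₗ X) = c • -(u.2 ∘ₗ X)
    rw [LinearMap.smul_comp, smul_neg]
  have act_comm : ∀ X Y u, act X (act Y u) = act Y (act X u) + act (X * Y - Y * X) u := by
    intro X Y u
    refine Prod.ext ?_ ?_
    · show X (Y u.1) = Y (X u.1) + (X * Y - Y * X) u.1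
      rw [LinearMap.sub_apply, Module.End.mul_apply, Module.End.mul_apply]
      abel
    · show -((-(u.2 ∘ₗ Y)) ∘ₗ X) = -((-(u.2 ∘ₗ X)) ∘ₗ Y) + -(u.2 ∘ₗ (X * Y - Y * X))
      refine LinearMap.ext fun v => ?_
      simp
  let x : (κ → K) × Module.Dual K (κ → K) := (Pi.single M 1, LinearMap.proj m)
  let W : ℕ → Set ((κ → K) × Module.Dual K (κ → K)) := fun n => Nat.rec {x}
    (fun _ S => {u' | ∃ Y ∈ L, (∀ v, Y v M = 0) ∧ Y (Pi.single m 1) = 0 ∧ ∃ u ∈ S, u' = act Y u}) n
  let U : Submodule K ((κ → K) × Module.Dual K (κ → K)) := Submodule.span K (⋃ n, W n)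
  have hWU : ∀ n, ∀ u ∈ W n, u ∈ U := fun n u hu => Submodule.subset_span (Set.mem_iUnion.2 ⟨n, hu⟩)
  have hxU : x ∈ U := hWU 0 x rfl
  have hlow : ∀ Y ∈ L, (∀ v, Y v M = 0) → Y (Pi.single m 1) = 0 → ∀ u ∈ U, act Y u ∈ U := by
    intro Y hY hY1 hY2 u hu
    induction hu using Submodule.span_induction with
    | mem u hu =>
      obtain ⟨n, hn⟩ := Set.mem_iUnion.1 hu
      exact hWU (n + 1) _ ⟨Y, hY, hY1, hY2, u, hn, rfl⟩
    | zero =>
      have : act Y 0 = 0 := by
        have := act_smul Y 0 0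
        rwa [zero_smul, zero_smul] at this
      rw [this]
      exact U.zero_mem
    | add u u' _ _ h h' => rw [act_add]; exact U.add_mem h h'
    | smul c u _ h => rw [act_smul]; exact U.smul_mem c h
  have hbase : ∀ Z ∈ L, act Z x ∈ U := by
    intro Z hZ
    obtain ⟨Z₁, h1, g, hg, Z₃, h3, he, a1, a2, a3, a4⟩ := split Z hZ
    have e1 : act Z x = act Z₁ x + g M • x := by
      refine Prod.ext ?_ ?_
      · show Z (Pi.single M 1) = Z₁ (Pi.single M 1) + g M • Pi.single M 1
        rw [he, LinearMap.add_apply, LinearMap.add_apply, a3, dg_single, add_zero]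
      · refine LinearMap.ext fun v => ?_
        show -(Z v m) = -(Z₁ v m) + g M * v m
        have h4 := sym_diag hL hirr htr hdiag hm hg
        rw [he, LinearMap.add_apply, LinearMap.add_apply, Pi.add_apply, Pi.add_apply, a4, dg_apply, h4]
        ring
    rw [e1]
    exact U.add_mem (hlow Z₁ h1 a1 a2 x hxU) (U.smul_mem _ hxU)
  have hW : ∀ n, ∀ u ∈ W n, ∀ Z ∈ L, act Z u ∈ U := by
    intro n
    induction n with
    | zero =>
      rintro u rfl
      exact hbase
    | succ n ih =>
      rintro _ ⟨Y, hY, hY1, hY2, u, hu, rfl⟩ Z hZ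
      rw [act_comm]
      exact U.add_mem (hlow Y hY hY1 hY2 _ (ih u hu Z hZ)) (ih u hu _ (hL Z hZ Y hY))
  have hU : ∀ X ∈ L, ∀ u ∈ U, act X u ∈ U := by
    intro X hX u hu
    induction hu using Submodule.span_induction with
    | mem u hu =>
      obtain ⟨n, hn⟩ := Set.mem_iUnion.1 hu
      exact hW n u hn X hX
    | zero =>
      have : act X 0 = 0 := by
        have := act_smul X 0 0
        rwa [zero_smul, zero_smul] at this
      rw [this]
      exact U.zero_mem
    | add u u' _ _ h h' => rw [act_add]; exact U.add_mem h h'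
    | smul c u _ h => rw [act_smul]; exact U.smul_mem c h
  have hB : ∀ u ∈ U, u.2 (Pi.single m 1) = u.1 M := by
    intro u hu
    induction hu using Submodule.span_induction with
    | mem u hu =>
      obtain ⟨n, hn⟩ := Set.mem_iUnion.1 hu
      cases n with
      | zero =>
        have : u = x := hn
        rw [this]
        show (Pi.single m (1 : K) : κ → K) m = (Pi.single M (1 : K) : κ → K) M
        rw [Pi.single_eq_same, Pi.single_eq_same]
      | succ n =>
        obtain ⟨Y, hY, hY1, hY2, u', hu', rfl⟩ := hn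
        show -(u'.2 (Y (Pi.single m 1))) = Y u'.1 M
        rw [hY1, hY2, map_zero, neg_zero]
    | zero => simp
    | add u u' _ _ h h' =>
      rw [Prod.fst_add, Prod.snd_add, LinearMap.add_apply, Pi.add_apply, h, h']
    | smul c u _ h =>
      rw [Prod.smul_fst, Prod.smul_snd, LinearMap.smul_apply, Pi.smul_apply, h]
  refine form_of_graph hirr U hU (e := Pi.single m 1) ?_ (fun φ hφ => ?_) hxU ?_ ?_
  · intro h
    have := congrFun h m
    rw [Pi.single_eq_same] at this
    exact one_ne_zero this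
  · have := hB _ hφ
    exact this
  · intro h
    have h1 : (Pi.single M (1 : K) : κ → K) = 0 := h
    have := congrFun h1 M
    rw [Pi.single_eq_same] at this
    exact one_ne_zero this
  · intro h
    have h1 : (LinearMap.proj m : (κ → K) →ₗ[K] K) = 0 := h
    have := LinearMap.congr_fun h1 (Pi.single m 1)
    rw [LinearMap.proj_apply, Pi.single_eq_same] at this
    exact one_ne_zero this

/-- If the set of the weights is symmetric, there is a nonzero invariant bilinear form. -/
theorem TM.not_ns (h : TM L) (hsym : ∀ k, ∃ k', ∀ f ∈ Yo L, f k' = -f k) : ¬ NsL L := by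
  intro hns
  obtain ⟨b, hb0, hb⟩ := exists_inv_form h.cmp.lie h.cmp.irr h.cmp.tr h.diag h.sep hsym
  exact hb0 (hns b hb)

end Pool.Agent.H25U
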