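import Pool.Agent.Lib.H25Y.BLN
import Pool.Agent.Lib.H25U.Sym
import Pool.Agent.Lib.H25U.A1c

/-!
# BLN: blocks and ideals without an invariant form
-/

set_option autoImplicit false
set_option linter.unusedSectionVars false
namespace Pool.Agent.H25U
open Module Matrix Pool.Agent.H53Toric Pool.Agent.H76P
open Pool.Agent.H76T (IsIdeal Fam)
open Pool.Agent.H76Q (IsBlock Comp InP cz ptS dualMap_mul dualMap_zero spl_eq_sum dualMap_inj)
open Pool.Agent.H76Y (NsL)

variable {κ : Type*} {K : Type*} [Field K] [CharZero K] [Fintype κ] [DecidableEq κ]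
  {L : Submodule K (Module.End K (κ → K))} [IsAlgClosed K] [Nonempty κ]
  {Y : Submodule ℚ (κ → ℚ)} {P : Module.End ℚ Y}

theorem sum_pt (h : TM L) : ∑ k, pt L k = 0 := by
  ext f
  rw [LinearMap.sum_apply, LinearMap.zero_apply]
  exact Yo_sum h.cmp f.2

/-- Dimension eight: a simple ideal acts on one atom. -/
theorem eight_atomN (h : TM L) (hns : NsL L) {m : ℕ} {I : Fin m → Submodule K (Module.End K (κ → K))}
    (hF : Fam L I) {j : Fin m} {P : Module.End ℚ (Yo L)}
    (hP1 : ∀ f, dq (P f : κ → ℚ) ∈ I j)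
    (hP2 : ∀ f : Yo L, dq (f : κ → ℚ) ∈ I j → P f = f) (hPS : Spl (pt L) P.dualMap)
    (h8 : Fintype.card κ = 8)
    {q : Module.End ℚ (Module.Dual ℚ (Yo L))} (hq : Atom (pt L) q) (hqP : q * P.dualMap = q) :
    q = P.dualMap := by
  by_contra hne
  have hs : Spans (pt L) := pt_spans h.cmp
  have h1 := h.atom_two hF hP1 hP2 hPS hq hqP hne
  -- a second atom
  have hS2 : Spl (pt L) ((1 - q) * P.dualMap) := Spl.mul hs hq.1.compl hPS
  have h0 : (1 - q) * P.dualMap ≠ 0 := by
    intro h0
    apply hne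
    rw [sub_mul, one_mul, sub_eq_zero, hqP] at h0
    exact h0.symm
  obtain ⟨q', hq', hq'P⟩ := exists_atom hs hS2 h0
  have hq'1 : q' * P.dualMap = q' := by
    nth_rw 1 [← hq'P]
    rw [mul_assoc, mul_assoc, hPS.1, hq'P]
  have hq'q : q' * q = 0 := by
    have h2 : q' * (1 - q) = q' := by
      nth_rw 1 [← hq'P]
      have hc : (1 - q) * P.dualMap = P.dualMap * (1 - q) := Spl.comm hs hq.1.compl hPS
      rw [hc, ← mul_assoc, mul_assoc (q' * P.dualMap), hq.1.compl.1, mul_assoc, ← hc, hq'P]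
    rw [mul_sub, mul_one, sub_eq_self] at h2
    exact h2
  have hneq : q ≠ q' := by
    rintro rfl
    rw [hq.1.1] at hq'q
    exact hq.2.1 hq'q
  have hq'ne : q' ≠ P.dualMap := by
    rintro h3
    rw [h3] at hq'q
    have h4 : q = 0 := by rw [← hqP, Spl.comm hs hq.1 hPS, hq'q]
    exact hq.2.1 h4
  have h2 := h.atom_two hF hP1 hP2 hPS hq' hq'1 hq'ne
  have h3 := H25Y.all_two hs h.pt_inj h8 hq hq' hneq h1 h2
  refine h.not_ns (fun k => ?_) hns
  obtain ⟨k', hk'⟩ := H25Y.sym_of_two hs h.pt_inj (sum_pt h) h3 k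
  refine ⟨k', fun f hf => ?_⟩
  have := LinearMap.congr_fun hk' ⟨f, hf⟩
  exact this

/-- Each simple ideal acts on one side of a block. -/
theorem compN (hP : IsBlock P) (h : TM L) (hns : NsL L) (hY : Yo L = Y) : Comp L P := by
  classical
  subst hY
  have hs : Spans (pt L) := pt_spans h.cmp
  intro m I hF j
  obtain ⟨Pj, hP1, hP2, -, hPS⟩ := exists_proj h.cmp hF j
  -- the two possibilities
  have caseA : Pj.dualMap * P.dualMap = Pj.dualMap → InP P (I j) := by
    intro h1 f hf hfj k k' hk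
    have h2 : P * Pj = Pj := dualMap_inj (by rw [dualMap_mul]; exact h1)
    have h3 : P ⟨f, hf⟩ = ⟨f, hf⟩ := by
      have h4 := congrArg (fun T : Module.End ℚ (Yo L) => T ⟨f, hf⟩) h2
      simp only [Module.End.mul_apply] at h4
      rwa [hP2 ⟨f, hf⟩ hfj] at h4
    have h5 := hk ⟨f, hf⟩
    rwa [h3] at h5
  have caseB : Pj.dualMap * P.dualMap = 0 → InP (1 - P) (I j) := by
    intro h1 f hf hfj k k' hk
    have h2 : P * Pj = 0 := dualMap_inj (by rw [dualMap_mul, dualMap_zero]; exact h1)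
    have h3 : P ⟨f, hf⟩ = 0 := by
      have h4 := congrArg (fun T : Module.End ℚ (Yo L) => T ⟨f, hf⟩) h2
      simp only [Module.End.mul_apply] at h4
      rwa [hP2 ⟨f, hf⟩ hfj] at h4
    have h5 := hk ⟨f, hf⟩
    rwa [LinearMap.sub_apply, Module.End.one_apply, h3, sub_zero] at h5
  rcases hP with ⟨h8, hA⟩ | ⟨-, hA, hc⟩ | ⟨-, hS, -, hat⟩
  · rcases hA.le_or hs hPS with h1 | h1
    · left
      have h2 := eight_atomN h hns hF hP1 hP2 hPS h8 hA h1
      refine caseA ?_
      rw [h2]
      exact hPS.1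
    · right
      exact caseB (by rw [← Spl.comm hs hA.1 hPS]; exact h1)
  · rcases hA.le_or hs hPS with h1 | h1
    · left
      have h2 : P.dualMap = Pj.dualMap := by
        by_contra hne
        exact hc (h.atom_two hF hP1 hP2 hPS hA h1 hne)
      refine caseA ?_
      rw [h2]
      exact hPS.1
    · right
      exact caseB (by rw [← Spl.comm hs hA.1 hPS]; exact h1)
  · by_cases hj : Atom (pt L) Pj.dualMap
    · rcases hj.le_or hs hS with h1 | h1
      · exact Or.inl (caseA h1)
      · exact Or.inr (caseB h1)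
    · left
      refine caseA ?_
      obtain ⟨s, hsm, hsum⟩ := atoms_sum hs
      have h1 := spl_eq_sum hs hPS s hsm hsum (fun q => q * Pj.dualMap = q) fun q _ => Iff.rfl
      calc Pj.dualMap * P.dualMap = (∑ q ∈ s.filter (fun q => q * Pj.dualMap = q), q) * P.dualMap := by rw [← h1]
        _ = ∑ q ∈ s.filter (fun q => q * Pj.dualMap = q), q := by
            rw [Finset.sum_mul]
            refine Finset.sum_congr rfl fun q hq => ?_
            rw [Finset.mem_filter, hsm] at hq
            refine (hat q hq.1).2 (h.atom_two hF hP1 hP2 hPS hq.1 hq.2 ?_)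
            rintro rfl
            exact hj hq.1
        _ = Pj.dualMap := h1.symm

end Pool.Agent.H25U
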