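import Pool.Agent.Lib.H25U.B2
import Pool.Agent.Lib.H25U.V2
import Pool.Agent.Lib.H76Y.A1

/-!
# Bridge: with an invariant form the new notions are the old ones
-/

set_option autoImplicit false
set_option linter.unusedSectionVars false
namespace Pool.Agent.H25U
open Module Matrix Pool.Agent.H53Toric Pool.Agent.H49M
open Pool.Agent.H76P (dg dq dg_apply)

section gen
variable {K : Type*} [Field K] {V : Type*} [AddCommGroup V] [Module K V]

/-- An invariant form forces the scalar to be zero. -/
theorem form_shift [CharZero K] {L : Submodule K (Module.End K V)} (hirr : Irr L) {s : Module.End K V}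
    {c : K} (hc : s + c • 1 ∈ L) (hs2 : s * s = 1) (h1 : s ≠ 1) (h2 : s ≠ -1) {B : V →ₗ[K] V →ₗ[K] K}
    (hB : B ≠ 0) (hinv : ∀ X ∈ L, ∀ v w, B (X v) w + B v (X w) = 0) : c = 0 := by
  by_contra hc0
  have hker : ∀ v, B v = 0 → v = 0 := by
    intro v hv
    rcases hirr (LinearMap.ker B) (by
      intro X hX v hv
      rw [LinearMap.mem_ker] at hv ⊢
      ext w
      have h1 := hinv X hX v w
      rw [hv, LinearMap.zero_apply, add_zero] at h1
      exact h1) with h1 | h1
    · have h2 : v ∈ LinearMap.ker B := hv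
      rw [h1, Submodule.mem_bot] at h2
      exact h2
    · exact absurd (LinearMap.ker_eq_top.1 h1) hB
  have key : ∀ (a b : K) (v w : V), s v = a • v → s w = b • w → (a + b + 2 * c) * B v w = 0 := by
    intro a b v w hv hw
    have h1 := hinv _ hc v w
    rw [LinearMap.add_apply, LinearMap.add_apply, hv, hw, LinearMap.smul_apply, LinearMap.smul_apply,
      Module.End.one_apply, Module.End.one_apply, ← add_smul, ← add_smul, map_smul, map_smul,
      LinearMap.smul_apply, smul_eq_mul, smul_eq_mul] at h1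
    linear_combination h1
  have hdec : ∀ v : V, ∃ a b : V, s a = (1 : K) • a ∧ s b = (-1 : K) • b ∧ v = a + b := by
    intro v
    have hss : s (s v) = v := LinearMap.congr_fun hs2 v
    refine ⟨(1 / 2 : K) • (v + s v), (1 / 2 : K) • (v - s v), ?_, ?_, ?_⟩
    · rw [map_smul, map_add, hss, one_smul, add_comm]
    · rw [map_smul, map_sub, hss, smul_comm, neg_one_smul, neg_sub]
    · rw [← smul_add]
      have : v + s v + (v - s v) = (2 : K) • v := by rw [two_smul]; abel
      rw [this, smul_smul]
      norm_num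
  have hmix : ∀ v w : V, s v = (1 : K) • v → s w = (-1 : K) • w → B v w = 0 ∧ B w v = 0 := by
    intro v w hv hw
    constructor
    · have h1 := key 1 (-1) v w hv hw
      have h2 : (2 * c) * B v w = 0 := by linear_combination h1
      exact (mul_eq_zero.1 h2).resolve_left (mul_ne_zero two_ne_zero hc0)
    · have h1 := key (-1) 1 w v hw hv
      have h2 : (2 * c) * B w v = 0 := by linear_combination h1
      exact (mul_eq_zero.1 h2).resolve_left (mul_ne_zero two_ne_zero hc0)
  by_cases hc1 : c = -1
  · apply h1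
    ext v
    obtain ⟨a, b, ha, hb, rfl⟩ := hdec v
    have hb0 : b = 0 := by
      apply hker
      ext w
      obtain ⟨a', b', ha', hb', rfl⟩ := hdec w
      rw [map_add, (hmix a' b ha' hb).2, zero_add, LinearMap.zero_apply]
      have h1 := key (-1) (-1) b b' hb hb'
      have h2 : (-4 : K) * B b b' = 0 := by rw [hc1] at h1; linear_combination h1
      exact (mul_eq_zero.1 h2).resolve_left (by norm_num)
    rw [hb0, add_zero, ha, one_smul, Module.End.one_apply]
  · apply h2
    ext v
    obtain ⟨a, b, ha, hb, rfl⟩ := hdec v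
    have ha0 : a = 0 := by
      apply hker
      ext w
      obtain ⟨a', b', ha', hb', rfl⟩ := hdec w
      rw [map_add, (hmix a b' ha hb').1, add_zero, LinearMap.zero_apply]
      have h1 := key 1 1 a a' ha ha'
      have h2 : (1 + c) * B a a' = 0 := by linear_combination (1 / 2 : K) * h1
      refine (mul_eq_zero.1 h2).resolve_left fun h3 => hc1 ?_
      exact (neg_eq_of_add_eq_zero_right h3).symm
    rw [ha0, zero_add, hb, neg_one_smul, LinearMap.neg_apply, Module.End.one_apply]

end gen

variable {κ : Type*} [Fintype κ] [DecidableEq κ] {K : Type*} [Field K] [CharZero K] [Nonempty κ]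
  {L : Submodule K (Module.End K (κ → K))}

/-- The shift of an element of degree two, different from zero, is zero. -/
theorem CmpN.shift_zero (h : CmpN L) {B : (κ → K) →ₗ[K] (κ → K) →ₗ[K] K}
    (hB : B ≠ 0) (hinv : ∀ X ∈ L, ∀ v w, B (X v) w + B v (X w) = 0) {y : Module.End K (κ → K)}
    (hy : y ∈ L) (hy0 : y ≠ 0) {c : K} (hc : (y + c • 1) * (y + c • 1) = 1) : c = 0 := by
  obtain ⟨h1, h2⟩ := shift_ne (c := c) (h.tr y hy) hy0
  have e : y + c • (1 : Module.End K (κ → K)) + (-c) • (1 : Module.End K (κ → K)) = y := by module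
  have h3 := form_shift (c := -c) h.irr (s := y + c • 1) (by rw [e]; exact hy) hc h1 h2 hB hinv
  exact neg_eq_zero.1 h3

/-- If no element of degree two is shifted, the new `CmpN` is the old one. -/
theorem CmpN.old_of (h : CmpN L)
    (h0 : ∀ y ∈ L, y ≠ 0 → ∀ c : K, (y + c • 1) * (y + c • 1) = 1 → c = 0) : H76Y.CmpN L where
  lie := h.lie
  irr := h.irr
  tr := h.tr
  gen := fun T hT => h.gen T fun y hy hy2 => by
    obtain ⟨c, hc⟩ := hy2
    by_cases hy0 : y = 0
    · rw [hy0, mul_zero, zero_mul]
    have h1 := h0 y hy hy0 c hc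
    rw [h1, zero_smul, add_zero] at hc
    exact hT y hy hc

theorem yo_old_of (h0 : ∀ y ∈ L, y ≠ 0 → ∀ c : K, (y + c • 1) * (y + c • 1) = 1 → c = 0) :
    Yo L = H76P.Yo L := by
  apply le_antisymm
  · unfold Yo
    rw [Submodule.span_le]
    rintro ε ⟨⟨c, hc⟩, hε⟩
    by_cases h00 : ε = 0
    · rw [h00]
      exact Submodule.zero_mem _
    refine Submodule.subset_span ⟨?_, hε⟩
    have hd0 : (dq ε : Module.End K (κ → K)) ≠ 0 := by
      intro h1
      apply h00
      apply dq_inj (K := K)
      rw [h1]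
      refine LinearMap.ext fun v => funext fun a => ?_
      simp [dq, dg_apply]
    have h1 := h0 _ hε hd0 _ (dq_sqU hc)
    have h2 : c = 0 := by
      have h3 : -c = 0 := by exact_mod_cast h1
      exact neg_eq_zero.1 h3
    intro a
    rcases hc a with h3 | h3
    · left
      rw [h3, h2, zero_add]
    · right
      rw [h3, h2, zero_sub]
  · unfold H76P.Yo
    rw [Submodule.span_le]
    rintro ε ⟨hc, hε⟩
    refine Submodule.subset_span ⟨⟨0, fun a => ?_⟩, hε⟩
    rcases hc a with h3 | h3
    · left
      rw [h3, zero_add]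
    · right
      rw [h3, zero_sub]

/-- If no element of degree two is shifted, the new `TM` is the old one. -/
theorem TM.old_of (h : TM L)
    (h0 : ∀ y ∈ L, y ≠ 0 → ∀ c : K, (y + c • 1) * (y + c • 1) = 1 → c = 0) : H76Y.TM L where
  cmp := h.cmp.old_of h0
  diag := fun f hf => by
    rw [← yo_old_of h0]
    exact h.diag f hf
  sep := fun a b hab => by
    rw [← yo_old_of h0]
    exact h.sep a b hab

/-- With an invariant form the new `CmpN` is the old one. -/
theorem CmpN.old (h : CmpN L) {B : (κ → K) →ₗ[K] (κ → K) →ₗ[K] K}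
    (hB : B ≠ 0) (hinv : ∀ X ∈ L, ∀ v w, B (X v) w + B v (X w) = 0) : H76Y.CmpN L :=
  h.old_of fun _ hy hy0 _ hc => h.shift_zero hB hinv hy hy0 hc

/-- With an invariant form the new `Yo` is the old one. -/
theorem CmpN.yo_old (h : CmpN L) {B : (κ → K) →ₗ[K] (κ → K) →ₗ[K] K}
    (hB : B ≠ 0) (hinv : ∀ X ∈ L, ∀ v w, B (X v) w + B v (X w) = 0) : Yo L = H76P.Yo L :=
  yo_old_of fun _ hy hy0 _ hc => h.shift_zero hB hinv hy hy0 hc

/-- With an invariant form the new `TM` is the old one. -/
theorem TM.old (h : TM L) {B : (κ → K) →ₗ[K] (κ → K) →ₗ[K] K}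
    (hB : B ≠ 0) (hinv : ∀ X ∈ L, ∀ v w, B (X v) w + B v (X w) = 0) : H76Y.TM L :=
  h.old_of fun _ hy hy0 _ hc => h.cmp.shift_zero hB hinv hy hy0 hc

/-- The old `CmpN` implies the new one. -/
theorem CmpN.of_old (h : H76Y.CmpN L) : CmpN L where
  lie := h.lie
  irr := h.irr
  tr := h.tr
  gen := fun T hT => h.gen T fun y hy hy2 => hT y hy ⟨0, by rw [zero_smul, add_zero]; exact hy2⟩

end Pool.Agent.H25U
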