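import Pool.Agent.Lib.H76Q.B2
import Pool.Agent.Lib.H76Q.Q2
import Pool.Agent.Lib.H25U.A1c

/-!
# diagonal elements in the algebras
-/

set_option autoImplicit false
set_option linter.unusedSectionVars false
namespace Pool.Agent.H25U
open Pool.Agent.H76P Pool.Agent.H76V Pool.Agent.H76Q
open Module Matrix Pool.Agent.H53Toric
open Pool.Agent.H76P
open Pool.Agent.H76T (IsIdeal Fam)

variable {κ : Type*} {K : Type*} [Field K] [CharZero K] [Fintype κ] [DecidableEq κ]
  {L : Submodule K (Module.End K (κ → K))} {J : Matrix κ κ K} [IsAlgClosed K] [Nonempty κ]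
  {Y : Submodule ℚ (κ → ℚ)} {P : Module.End ℚ Y}

theorem c3_fsum {ι : Type*} (s : Finset ι) {Q : Module.End ℚ Y} {g : ι → κ → ℚ}
    (hg : ∀ i ∈ s, FunP Q (g i)) : FunP Q (∑ i ∈ s, g i) := by
  intro k k' hk
  rw [Finset.sum_apply, Finset.sum_apply]
  exact Finset.sum_congr rfl fun i hi => hg i hi k k' hk

theorem c3_dsum {ι : Type*} (s : Finset ι) (g : ι → κ → ℚ) :
    (dq (∑ i ∈ s, g i) : Module.End K (κ → K)) = ∑ i ∈ s, dq (g i) := by
  classical
  induction s using Finset.induction_on with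
  | empty =>
    rw [Finset.sum_empty, Finset.sum_empty]
    refine LinearMap.ext fun v => funext fun a => ?_
    simp [dq, dg_apply]
  | insert a s ha ih => rw [Finset.sum_insert ha, Finset.sum_insert ha, dq_add, ih]

/-- PROOF. `exists_fam`; `exists_decomp` (H76P.T13): `f = ∑ g j`, `g j ∈ Yo L`, `dq (g j) ∈ I j`.  Let `g'` be the sum of the `g j` with `InP P (I j)`,
`g'' = f - g'`.  `g''` depends only on the first coordinate (`f` and `g'` do) and only on the second (`hc`), so `g'' = 0` (`FunP_both`, `Yo_sum`).  So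
`dq f = ∑ dq (g j)`, `j` with `InP P (I j)`, is in `AZ L P`. -/
theorem dq_AZ (h : TM L) (hY : Yo L = Y) (hP : Sp P) (hc : Comp L P) {f : κ → ℚ} (hf : f ∈ Y)
    (hfP : FunP P f) : dq f ∈ AZ L P := by
  classical
  obtain ⟨m, I, hF⟩ := H76T.exists_fam h.cmp.lie h.cmp.irr h.cmp.tr
  have hf' : f ∈ Yo L := by rw [hY]; exact hf
  obtain ⟨g, hg, hsum⟩ := exists_decomp h.cmp hF hf'
  set S : Finset (Fin m) := Finset.univ.filter fun j => InP P (I j) with hS
  have hSg : ∀ i ∈ S, FunP P (g i) := by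
    intro i hi
    have h1 : InP P (I i) := (Finset.mem_filter.1 hi).2
    exact h1 (g i) (hY ▸ (hg i).1) (hg i).2
  have hSg' : ∀ i ∈ Sᶜ, FunP (1 - P) (g i) := by
    intro i hi
    have h1 : ¬ InP P (I i) := by
      intro h2
      rw [Finset.mem_compl] at hi
      exact hi (Finset.mem_filter.2 ⟨Finset.mem_univ i, h2⟩)
    rcases hc m I hF i with h2 | h2
    · exact absurd h2 h1
    · exact h2 (g i) (hY ▸ (hg i).1) (hg i).2
  have hsplit : f = ∑ i ∈ S, g i + ∑ i ∈ Sᶜ, g i := by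
    rw [Finset.sum_add_sum_compl, hsum]
  have h1 : FunP P (∑ i ∈ Sᶜ, g i) := by
    have h2 : ∑ i ∈ Sᶜ, g i = f - ∑ i ∈ S, g i := by
      rw [hsplit]
      abel
    rw [h2]
    intro k k' hk
    rw [Pi.sub_apply, Pi.sub_apply, hfP k k' hk, c3_fsum S hSg k k' hk]
  have h2 : FunP (1 - P) (∑ i ∈ Sᶜ, g i) := c3_fsum _ hSg'
  have h3 : ∑ i ∈ Sᶜ, g i ∈ Yo L := Submodule.sum_mem _ fun i _ => (hg i).1
  have h4 := FunP_both hP (Yo_sum h.cmp h3) h1 h2
  rw [hsplit, h4, add_zero, c3_dsum]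
  refine (AZ L P).sum_mem fun i hi => ?_
  exact Algebra.subset_adjoin ⟨I i, hF.ideal i, (Finset.mem_filter.1 hi).2, (hg i).2⟩

/-- An element of degree two, different from zero, is in a minimal ideal which belongs to one of the two factors. -/
theorem inv_AZ_ne (h : TM L) (hc : Comp L P) {y : Module.End K (κ → K)} (hy : y ∈ L) (hy0 : y ≠ 0)
    {c : K} (hyy : (y + c • 1) * (y + c • 1) = 1) : ∃ I, IsIdeal L I ∧ y ∈ I ∧ (InP P I ∨ InP (1 - P) I) := by
  obtain ⟨m, I, hF⟩ := H76T.exists_fam h.cmp.lie h.cmp.irr h.cmp.tr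
  obtain ⟨j, hj⟩ := h.cmp.one hF hy hyy hy0
  exact ⟨I j, hF.ideal j, hj, hc m I hF j⟩

/-- An element of degree two is in an ideal which belongs to one of the two factors. -/
theorem inv_AZ (h : TM L) (hc : Comp L P) {y : Module.End K (κ → K)} (hy : y ∈ L)
    {c : K} (hyy : (y + c • 1) * (y + c • 1) = 1) : ∃ I, IsIdeal L I ∧ y ∈ I ∧ (InP P I ∨ InP (1 - P) I) := by
  by_cases hy0 : y = 0
  · refine ⟨⊥, ⟨bot_le, fun X _ Y hY => ?_⟩, by rw [hy0]; exact Submodule.zero_mem _, Or.inl ?_⟩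
    · rw [(Submodule.mem_bot K).1 hY, mul_zero, zero_mul, sub_zero]
      exact Submodule.zero_mem _
    · intro f _ hf2
      have h1 : f = 0 := dq_inj (K := K) (by rw [(Submodule.mem_bot K).1 hf2, t13_zero])
      rw [h1]
      intro k k' _
      rfl
  · exact inv_AZ_ne h hc hy hy0 hyy

end Pool.Agent.H25U
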