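import Pool.Agent.Lib.H76Q.B2
import Pool.Agent.Lib.H76Q.Q2
import Pool.Agent.Lib.H25U.A1c
import Pool.Agent.Lib.H25U.C1
import Pool.Agent.Lib.H25U.C2
import Pool.Agent.Lib.H25U.C3

/-!
# matrix entries
-/

set_option autoImplicit false
set_option linter.unusedSectionVars false
namespace Pool.Agent.H25U
open Pool.Agent.H76P Pool.Agent.H76V Pool.Agent.H76Q
open Module Matrix Pool.Agent.H53Toric
open Pool.Agent.H76P
open Pool.Agent.H76T (IsIdeal Fam)

variable {κ : Type*} {K : Type*} [Field K] [CharZero K] [Fintype κ] [DecidableEq κ]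
  {L : Submodule K (Module.End K (κ → K))} {J : Matrix κ κ K} [IsAlgClosed K] [Nonempty κ]
  {Y : Submodule ℚ (κ → ℚ)} {P : Module.End ℚ Y}

/-- PROOF. `dq f ∈ AZ L P` for `f ∈ Y` with `FunP P f` (`dq_AZ`); it commutes with `B` (`AZ_comm`); compare the entries `(c, k)` of
`dq f * B` and `B * dq f` (`H76P.t5_left`, `t5_right`): `f c = f k`.  For `f : Y` apply this to `P f`. -/
theorem entry_cz (h : TM L) (hY : Yo L = Y) (hP : Sp P) (hc : Comp L P)
    {B : Module.End K (κ → K)} (hB : B ∈ AZ L (1 - P)) {c k : κ}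
    (hck : LinearMap.toMatrix' B c k ≠ 0) : cz P c k := by
  intro f
  have h1 : (dq (P f : κ → ℚ) : Module.End K (κ → K)) ∈ AZ L P := by
    refine dq_AZ h hY hP hc (P f).2 ?_
    intro a b hab
    exact hab f
  have h2 := AZ_comm h hY hP _ h1 B hB
  have h3 := congrArg (fun X : Module.End K (κ → K) => LinearMap.toMatrix' X c k) h2
  change LinearMap.toMatrix' (dq (P f : κ → ℚ) * B) c k
    = LinearMap.toMatrix' (B * dq (P f : κ → ℚ)) c k at h3
  rw [H76P.t5_left, H76P.t5_right] at h3
  have h4 := mul_right_cancel₀ hck h3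
  exact_mod_cast h4

theorem c4_compl (hP : Sp P) : Sp (1 - P) where
  idem := by
    refine LinearMap.ext fun f => ?_
    have h2 : P (P f) = P f := LinearMap.congr_fun hP.idem f
    change (f - P f) - P (f - P f) = f - P f
    rw [map_sub, h2, sub_self, sub_zero]
  mix := by
    intro a b
    obtain ⟨c, hc⟩ := hP.mix b a
    refine ⟨c, fun f => ?_⟩
    have h1 : (((1 - P) f : Y) : κ → ℚ) = (f : κ → ℚ) - (P f : κ → ℚ) := rfl
    rw [hc f, h1, Pi.sub_apply, Pi.sub_apply]
    ring

theorem c4_top (h : TM L) (hY : Yo L = Y) (hP : Sp P) (hc : Comp L P)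
    (X : Module.End K (κ → K)) :
    X ∈ Subalgebra.toSubmodule (AZ L P) * Subalgebra.toSubmodule (AZ L (1 - P)) := by
  set M := Subalgebra.toSubmodule (AZ L P) * Subalgebra.toSubmodule (AZ L (1 - P)) with hM
  have h1 : (1 : Module.End K (κ → K)) ∈ M := by
    have := Submodule.mul_mem_mul (M := Subalgebra.toSubmodule (AZ L P))
      (N := Subalgebra.toSubmodule (AZ L (1 - P))) (AZ L P).one_mem (AZ L (1 - P)).one_mem
    rwa [mul_one] at this
  have h2 : ∀ x y, x ∈ M → y ∈ M → x * y ∈ M := by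
    intro x y hx hy
    refine Submodule.mul_induction_on hx (fun a ha b hb => ?_) (fun x x' h1 h2 => ?_)
    · refine Submodule.mul_induction_on hy (fun a' ha' b' hb' => ?_) (fun y y' h1 h2 => ?_)
      · have h3 := AZ_comm h hY hP a' ha' b hb
        have h4 : a * b * (a' * b') = a * a' * (b * b') := by
          rw [mul_assoc, ← mul_assoc b a' b', ← h3, mul_assoc a' b b', ← mul_assoc a a']
        rw [h4]
        exact Submodule.mul_mem_mul ((AZ L P).mul_mem ha ha') ((AZ L (1 - P)).mul_mem hb hb')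
      · rw [mul_add]
        exact M.add_mem h1 h2
    · rw [add_mul]
      exact M.add_mem h1 h2
  have h3 : AZ L P ⊔ AZ L (1 - P) ≤ M.toSubalgebra h1 h2 := by
    refine sup_le ?_ ?_
    · intro a ha
      have := Submodule.mul_mem_mul (M := Subalgebra.toSubmodule (AZ L P))
        (N := Subalgebra.toSubmodule (AZ L (1 - P))) ha (AZ L (1 - P)).one_mem
      rw [mul_one] at this
      exact this
    · intro b hb
      have := Submodule.mul_mem_mul (M := Subalgebra.toSubmodule (AZ L P))
        (N := Subalgebra.toSubmodule (AZ L (1 - P))) (AZ L P).one_mem hb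
      rw [one_mul] at this
      exact this
  rw [AZ_top h hc] at h3
  exact h3 (Algebra.mem_top (x := X))

theorem c4_compl2 : (1 - (1 - P) : Module.End ℚ Y) = P := sub_sub_cancel 1 P

/-- PROOF. `AZ L P ⊔ AZ L (1 - P) = ⊤` (`AZ_top`) and the algebras commute (`AZ_comm`), so each operator is a sum of products `A * B`.  So there are
`A ∈ AZ L P`, `B ∈ AZ L (1 - P)` with `(A * B) k' k ≠ 0`, so `A k' c ≠ 0`, `B c k ≠ 0` for some `c`.  `entry_cz` for `P`: `c ~ k` in the first
coordinate, so `c ~ k'`; `entry_cz` for `1 - P`: `k' ~ c` in the second coordinate.  So `c = k'` (`cz_both`, `TM.sep`). -/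
theorem exB (h : TM L) (hY : Yo L = Y) (hP : Sp P) (hc : Comp L P) {k k' : κ}
    (hk : cz P k k') : ∃ B ∈ AZ L (1 - P), LinearMap.toMatrix' B k' k ≠ 0 := by
  have h1 : ∃ A ∈ AZ L P, ∃ B ∈ AZ L (1 - P), LinearMap.toMatrix' (A * B) k' k ≠ 0 := by
    by_contra hcon
    push Not at hcon
    have h2 : ∀ X : Module.End K (κ → K), LinearMap.toMatrix' X k' k = 0 := by
      intro X
      refine Submodule.mul_induction_on (c4_top h hY hP hc X) (fun a ha b hb => ?_)
        (fun x y hx hy => ?_)
      · exact hcon a ha b hb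
      · rw [map_add, Matrix.add_apply, hx, hy, add_zero]
    have h3 := h2 (Matrix.toLin' (Matrix.single k' k (1 : K)))
    rw [LinearMap.toMatrix'_toLin', Matrix.single_apply_same] at h3
    exact one_ne_zero h3
  obtain ⟨A, hA, B, hB, hAB⟩ := h1
  have h4 : LinearMap.toMatrix' (A * B) = LinearMap.toMatrix' A * LinearMap.toMatrix' B :=
    LinearMap.toMatrix'_mul A B
  rw [h4, Matrix.mul_apply] at hAB
  obtain ⟨c, -, hcne⟩ := Finset.exists_ne_zero_of_sum_ne_zero hAB
  have hA0 : LinearMap.toMatrix' A k' c ≠ 0 := left_ne_zero_of_mul hcne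
  have hB0 : LinearMap.toMatrix' B c k ≠ 0 := right_ne_zero_of_mul hcne
  have h5 : cz P c k := entry_cz h hY hP hc hB hB0
  have h6 : cz (1 - P) k' c := by
    refine entry_cz h hY (c4_compl hP) hc.compl (B := A) ?_ hA0
    rw [c4_compl2]
    exact hA
  have h7 : c = k' := by
    refine cz_both ?_ (cz_trans h5 hk) (cz_symm h6)
    intro a b hab
    obtain ⟨f, hf, hne⟩ := h.sep a b hab
    exact ⟨f, hY ▸ hf, hne⟩
  exact ⟨B, hB, h7 ▸ hB0⟩

theorem c4_left (f : κ → K) (X : Module.End K (κ → K)) (c d : κ) :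
    LinearMap.toMatrix' (dg f * X) c d = f c * LinearMap.toMatrix' X c d := by
  rw [LinearMap.toMatrix'_apply, LinearMap.toMatrix'_apply]
  rfl

theorem c4_right (f : κ → K) (X : Module.End K (κ → K)) (c d : κ) :
    LinearMap.toMatrix' (X * dg f) c d = f d * LinearMap.toMatrix' X c d := by
  rw [LinearMap.toMatrix'_apply, LinearMap.toMatrix'_apply, Module.End.mul_apply]
  have h : (dg f : Module.End K (κ → K)) (Pi.single d 1) = f d • Pi.single d 1 := by
    ext a
    rw [dg_apply, Pi.smul_apply, smul_eq_mul]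
    by_cases h : a = d
    · subst h
      rfl
    · rw [Pi.single_eq_of_ne h, mul_zero, mul_zero]
  rw [h, map_smul, Pi.smul_apply, smul_eq_mul]

/-- PROOF. With `B` as in `exB` compare the entries `(k', k)` of `dg g * B = B * dg g`. -/
theorem diag_AZ (h : TM L) (hY : Yo L = Y) (hP : Sp P) (hc : Comp L P) {g : κ → K}
    (hg : dg g ∈ AZ L P) : FunP P g := by
  intro k k' hk
  obtain ⟨B, hB, hB0⟩ := exB h hY hP hc hk
  have h1 := AZ_comm h hY hP _ hg B hB
  have h2 := congrArg (fun X : Module.End K (κ → K) => LinearMap.toMatrix' X k' k) h1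
  change LinearMap.toMatrix' (dg g * B) k' k = LinearMap.toMatrix' (B * dg g) k' k at h2
  rw [c4_left, c4_right] at h2
  exact (mul_right_cancel₀ hB0 h2).symm

end Pool.Agent.H25U
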