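import Pool.Agent.Lib.H25U.C1
import Pool.Agent.Lib.H25U.C2
import Pool.Agent.Lib.H25U.C3
import Pool.Agent.Lib.H76Y.EN0
import Pool.Agent.Lib.H76Y.EN1
import Pool.Agent.Lib.H76Y.C5
import Pool.Agent.Lib.H76V.VA2

/-!
# C5: pure tensors with determinants
-/

set_option autoImplicit false
set_option linter.unusedSectionVars false
namespace Pool.Agent.H25U
open Pool.Agent.H76Y (PTN)
open Pool.Agent.H76P Pool.Agent.H76V Pool.Agent.H76Q
open Module Matrix Pool.Agent.H53Toric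
open Pool.Agent.H76T (IsIdeal Fam)

variable {κ : Type*} {K : Type*} [Field K] [CharZero K] [Fintype κ] [DecidableEq κ]
  {L : Submodule K (Module.End K (κ → K))} [IsAlgClosed K] [Nonempty κ]
  {Y : Submodule ℚ (κ → ℚ)} {P : Module.End ℚ Y}

theorem PTN_pu {X u r : Module.End K (κ → K)} {t : K} (h : PTN L P X u r t) : H76Y.EN.PU (AZ L P) (AZ L (1 - P)) X u r :=
  ⟨h.1, h.2.1, h.2.2.1, by rw [h.2.2.2.2.1]; exact h.2.2.2.1, h.2.2.2.2.2⟩

theorem ptn_of {X u r : Module.End K (κ → K)} (h : H76Y.EN.PU (AZ L P) (AZ L (1 - P)) X u r) :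
    PTN L P X u r (LinearMap.det u) :=
  ⟨h.1, h.2.1, h.2.2.1, h.2.2.2.1, rfl, h.2.2.2.2⟩

theorem PT_one (_h : TM L) : PTN L P 1 1 1 1 := by
  have h := ptn_of (L := L) (P := P) H76Y.EN.PU.one
  rwa [map_one] at h

/-- The scalars are the common elements of the two algebras. -/
theorem AZ_inter (h : TM L) (hY : Yo L = Y) (hP : Sp P) (hc : Comp L P) :
    ∀ X ∈ AZ L P, X ∈ AZ L (1 - P) → ∃ c : K, X = c • 1 := by
  intro X h1 h2
  exact AZ_scalar h hc (fun A hA => (AZ_comm h hY hP A hA X h2).symm) (fun A hA => AZ_comm h hY hP X h1 A hA)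

theorem PT_mul (h : TM L) (hY : Yo L = Y) (hP : Sp P) {X u r X' u' r' : Module.End K (κ → K)}
    {t t' : K} (h1 : PTN L P X u r t) (h2 : PTN L P X' u' r' t') :
    PTN L P (X * X') (u * u') (r * r') (t * t') := by
  have h3 := ptn_of (H76Y.EN.PU.mul (AZ_comm h hY hP) (PTN_pu h1) (PTN_pu h2))
  rwa [map_mul, h1.2.2.2.2.1, h2.2.2.2.2.1] at h3

theorem PT_pow (h : TM L) (hY : Yo L = Y) (hP : Sp P) {X u r : Module.End K (κ → K)}
    {t : K} (h1 : PTN L P X u r t) (m : ℕ) : PTN L P (X ^ m) (u ^ m) (r ^ m) (t ^ m) := by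
  have h3 := ptn_of (H76Y.EN.PU.pow (AZ_comm h hY hP) (PTN_pu h1) m)
  rwa [map_pow, h1.2.2.2.2.1] at h3

theorem PT_inv (h : TM L) (hY : Yo L = Y) (hP : Sp P) {X X' u r : Module.End K (κ → K)} {t : K}
    (h1 : PTN L P X u r t) (hX : X * X' = 1) :
    ∃ w r', u * w = 1 ∧ PTN L P X' w r' t⁻¹ := by
  obtain ⟨w, hw, huw, hwu⟩ := H76Y.EN.exists_inv h1.1 (PTN_pu h1).2.2.2.1
  obtain ⟨r', h2⟩ := H76Y.EN.PU.inv (AZ_comm h hY hP) (PTN_pu h1) hX hw huw
  refine ⟨w, r', huw, ?_⟩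
  have h3 := ptn_of h2
  have h4 : LinearMap.det w = t⁻¹ := by
    have h5 := congrArg LinearMap.det huw
    rw [map_mul, map_one, h1.2.2.2.2.1] at h5
    exact eq_inv_of_mul_eq_one_right h5
  rwa [h4] at h3

/-- `t ^ h`, `h = (1 + y + c) / 2`. -/
noncomputable def parE (y : Module.End K (κ → K)) (c t : K) : Module.End K (κ → K) :=
  1 + (t - 1) • ((1 / 2 : K) • (1 + (y + c • 1)))

theorem parE_eq (y : Module.End K (κ → K)) (c t : K) :
    parE y c t = ((1 + t) / 2) • 1 + ((t - 1) / 2) • (y + c • 1) := by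
  rw [parE, smul_smul, smul_add]
  module

/-- The inverse of `t ^ h`. -/
theorem par_inv {y : Module.End K (κ → K)} {c : K} (hyy : (y + c • 1) * (y + c • 1) = 1) {t : K} (ht : t ≠ 0) :
    parE y c t * parE y c t⁻¹ = 1 := by
  rw [parE_eq, parE_eq]
  generalize y + c • (1 : Module.End K (κ → K)) = z at hyy ⊢
  simp only [add_mul, mul_add, smul_mul_assoc, mul_smul_comm, one_mul, mul_one, hyy, smul_smul]
  have e1 : (1 + t) / 2 * ((1 + t⁻¹) / 2) + (t - 1) / 2 * ((t⁻¹ - 1) / 2) = 1 := by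
    field_simp
    ring
  have e2 : (1 + t) / 2 * ((t⁻¹ - 1) / 2) + (t - 1) / 2 * ((1 + t⁻¹) / 2) = 0 := by
    field_simp
    ring
  calc _ = ((1 + t) / 2 * ((1 + t⁻¹) / 2) + (t - 1) / 2 * ((t⁻¹ - 1) / 2)) • (1 : Module.End K (κ → K)) +
        ((1 + t) / 2 * ((t⁻¹ - 1) / 2) + (t - 1) / 2 * ((1 + t⁻¹) / 2)) • z := by module
    _ = 1 := by rw [e1, e2, one_smul, zero_smul, add_zero]

theorem det_par {y : Module.End K (κ → K)} {c : K} (hyy : (y + c • 1) * (y + c • 1) = 1) (t : K) :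
    LinearMap.det (parE y c t) = t ^ finrank K (LinearMap.range ((1 / 2 : K) • (1 + (y + c • 1)))) := by
  rw [parE]
  obtain ⟨E, hE⟩ : ∃ E : Module.End K (κ → K), E = (1 / 2 : K) • (1 + (y + c • 1)) := ⟨_, rfl⟩
  rw [← hE]
  have h2 : E * E = E := by rw [hE]; exact half_idem hyy
  have h3 : LinearMap.toMatrix' E * LinearMap.toMatrix' E = LinearMap.toMatrix' E := by
    rw [← LinearMap.toMatrix'_mul, h2]
  have h4 := H76Y.EN.det_par h3 t
  have h5 : LinearMap.toMatrix' (1 + (t - 1) • E) = 1 + (t - 1) • LinearMap.toMatrix' E := by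
    rw [map_add, map_smul, LinearMap.toMatrix'_one]
  have h7 : (LinearMap.toMatrix' E).rank = finrank K (LinearMap.range E) := by
    rw [Matrix.rank, ← Matrix.toLin'_apply', Matrix.toLin'_toMatrix']
  rw [← LinearMap.det_toMatrix', h5, h4, h7]

/-- `t ^ h` is a pure tensor, with the determinant `t ^ rank h` on the factor where it acts. -/
theorem PT_parE (h : TM L) (hc : Comp L P) {y : Module.End K (κ → K)} (hy : y ∈ L) {c : K}
    (hyy : (y + c • 1) * (y + c • 1) = 1) {t : K} (ht : t ≠ 0) :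
    PTN L P (parE y c t) (parE y c t) 1
      (t ^ finrank K (LinearMap.range ((1 / 2 : K) • (1 + (y + c • 1))))) ∨
    PTN L P (parE y c t) 1 (parE y c t) 1 := by
  have hdet : LinearMap.det (parE y c t) ≠ 0 := by
    rw [det_par hyy]
    exact pow_ne_zero _ ht
  have hone : LinearMap.det (1 : Module.End K (κ → K)) ≠ 0 := by
    rw [map_one]
    exact one_ne_zero
  obtain ⟨I, hI, hyI, hIP⟩ := inv_AZ h hc hy hyy
  rcases hIP with h1 | h1
  · left
    have hmem : parE y c t ∈ AZ L P := by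
      rw [parE_eq]
      exact add_mem ((AZ L P).smul_mem (one_mem _) _) ((AZ L P).smul_mem
        (add_mem (Algebra.subset_adjoin ⟨I, hI, h1, hyI⟩) ((AZ L P).smul_mem (one_mem _) _)) _)
    have h2 := ptn_of (L := L) (P := P) (X := parE y c t) (u := parE y c t) (r := 1)
      ⟨hmem, one_mem _, (mul_one _).symm, hdet, hone⟩
    rwa [det_par hyy] at h2
  · right
    refine ⟨one_mem _, ?_, (one_mul _).symm, one_ne_zero, map_one _, hdet⟩
    rw [parE_eq]
    exact add_mem ((AZ L (1 - P)).smul_mem (one_mem _) _) ((AZ L (1 - P)).smul_mem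
      (add_mem (Algebra.subset_adjoin ⟨I, hI, h1, hyI⟩) ((AZ L (1 - P)).smul_mem (one_mem _) _)) _)

/-- `t ^ h` is a pure tensor. -/
theorem PT_par (h : TM L) (hc : Comp L P) {y : Module.End K (κ → K)} (hy : y ∈ L) {c : K}
    (hyy : (y + c • 1) * (y + c • 1) = 1) {t : K} (ht : t ≠ 0) :
    (∃ s : ℕ, PTN L P (((1 + t) / 2) • 1 + ((t - 1) / 2) • (y + c • 1))
      (((1 + t) / 2) • 1 + ((t - 1) / 2) • (y + c • 1)) 1 (t ^ s)) ∨
    PTN L P (((1 + t) / 2) • 1 + ((t - 1) / 2) • (y + c • 1)) 1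
      (((1 + t) / 2) • 1 + ((t - 1) / 2) • (y + c • 1)) 1 := by
  rw [← parE_eq]
  rcases PT_parE h hc hy hyy ht with h1 | h1
  · exact Or.inl ⟨_, h1⟩
  · exact Or.inr h1

theorem PT_unique (h : TM L) (hY : Yo L = Y) (hP : Sp P) (hc : Comp L P)
    {X u r u' r' : Module.End K (κ → K)} {t t' : K} (h1 : PTN L P X u r t)
    (h2 : PTN L P X u' r' t') : ∃ c : K, c ≠ 0 ∧ u' = c • u ∧ t' = c ^ Fintype.card κ * t := by
  obtain ⟨c, hc0, hcu⟩ := H76Y.EN.PU.unique (AZ_comm h hY hP) (AZ_inter h hY hP hc) (PTN_pu h1) (PTN_pu h2)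
  refine ⟨c, hc0, hcu, ?_⟩
  rw [← h2.2.2.2.2.1, ← h1.2.2.2.2.1, hcu, LinearMap.det_smul, Module.finrank_fintype_fun_eq_card]

end Pool.Agent.H25U
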