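import Pool.Agent.Lib.H25U.B2
import Pool.Agent.Lib.H25U.E1

/-!
# CoreU: simple irreducible Lie algebras containing an unbalanced involution modulo scalars
-/

set_option autoImplicit false
set_option linter.unusedSectionVars false
namespace Pool.Agent.H25U
open Module Pool.Agent.H53Toric Pool.Agent.H49M
open Pool.Agent.H86N (CoreN)

variable {K : Type*} [Field K] {V : Type*} [AddCommGroup V] [Module K V]

variable {L : Submodule K (Module.End K V)}

/-- **The component theorem without a balance condition.** Let `L` be an irreducible simple Lie algebra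
of operators of trace zero, and `s` an operator with `s² = 1`, `s + c ∈ L` for a scalar `c`, whose two
eigenspaces are nonzero and have different dimensions `a = dim V(s = 1)`, `b = dim V(s = -1)`. Then
`L = sl(V)`, or there are `2 ≤ k ≤ n` with `a = C(n + 1, k)`, `b = C(n + 1, k - 1)`,
`dim V = C(n + 2, k)`. -/
theorem coreU [CharZero K] [IsAlgClosed K] [FiniteDimensional K V] [Nontrivial V]
    (h : CoreN L) {s : Module.End K V} (hs : InL L s) (hs2 : s * s = 1)
    (hne : finrank K (eig s 1) ≠ finrank K (eig s (-1))) :
    (∀ X : Module.End K V, LinearMap.trace K V X = 0 → X ∈ L) ∨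
    ∃ n k : ℕ, 2 ≤ k ∧ k ≤ n ∧ finrank K (eig s 1) = (n + 1).choose k ∧
      finrank K (eig s (-1)) = (n + 1).choose (k - 1) ∧ finrank K V = (n + 2).choose k := by
  obtain ⟨e, f, F⟩ := frame_at h hs hs2
  rcases coreU_frame h F hne with h1 | ⟨n, k, h1, h2, h3, h4, h5, -⟩
  · left
    intro X hX
    refine full_sl h F h1 (fun B hinv => ?_) hX
    by_contra hB
    exact hne (bal_of_form h hs hs2 hB hinv)
  · exact Or.inr ⟨n, k, h1, h2, h3, h4, h5⟩

end Pool.Agent.H25U
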