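import Pool.Agent.Lib.H25U.CoreU
import Pool.Agent.Lib.H86N.CoreNS

/-!
# CoreV: the exceptional case of `coreU` is rigid
-/

set_option autoImplicit false
set_option linter.unusedSectionVars false
namespace Pool.Agent.H25U
open Module Pool.Agent.H53Toric Pool.Agent.H49M
open Pool.Agent.H86N (CoreN)

variable {K : Type*} [Field K] {V : Type*} [AddCommGroup V] [Module K V]

variable {L : Submodule K (Module.End K V)}

/-- The conjugates of `e` under the elements `1 + Y`, `Y ∈ L` of square zero. -/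
inductive Cj (L : Submodule K (Module.End K V)) (e : Module.End K V) : Module.End K V → Prop
  | base : Cj L e e
  | step {X Y : Module.End K V} (hX : Cj L e X) (hY : Y ∈ L) (hYY : Y * Y = 0) : Cj L e ((1 + Y) * X * (1 - Y))

/-- Conjugation with `1 + Y` preserves `L`. -/
theorem cj_conj [CharZero K] (hl : IsLie L) {X Y : Module.End K V} (hX : X ∈ L) (hY : Y ∈ L)
    (hYY : Y * Y = 0) : (1 + Y) * X * (1 - Y) ∈ L := by
  have h1 := hl _ hY _ hX
  have h2 := hl _ hY _ h1
  have e : (1 + Y) * X * (1 - Y) = X + (Y * X - X * Y) + (1 / 2 : K) • (Y * (Y * X - X * Y) - (Y * X - X * Y) * Y) := by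
    have e1 : Y * (Y * X - X * Y) - (Y * X - X * Y) * Y = (-2 : K) • (Y * X * Y) := by
      have : Y * (Y * X - X * Y) - (Y * X - X * Y) * Y = Y * Y * X - Y * X * Y - Y * X * Y + X * (Y * Y) := by
        noncomm_ring
      rw [this, hYY, zero_mul, mul_zero]
      module
    rw [e1, smul_smul]
    have e2 : (1 + Y) * X * (1 - Y) = X + (Y * X - X * Y) - Y * X * Y := by noncomm_ring
    rw [e2]
    norm_num
    abel
  rw [e]
  exact L.add_mem (L.add_mem hX h1) (L.smul_mem _ h2)

theorem cj_mem [CharZero K] (hl : IsLie L) {e X : Module.End K V} (he : e ∈ L) (h : Cj L e X) : X ∈ L := by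
  induction h with
  | base => exact he
  | step _ hY hYY ih => exact cj_conj hl ih hY hYY

theorem cj_ext [CharZero K] (hl : IsLie L) {e X : Module.End K V}
    (he : ∀ Z ∈ L, ∃ c : K, e * Z * e = c • e) (h : Cj L e X) : ∀ Z ∈ L, ∃ c : K, X * Z * X = c • X := by
  induction h with
  | base => exact he
  | @step X Y _ hY hYY ih =>
    intro Z hZ
    have h1 : (1 + -Y) * Z * (1 - -Y) ∈ L := cj_conj hl hZ (L.neg_mem hY) (by rw [neg_mul_neg, hYY])
    rw [sub_neg_eq_add, ← sub_eq_add_neg] at h1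
    obtain ⟨c, hc⟩ := ih _ h1
    refine ⟨c, ?_⟩
    calc (1 + Y) * X * (1 - Y) * Z * ((1 + Y) * X * (1 - Y))
        = (1 + Y) * (X * ((1 - Y) * Z * (1 + Y)) * X) * (1 - Y) := by noncomm_ring
      _ = c • ((1 + Y) * X * (1 - Y)) := by rw [hc, mul_smul_comm, smul_mul_assoc]

theorem cj_rank [CharZero K] [FiniteDimensional K V] {e X : Module.End K V} (h : Cj L e X) :
    finrank K (LinearMap.range X) = finrank K (LinearMap.range e) := by
  induction h with
  | base => rfl
  | @step X Y _ hY hYY ih =>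
    rw [← ih]
    apply le_antisymm
    · calc finrank K (LinearMap.range ((1 + Y) * X * (1 - Y))) ≤ finrank K (LinearMap.range ((1 + Y) * X)) :=
            finrank_range_mul_le_left _ _
        _ ≤ _ := finrank_range_mul_le_right _ _
    · have h1 : X = (1 - Y) * ((1 + Y) * X * (1 - Y)) * (1 + Y) := by
        have a1 : (1 - Y) * (1 + Y) = 1 := by
          have : (1 - Y) * (1 + Y) = 1 - Y * Y := by noncomm_ring
          rw [this, hYY, sub_zero]
        calc X = ((1 - Y) * (1 + Y)) * X * ((1 - Y) * (1 + Y)) := by rw [a1, one_mul, mul_one]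
          _ = _ := by noncomm_ring
      calc finrank K (LinearMap.range X) = finrank K (LinearMap.range ((1 - Y) * ((1 + Y) * X * (1 - Y)) * (1 + Y))) := by
            rw [← h1]
        _ ≤ finrank K (LinearMap.range ((1 - Y) * ((1 + Y) * X * (1 - Y)))) := finrank_range_mul_le_left _ _
        _ ≤ _ := finrank_range_mul_le_right _ _

/-- The span of the conjugates of `e ≠ 0` is `L`. -/
theorem cj_span [CharZero K] [IsAlgClosed K] [FiniteDimensional K V] [Nontrivial V]
    (h : CoreN L) {s e f : Module.End K V} (F : Frame L s e f) :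
    Submodule.span K {X | Cj L e X} = L := by
  obtain ⟨W, hW⟩ : ∃ W, W = Submodule.span K {X | Cj L e X} := ⟨_, rfl⟩
  have hWL : W ≤ L := by
    rw [hW, Submodule.span_le]
    intro X hX
    exact cj_mem h.lie F.e_mem.1 hX
  -- square zero elements
  have hsq : ∀ Y ∈ L, Y * Y = 0 → ∀ X ∈ W, Y * X - X * Y ∈ W := by
    intro Y hY hYY X hX
    rw [hW] at hX
    refine Submodule.span_induction (p := fun X _ => Y * X - X * Y ∈ W) ?_ ?_ ?_ ?_ hX
    · intro X hX
      have h1 : (1 + Y) * X * (1 - Y) ∈ W := by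
        rw [hW]
        exact Submodule.subset_span (Cj.step hX hY hYY)
      have h2 : (1 + -Y) * X * (1 - -Y) ∈ W := by
        rw [hW]
        exact Submodule.subset_span (Cj.step hX (L.neg_mem hY) (by rw [neg_mul_neg, hYY]))
      have e1 : Y * X - X * Y = (1 / 2 : K) • ((1 + Y) * X * (1 - Y) - (1 + -Y) * X * (1 - -Y)) := by
        have : (1 + Y) * X * (1 - Y) - (1 + -Y) * X * (1 - -Y) = (2 : K) • (Y * X - X * Y) := by
          rw [two_smul]
          noncomm_ring
        rw [this, smul_smul]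
        norm_num
      rw [e1]
      exact W.smul_mem _ (W.sub_mem h1 h2)
    · rw [mul_zero, zero_mul, sub_zero]
      exact W.zero_mem
    · intro A B _ _ hA hB
      have e1 : Y * (A + B) - (A + B) * Y = (Y * A - A * Y) + (Y * B - B * Y) := by noncomm_ring
      rw [e1]
      exact W.add_mem hA hB
    · intro c A _ hA
      have e1 : Y * (c • A) - (c • A) * Y = c • (Y * A - A * Y) := by
        rw [mul_smul_comm, smul_mul_assoc, smul_sub]
      rw [e1]
      exact W.smul_mem c hA
  have hbr : ∀ Y Z : Module.End K V, (∀ X ∈ W, Y * X - X * Y ∈ W) → (∀ X ∈ W, Z * X - X * Z ∈ W) →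
      ∀ X ∈ W, (Y * Z - Z * Y) * X - X * (Y * Z - Z * Y) ∈ W := by
    intro Y Z h1 h2 X hX
    have e1 : (Y * Z - Z * Y) * X - X * (Y * Z - Z * Y) =
        (Y * (Z * X - X * Z) - (Z * X - X * Z) * Y) - (Z * (Y * X - X * Y) - (Y * X - X * Y) * Z) := by
      noncomm_ring
    rw [e1]
    exact W.sub_mem (h1 _ (h2 X hX)) (h2 _ (h1 X hX))
  have hadd : ∀ Y Z : Module.End K V, (∀ X ∈ W, Y * X - X * Y ∈ W) → (∀ X ∈ W, Z * X - X * Z ∈ W) →
      ∀ X ∈ W, (Y + Z) * X - X * (Y + Z) ∈ W := by
    intro Y Z h1 h2 X hX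
    have e1 : (Y + Z) * X - X * (Y + Z) = (Y * X - X * Y) + (Z * X - X * Z) := by noncomm_ring
    rw [e1]
    exact W.add_mem (h1 X hX) (h2 X hX)
  have hL : ∀ Y ∈ L, ∀ X ∈ W, Y * X - X * Y ∈ W := by
    intro Y hY
    obtain ⟨a, ha, b, hb, c, hc, rfl⟩ := A2_decomp h F.s_mem F.s_sq hY
    have h1 := hsq a ha.1 (A2_pp ha ha)
    have h3 := hsq c hc.1 (A2_mm hc hc)
    have h2 : ∀ X ∈ W, b * X - X * b ∈ W := by
      refine Submodule.span_induction (p := fun b _ => ∀ X ∈ W, b * X - X * b ∈ W) ?_ ?_ ?_ ?_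
        (A3_span h F.s_mem F.s_sq hb)
      · rintro _ ⟨X, hX, Y, hY, rfl⟩
        exact hbr X Y (hsq X hX.1 (A2_pp hX hX)) (hsq Y hY.1 (A2_mm hY hY))
      · intro X _
        rw [mul_zero, zero_mul, sub_zero]
        exact W.zero_mem
      · intro A B _ _ hA hB
        exact hadd A B hA hB
      · intro c A _ hA X hX
        have e1 : (c • A) * X - X * (c • A) = c • (A * X - X * A) := by
          rw [mul_smul_comm, smul_mul_assoc, smul_sub]
        rw [e1]
        exact W.smul_mem c (hA X hX)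
    exact hadd _ _ (hadd _ _ h1 h2) h3
  rw [← hW]
  rcases h.simple W hWL (fun X hX Y hY => hL X hX Y hY) with h1 | h1
  · exfalso
    have h2 : e ∈ W := by
      rw [hW]
      exact Submodule.subset_span Cj.base
    rw [h1, Submodule.mem_bot] at h2
    exact F.e_ne h2
  · exact h1

/-- **All extremal elements have the same rank.** -/
theorem ext_rank [CharZero K] [IsAlgClosed K] [FiniteDimensional K V] [Nontrivial V]
    (h : CoreN L) {s e f s' e' f' : Module.End K V} (F : Frame L s e f) (F' : Frame L s' e' f') :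
    finrank K (LinearMap.range e) = finrank K (LinearMap.range e') := by
  have h1 : ∃ X, Cj L e X ∧ e' * X * e' ≠ 0 := by
    by_contra hcon
    push Not at hcon
    have h2 : f' ∈ Submodule.span K {X | Cj L e X} := by
      rw [cj_span h F]
      exact F'.f_mem.1
    have h3 : e' * f' * e' = 0 := by
      refine Submodule.span_induction (p := fun X _ => e' * X * e' = 0) ?_ ?_ ?_ ?_ h2
      · intro X hX
        exact hcon X hX
      · rw [mul_zero, zero_mul]
      · intro A B _ _ hA hB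
        rw [mul_add, add_mul, hA, hB, add_zero]
      · intro c A _ hA
        rw [mul_smul_comm, smul_mul_assoc, hA, smul_zero]
    rw [F'.efe] at h3
    exact F'.e_ne h3
  obtain ⟨X, hX, hne⟩ := h1
  obtain ⟨c, hc⟩ := F'.ext X (cj_mem h.lie F.e_mem.1 hX)
  obtain ⟨c', hc'⟩ := cj_ext h.lie F.ext hX e' F'.e_mem.1
  have hc0 : c ≠ 0 := by
    rintro rfl
    rw [zero_smul] at hc
    exact hne hc
  have hc'0 : c' ≠ 0 := by
    rintro rfl
    rw [zero_smul] at hc'
    apply hne
    have h2 : e' * (X * e' * X) * e' = c • (c • e') := by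
      calc e' * (X * e' * X) * e' = (e' * X * e') * X * e' := by noncomm_ring
        _ = c • (c • e') := by rw [hc, smul_mul_assoc, smul_mul_assoc, hc]
    rw [hc', mul_zero, zero_mul] at h2
    have h3 : e' = 0 := by
      have h4 := smul_eq_zero.1 h2.symm
      have h5 := smul_eq_zero.1 (h4.resolve_left hc0)
      exact h5.resolve_left hc0
    rw [h3, zero_mul, zero_mul]
  rw [← cj_rank hX]
  apply le_antisymm
  · calc finrank K (LinearMap.range X) = finrank K (LinearMap.range (c' • X)) := by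
          rw [LinearMap.range_smul X c' hc'0]
      _ = finrank K (LinearMap.range (X * e' * X)) := by rw [hc']
      _ ≤ finrank K (LinearMap.range (X * e')) := finrank_range_mul_le_left _ _
      _ ≤ _ := finrank_range_mul_le_right _ _
  · calc finrank K (LinearMap.range e') = finrank K (LinearMap.range (c • e')) := by
          rw [LinearMap.range_smul e' c hc0]
      _ = finrank K (LinearMap.range (e' * X * e')) := by rw [hc]
      _ ≤ finrank K (LinearMap.range (e' * X)) := finrank_range_mul_le_left _ _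
      _ ≤ _ := finrank_range_mul_le_right _ _

/-! ### Binomial coefficients -/

theorem ch_step {N j : ℕ} (h : 2 * (j + 1) ≤ N) : N.choose j < N.choose (j + 1) := by
  have h1 := Nat.choose_succ_right_eq N j
  have h2 : 0 < N.choose j := Nat.choose_pos (by omega)
  have h3 : N.choose j * (j + 1) < N.choose (j + 1) * (j + 1) := by
    rw [h1]
    exact Nat.mul_lt_mul_of_pos_left (by omega) h2
  exact Nat.lt_of_mul_lt_mul_right h3

theorem ch_lt {N j k : ℕ} (hjk : j < k) (h : 2 * k ≤ N) : N.choose j < N.choose k := by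
  induction k with
  | zero => omega
  | succ k ih =>
    rcases Nat.lt_succ_iff_lt_or_eq.1 hjk with h1 | rfl
    · exact (ih h1 (by omega)).trans (ch_step h)
    · exact ch_step h

/-- A pair of binomial coefficients determines the pair of numbers. -/
theorem ch_aux {N k M j : ℕ} (hk : 2 ≤ k) (hkN : 2 * k ≤ N) (hj : 2 ≤ j) (hjM : 2 * j ≤ M)
    (h1 : N.choose k = M.choose j) (h2 : (N - 2).choose (k - 1) = (M - 2).choose (j - 1)) (hMN : M ≤ N) :
    N = M ∧ k = j := by
  have key : ∀ {N k : ℕ}, 2 ≤ k → 2 * k ≤ N →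
      N.choose k * (k * (N - k)) = N * (N - 1) * (N - 2).choose (k - 1) := by
    intro N k hk hkN
    obtain ⟨n, rfl⟩ : ∃ n, N = n + 2 := ⟨N - 2, by omega⟩
    obtain ⟨l, rfl⟩ : ∃ l, k = l + 1 := ⟨k - 1, by omega⟩
    have a1 := Nat.add_one_mul_choose_eq (n + 1) l
    have a2 := Nat.choose_mul_succ_eq n l
    have e1 : n + 2 - 1 = n + 1 := rfl
    have e2 : n + 2 - 2 = n := rfl
    have e3 : l + 1 - 1 = l := rfl
    have e4 : n + 2 - (l + 1) = n + 1 - l := by omega
    rw [e1, e2, e3, e4]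
    calc (n + 2).choose (l + 1) * ((l + 1) * (n + 1 - l)) = ((n + 1 + 1).choose (l + 1) * (l + 1)) * (n + 1 - l) := by
          ring
      _ = (n + 1 + 1) * ((n + 1).choose l * (n + 1 - l)) := by rw [← a1]; ring
      _ = (n + 2) * (n + 1) * n.choose l := by rw [← a2]; ring
  have a := key hk hkN
  have b := key hj hjM
  rcases Nat.lt_or_ge k j with hkj | hkj
  · exfalso
    -- the ratio is strictly smaller
    have hpos : 0 < N.choose k := Nat.choose_pos (by omega)
    rw [h1] at a
    rw [h1] at hpos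
    rw [h2] at a
    have hc : k * (N - k) * (M * (M - 1)) = j * (M - j) * (N * (N - 1)) := by
      have e1 : M.choose j * (k * (N - k) * (M * (M - 1))) = M.choose j * (j * (M - j) * (N * (N - 1))) := by
        calc M.choose j * (k * (N - k) * (M * (M - 1))) = (M.choose j * (k * (N - k))) * (M * (M - 1)) := by ring
          _ = (M * (M - 1) * (M - 2).choose (j - 1)) * (N * (N - 1)) := by rw [a]; ring
          _ = _ := by rw [← b]; ring
      exact Nat.eq_of_mul_eq_mul_left hpos e1
    obtain ⟨x, rfl⟩ : ∃ x, j = k + 1 + x := ⟨j - k - 1, by omega⟩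
    obtain ⟨y, rfl⟩ : ∃ y, M = 2 * (k + 1 + x) + y := ⟨M - 2 * (k + 1 + x), by omega⟩
    obtain ⟨z, rfl⟩ : ∃ z, N = 2 * (k + 1 + x) + y + z := ⟨N - (2 * (k + 1 + x) + y), by omega⟩
    obtain ⟨l, rfl⟩ : ∃ l, k = l + 2 := ⟨k - 2, by omega⟩
    have e1 : 2 * (l + 2 + 1 + x) + y + z - (l + 2) = l + 4 + 2 * x + y + z := by omega
    have e2 : 2 * (l + 2 + 1 + x) + y - 1 = 2 * l + 5 + 2 * x + y := by omega
    have e3 : 2 * (l + 2 + 1 + x) + y - (l + 2 + 1 + x) = l + 3 + x + y := by omega
    have e4 : 2 * (l + 2 + 1 + x) + y + z - 1 = 2 * l + 5 + 2 * x + y + z := by omega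
    rw [e1, e2, e3, e4] at hc
    have hlt : (l + 2) * (l + 4 + 2 * x + y + z) * ((2 * (l + 2 + 1 + x) + y) * (2 * l + 5 + 2 * x + y)) <
        (l + 2 + 1 + x) * (l + 3 + x + y) * ((2 * (l + 2 + 1 + x) + y + z) * (2 * l + 5 + 2 * x + y + z)) := by
      have e5 : (l + 2 + 1 + x) * (l + 3 + x + y) * ((2 * (l + 2 + 1 + x) + y + z) * (2 * l + 5 + 2 * x + y + z)) =
          (l + 2) * (l + 4 + 2 * x + y + z) * ((2 * (l + 2 + 1 + x) + y) * (2 * l + 5 + 2 * x + y)) +
          (4 * l ^ 2 * x ^ 2 + 4 * l ^ 2 * x * y + 4 * l ^ 2 * x * z + 8 * l ^ 2 * x +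
        2 * l ^ 2 * y * z + 4 * l ^ 2 * y + l ^ 2 * z ^ 2 + 5 * l ^ 2 * z + 4 * l ^ 2 +
        8 * l * x ^ 3 + 12 * l * x ^ 2 * y + 8 * l * x ^ 2 * z + 38 * l * x ^ 2 +
        4 * l * x * y ^ 2 + 8 * l * x * y * z + 38 * l * x * y + 2 * l * x * z ^ 2 +
        32 * l * x * z + 52 * l * x + l * y ^ 2 * z + 4 * l * y ^ 2 + l * y * z ^ 2 +
        16 * l * y * z + 26 * l * y + 6 * l * z ^ 2 + 28 * l * z + 22 * l + 4 * x ^ 4 +
        8 * x ^ 3 * y + 4 * x ^ 3 * z + 30 * x ^ 3 + 5 * x ^ 2 * y ^ 2 + 6 * x ^ 2 * y * z +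
        45 * x ^ 2 * y + x ^ 2 * z ^ 2 + 27 * x ^ 2 * z + 78 * x ^ 2 + x * y ^ 3 +
        2 * x * y ^ 2 * z + 17 * x * y ^ 2 + x * y * z ^ 2 + 27 * x * y * z + 78 * x * y +
        6 * x * z ^ 2 + 58 * x * z + 82 * x + y ^ 3 + 4 * y ^ 2 * z + 12 * y ^ 2 + 3 * y * z ^ 2 +
        29 * y * z + 41 * y + 9 * z ^ 2 + 39 * z + 30) := by
        ring
      rw [e5]
      exact Nat.lt_add_of_pos_right (by positivity)
    omega
  · have h3 : M.choose j ≤ N.choose j := Nat.choose_le_choose j hMN
    have h4 : N.choose j ≤ N.choose k := by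
      rcases Nat.lt_or_ge j k with h5 | h5
      · exact (ch_lt h5 hkN).le
      · rw [le_antisymm hkj h5]
    have h5 : k = j := by
      by_contra hne
      have h6 := ch_lt (show j < k by omega) hkN
      omega
    subst h5
    refine ⟨?_, rfl⟩
    by_contra hne
    have h6 : M.choose k < N.choose k := by
      have h7 : M.choose k < (M + 1).choose k := by
        obtain ⟨l, rfl⟩ : ∃ l, k = l + 1 := ⟨k - 1, by omega⟩
        rw [Nat.choose_succ_succ]
        have := Nat.choose_pos (show l ≤ M by omega)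
        simp only [Nat.succ_eq_add_one]
        omega
      exact h7.trans_le (Nat.choose_le_choose k (by omega))
    omega

/-- Reduction to the lower half. -/
theorem ch_half (n k : ℕ) (hk : 2 ≤ k) (hkn : k ≤ n) : ∃ l, 2 ≤ l ∧ 2 * l ≤ n + 2 ∧
    (n + 2).choose k = (n + 2).choose l ∧ n.choose (k - 1) = n.choose (l - 1) ∧ (l = k ∨ l = n + 2 - k) := by
  rcases Nat.lt_or_ge (n + 2) (2 * k) with h | h
  · refine ⟨n + 2 - k, by omega, by omega, ?_, ?_, Or.inr rfl⟩
    · rw [Nat.choose_symm (by omega)]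
    · rw [show n + 2 - k - 1 = n - (k - 1) by omega, Nat.choose_symm (by omega)]
  · exact ⟨k, hk, h, rfl, rfl, Or.inl rfl⟩

theorem ch_pair {n k m j : ℕ} (hk : 2 ≤ k) (hkn : k ≤ n) (hj : 2 ≤ j) (hjm : j ≤ m)
    (h1 : (n + 2).choose k = (m + 2).choose j) (h2 : n.choose (k - 1) = m.choose (j - 1)) :
    n = m ∧ (j = k ∨ j = n + 2 - k) := by
  obtain ⟨l, hl1, hl2, hl3, hl4, hl5⟩ := ch_half n k hk hkn
  obtain ⟨l', hl1', hl2', hl3', hl4', hl5'⟩ := ch_half m j hj hjm
  rw [hl3, hl3'] at h1
  rw [hl4, hl4'] at h2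
  have h3 : n = m ∧ l = l' := by
    rcases Nat.le_total m n with h | h
    · have := ch_aux hl1 hl2 hl1' hl2' h1 h2 (by omega)
      omega
    · have := ch_aux hl1' hl2' hl1 hl2 h1.symm h2.symm (by omega)
      omega
  omega

/-- A binomial coefficient is not a power of two, except for the trivial ones. -/
theorem ch_pow {n k m : ℕ} (hk : 2 ≤ k) (hkn : k ≤ n) : (n + 2).choose k ≠ 2 ^ m := by
  intro h
  obtain ⟨l, hl1, hl2, hl3, -, -⟩ := ch_half n k hk hkn
  rw [hl3] at h
  have h1 := Nat.pow_factorization_choose_le (p := 2) (n := n + 2) (k := l) (by omega)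
  rw [h, Nat.Prime.factorization_pow Nat.prime_two, Finsupp.single_eq_same, ← h] at h1
  have h2 : (n + 2).choose 2 ≤ (n + 2).choose l := by
    rcases Nat.lt_or_ge 2 l with h5 | h5
    · exact (ch_lt h5 hl2).le
    · rw [le_antisymm h5 hl1]
  rw [Nat.choose_two_right] at h2
  have h3 : n + 2 < (n + 2) * (n + 2 - 1) / 2 := by
    rw [Nat.lt_div_iff_mul_lt' (by
      have e1 : n + 2 - 1 = n + 1 := rfl
      rw [e1]
      rcases Nat.even_or_odd' n with ⟨a, ha | ha⟩
      · exact Dvd.dvd.mul_right ⟨a + 1, by omega⟩ _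
      · exact Dvd.dvd.mul_left ⟨a + 1, by omega⟩ _)]
    have e1 : n + 2 - 1 = n + 1 := rfl
    rw [e1]
    nlinarith
  omega

/-! ### The theorem -/

/-- **Rigidity of the exceptional case.** Let `L` be an irreducible simple Lie algebra of operators of
trace zero which contains modulo scalars an involution with eigenspaces of different dimensions, `L ≠ sl(V)`.
Then there are `2 ≤ k ≤ n` with `dim V = C(n + 2, k)` such that for EVERY involution of `L` modulo scalars
(not `1`, `-1`) the dimensions of the eigenspaces are `C(n + 1, k)` and `C(n + 1, k - 1)`. -/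
theorem coreV [CharZero K] [IsAlgClosed K] [FiniteDimensional K V] [Nontrivial V]
    (h : CoreN L) {s : Module.End K V} (hs : InL L s) (hs2 : s * s = 1)
    (hne : finrank K (eig s 1) ≠ finrank K (eig s (-1))) :
    (∀ X : Module.End K V, LinearMap.trace K V X = 0 → X ∈ L) ∨
    ∃ n k : ℕ, 2 ≤ k ∧ k ≤ n ∧ finrank K V = (n + 2).choose k ∧
      ∀ s' : Module.End K V, InL L s' → s' * s' = 1 →
        (finrank K (eig s' 1) = (n + 1).choose k ∧ finrank K (eig s' (-1)) = (n + 1).choose (k - 1)) ∨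
        (finrank K (eig s' 1) = (n + 1).choose (k - 1) ∧ finrank K (eig s' (-1)) = (n + 1).choose k) := by
  have hNS : ∀ B : V →ₗ[K] V →ₗ[K] K, (∀ X ∈ L, ∀ v w, B (X v) w + B v (X w) = 0) → B = 0 := by
    intro B hinv
    by_contra hB
    exact hne (bal_of_form h hs hs2 hB hinv)
  obtain ⟨e, f, F⟩ := frame_at h hs hs2
  rcases coreU_frame h F hne with h1 | ⟨n, k, hk2, hkn, -, -, h3, h4⟩
  · left
    intro X hX
    exact full_sl h F h1 (fun B hinv => hNS B hinv) hX
  by_cases hfull : ∀ X : Module.End K V, LinearMap.trace K V X = 0 → X ∈ L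
  · exact Or.inl hfull
  right
  refine ⟨n, k, hk2, hkn, h3, fun s' hs' hs2' => ?_⟩
  obtain ⟨e', f', F'⟩ := frame_at h hs' hs2'
  have hr := ext_rank h F F'
  by_cases hbal : finrank K (eig s' 1) = finrank K (eig s' (-1))
  · -- balanced: not possible
    exfalso
    have h5 := eig_diff (K := K) hs2'
    rw [hbal, sub_self] at h5
    obtain ⟨c, hc⟩ := hs'.mem
    have h6 := h.tr _ hc
    rw [map_add, ← h5, zero_add, map_smul, LinearMap.trace_one, smul_eq_mul] at h6
    have h7 : c = 0 := by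
      rcases mul_eq_zero.1 h6 with h8 | h8
      · exact h8
      · exact absurd h8 (by exact_mod_cast (finrank_pos (R := K) (M := V)).ne')
    rw [h7, zero_smul, add_zero] at hc
    have G : H49M.Frame L s' e' f' := ⟨hc, F'.s_sq, F'.e_mem, F'.f_mem, F'.e_ne, F'.efe, F'.fef, F'.ext⟩
    rcases H86N.coreNS_frame h hNS G with h8 | ⟨⟨m, -, -, h8⟩, -⟩
    · exact hfull fun X hX => full_sl h F' h8 (fun B hinv => hNS B hinv) hX
    · exact ch_pow hk2 hkn (h3.symm.trans h8)
  · rcases coreU_frame h F' hbal with h8 | ⟨m, j, hj2, hjm, a1, a2, a3, a4⟩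
    · exact absurd (fun X hX => full_sl h F' h8 (fun B hinv => hNS B hinv) hX) hfull
    · rw [h3] at a3
      rw [← hr, h4] at a4
      obtain ⟨rfl, h9 | h9⟩ := ch_pair hk2 hkn hj2 hjm a3 a4
      · subst h9
        exact Or.inl ⟨a1, a2⟩
      · right
        rw [a1, a2, h9]
        constructor
        · rw [show n + 2 - k = n + 1 - (k - 1) by omega, Nat.choose_symm (by omega)]
        · rw [show n + 2 - k - 1 = n + 1 - k by omega, Nat.choose_symm (by omega)]

end Pool.Agent.H25U
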