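import Pool.Agent.Lib.H86N.DefsF

/-!
# H25U: simple Lie algebras containing an idempotent modulo scalars (no condition on the rank)
-/

set_option autoImplicit false
set_option linter.unusedSectionVars false
namespace Pool.Agent.H25U
open Module Pool.Agent.H53Toric Pool.Agent.H49M
open Pool.Agent.H86N (CoreN)

variable {K : Type*} [Field K] {V : Type*} [AddCommGroup V] [Module K V]

/-- Membership modulo scalars. -/
def InW (L : Submodule K (Module.End K V)) (s : Module.End K V) : Prop := ∃ c : K, s + c • 1 ∈ L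

theorem InW.of_mem {L : Submodule K (Module.End K V)} {s : Module.End K V} (h : s ∈ L) : InW L s :=
  ⟨0, by rw [zero_smul, add_zero]; exact h⟩

theorem InW.neg {L : Submodule K (Module.End K V)} {s : Module.End K V} (h : InW L s) : InW L (-s) := by
  obtain ⟨c, hc⟩ := h
  refine ⟨-c, ?_⟩
  have := L.neg_mem hc
  rwa [neg_add, ← neg_smul] at this

theorem InW.add {L : Submodule K (Module.End K V)} {s t : Module.End K V} (h : InW L s) (h' : InW L t) :
    InW L (s + t) := by
  obtain ⟨c, hc⟩ := h
  obtain ⟨d, hd⟩ := h'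
  refine ⟨c + d, ?_⟩
  have := L.add_mem hc hd
  have e : s + t + (c + d) • (1 : Module.End K V) = s + c • 1 + (t + d • 1) := by
    rw [add_smul]; abel
  rw [e]
  exact this

theorem InW.sub {L : Submodule K (Module.End K V)} {s t : Module.End K V} (h : InW L s) (h' : InW L t) :
    InW L (s - t) := by
  rw [sub_eq_add_neg]
  exact h.add h'.neg

theorem InW.smul {L : Submodule K (Module.End K V)} {s : Module.End K V} (c : K) (h : InW L s) :
    InW L (c • s) := by
  obtain ⟨d, hd⟩ := h
  refine ⟨c * d, ?_⟩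
  have := L.smul_mem c hd
  rwa [smul_add, smul_smul] at this

theorem InW.br {L : Submodule K (Module.End K V)} (hl : IsLie L) {s X : Module.End K V} (h : InW L s)
    (hX : X ∈ L) : s * X - X * s ∈ L := by
  obtain ⟨c, hc⟩ := h
  have h1 := hl _ hc _ hX
  have e : (s + c • 1) * X - X * (s + c • 1) = s * X - X * s := by
    rw [add_mul, mul_add, smul_mul_assoc, mul_smul_comm, one_mul, mul_one]
    abel
  rwa [e] at h1

theorem InW.plus [CharZero K] {L : Submodule K (Module.End K V)} (hl : IsLie L) {s X : Module.End K V}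
    (h : InW L s) (hs2 : s * s = 1) (hX : X ∈ L) : (1 + s) * X * (1 - s) ∈ L := by
  have h1 := h.br hl hX
  have h2 := h.br hl h1
  have e : (1 + s) * X * (1 - s) = (s * X - X * s) + (1 / 2 : K) • (s * (s * X - X * s) - (s * X - X * s) * s) := by
    have e1 : s * (s * X - X * s) - (s * X - X * s) * s = (2 : K) • (X - s * X * s) := by
      have : s * (s * X - X * s) - (s * X - X * s) * s = s * s * X - s * X * s - s * X * s + X * (s * s) := by
        noncomm_ring
      rw [this, hs2, one_mul, mul_one, two_smul]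
      abel
    rw [e1, smul_smul]
    norm_num
    noncomm_ring
  rw [e]
  exact L.add_mem h1 (L.smul_mem _ h2)

theorem InW.minus [CharZero K] {L : Submodule K (Module.End K V)} (hl : IsLie L) {s X : Module.End K V}
    (h : InW L s) (hs2 : s * s = 1) (hX : X ∈ L) : (1 - s) * X * (1 + s) ∈ L := by
  have := InW.plus hl h.neg (by rw [neg_mul_neg, hs2]) hX
  rwa [sub_neg_eq_add, ← sub_eq_add_neg] at this

/-- Membership modulo scalars, not `1` or `-1`. -/
structure InL (L : Submodule K (Module.End K V)) (s : Module.End K V) : Prop where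
  mem : InW L s
  ne1 : s ≠ 1
  ne2 : s ≠ -1

theorem InL.neg {L : Submodule K (Module.End K V)} {s : Module.End K V} (h : InL L s) : InL L (-s) :=
  ⟨h.mem.neg, fun h1 => h.ne2 (neg_eq_iff_eq_neg.1 h1), fun h1 => h.ne1 (neg_inj.1 h1)⟩

theorem InL.plus [CharZero K] {L : Submodule K (Module.End K V)} (hl : IsLie L) {s X : Module.End K V}
    (h : InL L s) (hs2 : s * s = 1) (hX : X ∈ L) : (1 + s) * X * (1 - s) ∈ L := InW.plus hl h.mem hs2 hX

theorem InL.minus [CharZero K] {L : Submodule K (Module.End K V)} (hl : IsLie L) {s X : Module.End K V}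
    (h : InL L s) (hs2 : s * s = 1) (hX : X ∈ L) : (1 - s) * X * (1 + s) ∈ L := InW.minus hl h.mem hs2 hX

/-- A frame: an involution `s` of `L` modulo scalars and an extremal pair `e`, `f` of weights `1` and `-1`. -/
structure Frame (L : Submodule K (Module.End K V)) (s e f : Module.End K V) : Prop where
  s_mem : InL L s
  s_sq : s * s = 1
  e_mem : e ∈ Lp L s
  f_mem : f ∈ Lm L s
  e_ne : e ≠ 0
  efe : e * f * e = e
  fef : f * e * f = f
  ext : ∀ X ∈ L, ∃ c : K, e * X * e = c • e

/-- Two orthogonal connected frames for the same involution. -/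
structure Grid (L : Submodule K (Module.End K V)) (s e f e' f' u : Module.End K V) : Prop where
  F : Frame L s e f
  F' : Frame L s e' f'
  o1 : e * f' = 0
  o2 : f' * e = 0
  o3 : e' * f = 0
  o4 : f * e' = 0
  u_mem : u ∈ Lp L s
  ufu : u * f * u = e'
  ufu' : u * f' * u = e
  u1 : e * f * u + u * (f * e) = u
  u2 : e' * f' * u + u * (f' * e') = u

/-- The form-free version of `Setup`. -/
structure SetupN (g : Submodule K (Module.End K V)) : Prop where
  lie : IsLie g
  irr : Irr g
  tr : ∀ X ∈ g, LinearMap.trace K V X = 0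
  span : g ≤ Submodule.span K {z | z ∈ g ∧ ∃ c : K, (z - c • 1) * (z - c • 1) = 1}

/-- A system of idempotents compatible with `L`. -/
structure BlocksN (L : Submodule K (Module.End K V)) (p q : Fin 3 → Module.End K V) : Prop where
  pp : ∀ i j, p i * p j = if i = j then p i else 0
  qq : ∀ i j, q i * q j = if i = j then q i else 0
  pq : ∀ i j, p i * q j = 0
  qp : ∀ i j, q i * p j = 0
  sum : p 0 + p 1 + p 2 + (q 0 + q 1 + q 2) = 1
  mem : ∀ i, InW L (p i - q i)
  m0 : ∀ X ∈ L, ∀ i j, i ≠ j → p i * X * p j + q j * X * q i ∈ L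
  mp : ∀ X ∈ L, ∀ i j, i ≠ j → p i * X * q j + p j * X * q i ∈ L
  mm : ∀ X ∈ L, ∀ i j, i ≠ j → q i * X * p j + q j * X * p i ∈ L
  mpp : ∀ X ∈ L, ∀ i, p i * X * q i ∈ L
  mmm : ∀ X ∈ L, ∀ i, q i * X * p i ∈ L
  md : ∀ X ∈ L, p 0 * X * p 0 + p 1 * X * p 1 + p 2 * X * p 2 +
    (q 0 * X * q 0 + q 1 * X * q 1 + q 2 * X * q 2) ∈ L

end Pool.Agent.H25U
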