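import Pool.Agent.Lib.H25U.FullN

/-!
# FullD: a component which contains all diagonal operators of trace zero is full
-/

set_option autoImplicit false
set_option linter.unusedSectionVars false
namespace Pool.Agent.H25U
open Pool.Agent.H76P Pool.Agent.H76V Pool.Agent.H76Q
open Module Matrix Pool.Agent.H53Toric
open Pool.Agent.H76T (IsIdeal Fam)
open Pool.Agent.H76Y (NsL)

variable {κ : Type*} {K : Type*} [Field K] [CharZero K] [Fintype κ] [DecidableEq κ]
  {L : Submodule K (Module.End K (κ → K))}

/-- The matrix unit. -/
noncomputable def mu (a b : κ) : Module.End K (κ → K) := Matrix.toLin' (Matrix.single a b (1 : K))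

theorem mu_mat (a b : κ) : LinearMap.toMatrix' (mu a b : Module.End K (κ → K)) = Matrix.single a b 1 := by
  rw [mu, LinearMap.toMatrix'_toLin']

theorem mu_mul (a b c : κ) : (mu a b : Module.End K (κ → K)) * mu b c = mu a c := by
  rw [mu, mu, mu]
  show Matrix.toLin' _ ∘ₗ Matrix.toLin' _ = _
  rw [← Matrix.toLin'_mul, Matrix.single_mul_single_same, mul_one]

theorem mu_mul_ne (a : κ) {b b' : κ} (c : κ) (h : b ≠ b') : (mu a b : Module.End K (κ → K)) * mu b' c = 0 := by
  rw [mu, mu]
  show Matrix.toLin' _ ∘ₗ Matrix.toLin' _ = _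
  rw [← Matrix.toLin'_mul, Matrix.single_mul_single_of_ne _ _ _ _ h, map_zero]

theorem mu_apply (a b : κ) (v : κ → K) : mu a b v = Pi.single a (v b) := by
  ext c
  rw [mu, Matrix.toLin'_apply, Matrix.single_mulVec, one_mul]
  simp [Function.update_apply, Pi.single_apply]

/-- All diagonal operators of trace zero: the component is full. -/
theorem full_of_Yo (h : TM L) (hYo : ∀ f : κ → ℚ, ∑ k, f k = 0 → f ∈ Yo L) :
    ∀ X : Module.End K (κ → K), LinearMap.trace K (κ → K) X = 0 → X ∈ L := by
  classical
  have hLid : IsIdeal L L := ⟨le_rfl, fun X hX Y hY => h.cmp.lie X hX Y hY⟩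
  -- differences
  have hd : ∀ a b : κ, (fun k => (if k = a then (1 : ℚ) else 0) - (if k = b then 1 else 0)) ∈ Yo L := by
    intro a b
    apply hYo
    rw [Finset.sum_sub_distrib, Finset.sum_ite_eq' Finset.univ a, Finset.sum_ite_eq' Finset.univ b,
      if_pos (Finset.mem_univ _), if_pos (Finset.mem_univ _), sub_self]
  -- the weights of the matrix units are different
  have hdiff : ∀ a b c d : κ, a ≠ b → pt L c - pt L d = pt L a - pt L b → c = a ∧ d = b := by
    intro a b c d hab hcd
    have key : ∀ x y : κ, ((if c = x then (1 : ℚ) else 0) - (if c = y then 1 else 0)) -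
        ((if d = x then (1 : ℚ) else 0) - (if d = y then 1 else 0)) =
        ((if a = x then (1 : ℚ) else 0) - (if a = y then 1 else 0)) -
        ((if b = x then (1 : ℚ) else 0) - (if b = y then 1 else 0)) := by
      intro x y
      have h1 := LinearMap.congr_fun hcd ⟨_, hd x y⟩
      rw [LinearMap.sub_apply, LinearMap.sub_apply, pt_apply, pt_apply, pt_apply, pt_apply] at h1
      exact h1
    have h1 := key a b
    rw [if_pos rfl, if_neg hab, if_neg (Ne.symm hab), if_pos rfl] at h1
    by_cases hca : c = a
    · refine ⟨hca, ?_⟩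
      by_contra hdb
      rw [if_pos hca, if_neg hdb, hca, if_neg hab] at h1
      by_cases hda : d = a
      · rw [if_pos hda] at h1
        norm_num at h1
      · rw [if_neg hda] at h1
        norm_num at h1
    · exfalso
      rw [if_neg hca] at h1
      by_cases hdb : d = b
      · rw [if_pos hdb, hdb, if_neg (Ne.symm hab)] at h1
        by_cases hcb : c = b
        · rw [if_pos hcb] at h1
          norm_num at h1
        · rw [if_neg hcb] at h1
          norm_num at h1
      · rw [if_neg hdb] at h1
        by_cases hcb : c = b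
        · rw [if_pos hcb] at h1
          by_cases hda : d = a
          · rw [if_pos hda] at h1
            norm_num at h1
          · rw [if_neg hda] at h1
            norm_num at h1
        · rw [if_neg hcb] at h1
          by_cases hda : d = a
          · rw [if_pos hda] at h1
            norm_num at h1
          · rw [if_neg hda] at h1
            norm_num at h1
  -- the entries of elements of L
  have hent : ∀ X ∈ L, ∀ a b, a ≠ b → LinearMap.toMatrix' X a b ≠ 0 → (mu a b : Module.End K (κ → K)) ∈ L := by
    intro X hX a b hab hne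
    have h1 : wc L (pt L a - pt L b) X ∈ L := wc_mem hLid hX _
    have h2 : wc L (pt L a - pt L b) X = LinearMap.toMatrix' X a b • mu a b := by
      refine t5_ext fun c d => ?_
      rw [t5_wc, map_smul, mu_mat, Matrix.smul_apply, smul_eq_mul]
      by_cases hcd : pt L c - pt L d = pt L a - pt L b
      · obtain ⟨rfl, rfl⟩ := hdiff a b c d hab hcd
        rw [if_pos rfl, Matrix.single_apply_same, mul_one]
      · rw [if_neg hcd, Matrix.single_apply_of_ne, mul_zero]
        rintro ⟨rfl, rfl⟩
        exact hcd rfl
    rw [h2] at h1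
    have h3 := L.smul_mem (LinearMap.toMatrix' X a b)⁻¹ h1
    rwa [smul_smul, inv_mul_cancel₀ hne, one_smul] at h3
  -- all matrix units
  have hall : ∀ a b : κ, a ≠ b → (mu a b : Module.End K (κ → K)) ∈ L := by
    intro a b hab
    have hst := h.cmp.irr (Submodule.span K {v | ∃ c, (c = b ∨ (mu c b : Module.End K (κ → K)) ∈ L) ∧
      v = Pi.single c (1 : K)}) (by
      intro X hX w hw
      induction hw using Submodule.span_induction with
      | mem v hv =>
        obtain ⟨c, hc, rfl⟩ := hv
        have e : X (Pi.single c (1 : K)) = ∑ d, LinearMap.toMatrix' X d c • (Pi.single d (1 : K) : κ → K) := by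
          ext d
          rw [Finset.sum_apply, ← LinearMap.toMatrix'_apply]
          simp [Pi.single_apply]
        rw [e]
        refine Submodule.sum_mem _ fun d _ => ?_
        by_cases h0 : LinearMap.toMatrix' X d c = 0
        · rw [h0, zero_smul]
          exact Submodule.zero_mem _
        refine Submodule.smul_mem _ _ (Submodule.subset_span ⟨d, ?_, rfl⟩)
        by_cases hdb : d = b
        · exact Or.inl hdb
        right
        rcases hc with rfl | hc
        · exact hent X hX _ _ hdb h0
        · by_cases hdc : d = c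
          · rw [hdc]
            exact hc
          have h1 := hent X hX d c hdc h0
          have h2 := h.cmp.lie _ h1 _ hc
          rw [mu_mul, mu_mul_ne _ _ (Ne.symm hdb), sub_zero] at h2
          exact h2
      | zero => rw [map_zero]; exact Submodule.zero_mem _
      | add u v _ _ hu hv => rw [map_add]; exact Submodule.add_mem _ hu hv
      | smul t v _ hv => rw [map_smul]; exact Submodule.smul_mem _ _ hv)
    rcases hst with h1 | h1
    · exfalso
      have h2 : (Pi.single b (1 : K) : κ → K) ∈ Submodule.span K {v | ∃ c, (c = b ∨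
          (mu c b : Module.End K (κ → K)) ∈ L) ∧ v = Pi.single c (1 : K)} :=
        Submodule.subset_span ⟨b, Or.inl rfl, rfl⟩
      rw [h1, Submodule.mem_bot] at h2
      have h3 := congrFun h2 b
      rw [Pi.single_eq_same, Pi.zero_apply] at h3
      exact one_ne_zero h3
    · by_contra hcon
      have h2 : Submodule.span K {v | ∃ c, (c = b ∨
          (mu c b : Module.End K (κ → K)) ∈ L) ∧ v = Pi.single c (1 : K)} ≤
          LinearMap.ker (LinearMap.proj (R := K) (φ := fun _ : κ => K) a) := by
        rw [Submodule.span_le]
        rintro v ⟨c, hc, rfl⟩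
        show (Pi.single c (1 : K) : κ → K) a = 0
        refine Pi.single_eq_of_ne ?_ _
        rintro rfl
        rcases hc with hc | hc
        · exact hab hc
        · exact hcon hc
      rw [h1] at h2
      have h4 : (Pi.single a (1 : K) : κ → K) ∈ LinearMap.ker (LinearMap.proj (R := K) (φ := fun _ : κ => K) a) :=
        h2 Submodule.mem_top
      have h3 : (Pi.single a (1 : K) : κ → K) a = 0 := h4
      rw [Pi.single_eq_same] at h3
      exact one_ne_zero h3
  -- the conclusion
  intro X hX
  by_cases hne : Nonempty κ
  swap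
  · have h0 : X = 0 := by
      refine LinearMap.ext fun v => funext fun a => (hne ⟨a⟩).elim
    rw [h0]
    exact L.zero_mem
  obtain ⟨o⟩ := hne
  obtain ⟨A, hA⟩ : ∃ A : Matrix κ κ K, X = Matrix.toLin' A := ⟨LinearMap.toMatrix' X, (Matrix.toLin'_toMatrix' X).symm⟩
  have htr : ∑ a, A a a = 0 := by
    rw [hA, Matrix.trace_toLin'_eq] at hX
    exact hX
  have hX1 : X = ∑ a, ∑ b, A a b • (mu a b : Module.End K (κ → K)) := by
    rw [hA]
    nth_rw 1 [Matrix.matrix_eq_sum_single A]
    rw [map_sum]
    refine Finset.sum_congr rfl fun a _ => ?_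
    rw [map_sum]
    refine Finset.sum_congr rfl fun b _ => ?_
    rw [mu, ← map_smul, Matrix.smul_single, smul_eq_mul, mul_one]
  have h2 : ∑ a, ∑ b, A a b • (if a = b then (mu o o : Module.End K (κ → K)) else 0) = 0 := by
    have h3 : ∀ a, ∑ b, A a b • (if a = b then (mu o o : Module.End K (κ → K)) else 0) = A a a • mu o o := by
      intro a
      rw [Finset.sum_eq_single_of_mem a (Finset.mem_univ a), if_pos rfl]
      intro b _ hb
      rw [if_neg (Ne.symm hb), smul_zero]
    rw [Finset.sum_congr rfl fun a _ => h3 a, ← Finset.sum_smul, htr, zero_smul]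
  have hX2 : X = ∑ a, ∑ b, A a b • ((mu a b : Module.End K (κ → K)) - if a = b then mu o o else 0) := by
    simp only [smul_sub, Finset.sum_sub_distrib]
    rw [h2, sub_zero]
    exact hX1
  have hmu : ∀ a : κ, (mu a a : Module.End K (κ → K)) - mu o o =
      dq (fun k => (if k = a then (1 : ℚ) else 0) - (if k = o then 1 else 0)) := by
    intro a
    refine LinearMap.ext fun v => funext fun c => ?_
    rw [LinearMap.sub_apply, Pi.sub_apply, mu_apply, mu_apply, dq, dg_apply, Pi.single_apply, Pi.single_apply]
    push_cast
    rw [sub_mul]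
    congr 1
    · by_cases hc : c = a
      · rw [if_pos hc, if_pos hc, hc, Rat.cast_one, one_mul]
      · rw [if_neg hc, if_neg hc, Rat.cast_zero, zero_mul]
    · by_cases hc : c = o
      · rw [if_pos hc, if_pos hc, hc, Rat.cast_one, one_mul]
      · rw [if_neg hc, if_neg hc, Rat.cast_zero, zero_mul]
  rw [hX2]
  refine Submodule.sum_mem _ fun a _ => Submodule.sum_mem _ fun b _ => L.smul_mem _ ?_
  by_cases hab : a = b
  · rw [if_pos hab, ← hab, hmu]
    exact Yo_mem (hd a o)
  · rw [if_neg hab, sub_zero]
    exact hall a b hab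

/-- A full component contains all functions of sum zero. -/
theorem Yo_of_full (h : TM L) (hfull : ∀ X : Module.End K (κ → K), LinearMap.trace K (κ → K) X = 0 → X ∈ L)
    {f : κ → ℚ} (hf : ∑ k, f k = 0) : f ∈ Yo L := by
  refine h.diag f (hfull _ ?_)
  unfold dq
  rw [dg_trace]
  exact_mod_cast hf

end Pool.Agent.H25U
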