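import Pool.Agent.Lib.H25U.OneN
import Pool.Agent.Lib.H25U.Bridge
import Pool.Agent.Lib.H25U.CoreU
import Pool.Agent.Lib.H76Y.G10

/-!
# FullN: one block, no form: the component is full
-/

set_option autoImplicit false
set_option linter.unusedSectionVars false
namespace Pool.Agent.H25U
open Pool.Agent.H76P Pool.Agent.H76V Pool.Agent.H76Q
open Module Matrix Pool.Agent.H53Toric
open Pool.Agent.H76T (IsIdeal Fam)
open Pool.Agent.H76Y (NsL)

variable {κ : Type*} {K : Type*} [Field K] [CharZero K] [Fintype κ] [DecidableEq κ]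
  {L : Submodule K (Module.End K (κ → K))} [IsAlgClosed K] [Nonempty κ]
  {Y : Submodule ℚ (κ → ℚ)} {P : Module.End ℚ Y}

theorem CmpN.coreN (h : CmpN L) {I : Fin 1 → Submodule K (Module.End K (κ → K))} (hF : Fam L I) :
    H86N.CoreN L := by
  have hL : I 0 = L := by
    rw [← hF.sup]
    apply le_antisymm
    · exact le_iSup I 0
    · apply iSup_le
      intro j
      rw [Subsingleton.elim j 0]
  exact { lie := h.lie
          irr := h.irr
          tr := h.tr
          simple := fun M hM hM' => by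
            have h1 := hF.min 0 M ⟨hM, hM'⟩ (by rw [hL]; exact hM)
            rwa [hL] at h1 }

/-- A Lie algebra without a form whose configuration is one block has one minimal ideal. -/
theorem one_fam (h : TM L) (hns : NsL L) (hY : Yo L = Y) (h1 : IsBlock (1 : Module.End ℚ Y)) :
    ∃ I : Fin 1 → Submodule K (Module.End K (κ → K)), Fam L I := by
  classical
  subst hY
  obtain ⟨m, I, hF⟩ := Pool.Agent.H76T.exists_fam h.cmp.lie h.cmp.irr h.cmp.tr
  rcases Nat.lt_or_ge m 2 with hm | hm
  · interval_cases m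
    · exfalso
      have hL : L = ⊥ := by
        rw [← hF.sup]
        exact iSup_of_empty _
      obtain ⟨a⟩ := ‹Nonempty κ›
      let b : (κ → K) →ₗ[K] (κ → K) →ₗ[K] K := LinearMap.mk₂ K (fun v w => v a * w a)
        (fun v v' w => by simp only [Pi.add_apply]; ring)
        (fun c v w => by simp only [Pi.smul_apply, smul_eq_mul]; ring)
        (fun v w w' => by simp only [Pi.add_apply]; ring)
        (fun c v w => by simp only [Pi.smul_apply, smul_eq_mul]; ring)
      have hb : b = 0 := hns b fun X hX v w => by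
        rw [hL, Submodule.mem_bot] at hX
        rw [hX]
        simp
      have h2 := congrArg (fun b : (κ → K) →ₗ[K] (κ → K) →ₗ[K] K => b (fun _ => 1) (fun _ => 1)) hb
      have h3 : b (fun _ => 1) (fun _ => 1) = 1 * 1 := rfl
      simp only [h3, LinearMap.zero_apply, mul_one] at h2
      exact one_ne_zero h2
    · exact ⟨I, hF⟩
  · exfalso
    have hs : Spans (pt L) := pt_spans h.cmp
    have hij : (⟨0, by omega⟩ : Fin m) ≠ ⟨1, by omega⟩ := by
      intro e
      exact absurd (congrArg Fin.val e) (by norm_num)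
    obtain ⟨i, hi⟩ : ∃ i : Fin m, i = ⟨0, by omega⟩ := ⟨_, rfl⟩
    obtain ⟨j, hj⟩ : ∃ j : Fin m, j = ⟨1, by omega⟩ := ⟨_, rfl⟩
    rw [← hi, ← hj] at hij
    -- an atom equal to one is impossible
    have caseA : Atom (pt L) (1 : Module.End ℚ (Module.Dual ℚ (Yo L))) → False := by
      intro hA
      obtain ⟨P, hP1, hP2, hP3, hPS⟩ := exists_proj h.cmp hF i
      have g1 : P.dualMap = 1 := by
        rcases hA.2.2 P.dualMap hPS (mul_one _) with h2 | h2
        · exfalso
          obtain ⟨f, hf, hf0, hfi⟩ := h.exists_diag hF i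
          have h3 : P = 0 := dualMap_inj (by rw [h2, dualMap_zero])
          have h4 := hP2 ⟨f, hf⟩ hfi
          rw [h3, LinearMap.zero_apply] at h4
          exact hf0 (congrArg Subtype.val h4).symm
        · exact h2
      have g2 : P = 1 := dualMap_inj (by rw [g1, dualMap_one])
      obtain ⟨f, hf, hf0, hfi⟩ := h.exists_diag hF j
      have h3 := hP3 j (Ne.symm hij) ⟨f, hf⟩ hfi
      rw [g2, Module.End.one_apply] at h3
      exact hf0 (congrArg Subtype.val h3)
    rcases h1 with ⟨h8, hA⟩ | ⟨-, hA, hc⟩ | ⟨h8, hS, -, hat⟩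
    · rw [dualMap_one] at hA
      exact caseA hA
    · rw [dualMap_one] at hA
      exact caseA hA
    · refine h.not_ns (fun k => ?_) hns
      obtain ⟨k', hk'⟩ := H25Y.sym_of_two hs h.pt_inj (sum_pt h) (fun q hq => (hat q hq).1 (by
        rw [dualMap_one, mul_one])) k
      refine ⟨k', fun f hf => ?_⟩
      have h2 := congrArg (fun φ : Module.Dual ℚ (Yo L) => φ ⟨f, hf⟩) hk'
      exact h2

/-- The rank of the idempotent is the dimension of the eigenspace. -/
theorem rank_eig {y : Module.End K (κ → K)} {c : K} (hc : (y + c • 1) * (y + c • 1) = 1) :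
    finrank K (LinearMap.range ((1 / 2 : K) • (1 + (y + c • 1)))) = finrank K (H49M.eig (y + c • 1) 1) := by
  have h1 := K5_range (K := K) hc (one_mul (1 : K))
  rw [one_smul] at h1
  rw [h1]

/-- One ideal and a shifted element of degree two: the component is full, or an exterior power. -/
theorem full_unb (h : CmpN L) {I : Fin 1 → Submodule K (Module.End K (κ → K))} (hF : Fam L I)
    {y : Module.End K (κ → K)} (hy : y ∈ L) (hy0 : y ≠ 0) {c : K} (hc0 : c ≠ 0)
    (hc : (y + c • 1) * (y + c • 1) = 1)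
    (bin : ∀ N k : ℕ, 2 ≤ k → k + 2 ≤ N → Fintype.card κ = N.choose k →
      finrank K (LinearMap.range ((1 / 2 : K) • (1 + (y + c • 1)))) ≠ (N - 1).choose k) :
    ∀ X : Module.End K (κ → K), LinearMap.trace K (κ → K) X = 0 → X ∈ L := by
  have hcore := h.coreN hF
  obtain ⟨n1, n2⟩ := shift_ne (c := c) (h.tr y hy) hy0
  have hs : InL L (y + c • 1) := ⟨⟨-c, by
    have e : y + c • (1 : Module.End K (κ → K)) + (-c) • (1 : Module.End K (κ → K)) = y := by module
    rw [e]
    exact hy⟩, n1, n2⟩
  have hne : finrank K (H49M.eig (y + c • 1) 1) ≠ finrank K (H49M.eig (y + c • 1) (-1)) := by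
    intro h0
    have h1 := eig_diff (K := K) hc
    rw [h0, sub_self, map_add, h.tr y hy, zero_add, map_smul, LinearMap.trace_one, smul_eq_mul] at h1
    rcases mul_eq_zero.1 h1.symm with h2 | h2
    · exact hc0 h2
    · exact absurd h2 (by exact_mod_cast (finrank_pos (R := K) (M := κ → K)).ne')
  rcases coreU hcore hs hc hne with h1 | ⟨n, k, hk2, hkn, h1, -, h3⟩
  · exact h1
  · exfalso
    rw [Module.finrank_fintype_fun_eq_card] at h3
    refine bin (n + 2) k hk2 (by omega) h3 ?_
    rw [rank_eig hc, h1]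
    rfl

/-- **One block, no form, a shifted element of degree two.** -/
theorem one_nsY (h : TM L) (hns : NsL L) (hY : Yo L = Y) (h1 : IsBlock (1 : Module.End ℚ Y))
    {y : Module.End K (κ → K)} (hy : y ∈ L) (hy0 : y ≠ 0) {c : K} (hc0 : c ≠ 0)
    (hc : (y + c • 1) * (y + c • 1) = 1)
    (bin : ∀ N k : ℕ, 2 ≤ k → k + 2 ≤ N → Fintype.card κ = N.choose k →
      finrank K (LinearMap.range ((1 / 2 : K) • (1 + (y + c • 1)))) ≠ (N - 1).choose k) :
    ∀ X : Module.End K (κ → K), LinearMap.trace K (κ → K) X = 0 → X ∈ L := by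
  obtain ⟨I, hF⟩ := one_fam h hns hY h1
  exact full_unb h.cmp hF hy hy0 hc0 hc bin

/-- **One block, no form.** -/
theorem one_nsX (h : TM L) (hns : NsL L) (hY : Yo L = Y) (h1 : IsBlock (1 : Module.End ℚ Y))
    (two : ∀ k : ℕ, 4 ≤ k → Even k → Fintype.card κ ≠ 2 ^ k)
    (bin : ∀ N k : ℕ, 2 ≤ k → k + 2 ≤ N → Fintype.card κ ≠ N.choose k) :
    ∀ X : Module.End K (κ → K), LinearMap.trace K (κ → K) X = 0 → X ∈ L := by
  by_cases h0 : ∀ y ∈ L, y ≠ 0 → ∀ c : K, (y + c • 1) * (y + c • 1) = 1 → c = 0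
  · exact H76Y.one_nsX (h.old_of h0) hns (by rw [← yo_old_of h0]; exact hY) h1 two
  · push Not at h0
    obtain ⟨y, hy, hy0, c, hc, hc0⟩ := h0
    exact one_nsY h hns hY h1 hy hy0 hc0 hc fun N k hk hN hcard => absurd hcard (bin N k hk hN)

end Pool.Agent.H25U
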