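import Pool.Agent.Lib.H25U.FullD
import Pool.Agent.Lib.H86N.CoreNS

/-!
# FullU: one block, no form, given a function with two values
-/

set_option autoImplicit false
set_option linter.unusedSectionVars false
namespace Pool.Agent.H25U
open Pool.Agent.H76P Pool.Agent.H76V Pool.Agent.H76Q
open Module Matrix Pool.Agent.H53Toric
open Pool.Agent.H76T (IsIdeal Fam)
open Pool.Agent.H76Y (NsL)

variable {κ : Type*} {K : Type*} [Field K] [CharZero K] [Fintype κ] [DecidableEq κ]
  {L : Submodule K (Module.End K (κ → K))} [IsAlgClosed K] [Nonempty κ]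
  {Y : Submodule ℚ (κ → ℚ)}

/-- One ideal, no form, an element of degree two. -/
theorem full_y (h : CmpN L) (hns : NsL L) {I : Fin 1 → Submodule K (Module.End K (κ → K))} (hF : Fam L I)
    {y : Module.End K (κ → K)} (hy : y ∈ L) (hy0 : y ≠ 0) {c : K}
    (hc : (y + c • 1) * (y + c • 1) = 1)
    (two : c = 0 → ∀ k : ℕ, 4 ≤ k → Even k → Fintype.card κ ≠ 2 ^ k)
    (bin : c ≠ 0 → ∀ N k : ℕ, 2 ≤ k → k + 2 ≤ N → Fintype.card κ = N.choose k →
      finrank K (LinearMap.range ((1 / 2 : K) • (1 + (y + c • 1)))) ≠ (N - 1).choose k) :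
    ∀ X : Module.End K (κ → K), LinearMap.trace K (κ → K) X = 0 → X ∈ L := by
  by_cases hc0 : c = 0
  · have hcore := h.coreN hF
    have hy2 : y * y = 1 := by
      rw [hc0, zero_smul, add_zero] at hc
      exact hc
    obtain ⟨s', e, f, F, hr⟩ := H86N.coreNS hcore hns hy hy2 (Or.inr fun k hk hk2 => by
      rw [Module.finrank_fintype_fun_eq_card]
      exact two hc0 k hk hk2)
    exact fun X hX => H86N.full_sl hcore F hr hns hX
  · exact full_unb h hF hy hy0 hc0 hc (bin hc0)

/-- **One block, no form, given a function with two values.** Let `ε` be a function with the values `1`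
and `-1`, not constant, `ε - c ∈ Y`, and `s` the number of the points where `ε` is `1`.  Then the component
is full unless `2 s = n = 2 ^ k` with `k ≥ 4` even, or `2 s ≠ n`, `n = C(N, k)`, `2 ≤ k ≤ N - 2` and `s` is
`C(N - 1, k - 1)` or `C(N - 1, k)`. -/
theorem full_of_oneU (h : TM L) (hns : NsL L) (hY : Yo L = Y) (h1 : IsBlock (1 : Module.End ℚ Y))
    {ε : κ → ℚ} (hε : ∀ k, ε k = 1 ∨ ε k = -1) (hne : ∃ a b, ε a ≠ ε b) {c : ℚ}
    (hc : (fun k => ε k - c) ∈ Y)
    (two : 2 * (Finset.univ.filter fun k => ε k = 1).card = Fintype.card κ →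
      ∀ k : ℕ, 4 ≤ k → Even k → Fintype.card κ ≠ 2 ^ k)
    (bin : 2 * (Finset.univ.filter fun k => ε k = 1).card ≠ Fintype.card κ →
      ∀ N k : ℕ, 2 ≤ k → k + 2 ≤ N → Fintype.card κ = N.choose k →
        (Finset.univ.filter fun k => ε k = 1).card ≠ (N - 1).choose (k - 1) ∧
        (Finset.univ.filter fun k => ε k = 1).card ≠ (N - 1).choose k) :
    ∀ X : Module.End K (κ → K), LinearMap.trace K (κ → K) X = 0 → X ∈ L := by
  classical
  obtain ⟨I, hF⟩ := one_fam h hns hY h1
  obtain ⟨s, hs⟩ : ∃ s, s = (Finset.univ.filter fun k => ε k = 1).card := ⟨_, rfl⟩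
  rw [← hs] at two bin
  have hsum : ∑ k, ε k = 2 * (s : ℚ) - Fintype.card κ := by
    have e1 : ∀ k, ε k = 2 * (if ε k = 1 then (1 : ℚ) else 0) - 1 := by
      intro k
      rcases hε k with h2 | h2
      · rw [if_pos h2, h2]
        norm_num
      · rw [if_neg (by rw [h2]; norm_num), h2]
        norm_num
    rw [Finset.sum_congr rfl fun k _ => e1 k, Finset.sum_sub_distrib, ← Finset.mul_sum, Finset.sum_boole,
      Finset.sum_const, Finset.card_univ, ← hs]
    simp
  have hYo : (fun k => ε k - c) ∈ Yo L := by rw [hY]; exact hc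
  have hcn : (Fintype.card κ : ℚ) * c = 2 * (s : ℚ) - Fintype.card κ := by
    have h2 := Yo_sum h.cmp hYo
    rw [Finset.sum_sub_distrib, hsum, Finset.sum_const, Finset.card_univ, nsmul_eq_mul, sub_eq_zero] at h2
    exact h2.symm
  have hcard : (Fintype.card κ : ℚ) ≠ 0 := by exact_mod_cast Fintype.card_ne_zero
  have hc0 : c = 0 ↔ 2 * s = Fintype.card κ := by
    constructor
    · intro h2
      rw [h2, mul_zero] at hcn
      have h3 : (2 * (s : ℚ)) = Fintype.card κ := (sub_eq_zero.1 hcn.symm)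
      exact_mod_cast h3
    · intro h2
      have h3 : (2 * (s : ℚ)) = Fintype.card κ := by exact_mod_cast h2
      rw [h3, sub_self] at hcn
      exact (mul_eq_zero.1 hcn).resolve_left hcard
  have hyL : (dq (fun k => ε k - c) : Module.End K (κ → K)) ∈ L := Yo_mem hYo
  have hshift : (dq (fun k => ε k - c) : Module.End K (κ → K)) + (c : K) • 1 = dq ε := by
    unfold dq
    rw [← dg_one, ← dg_smul, ← dg_add]
    congr 1
    funext a
    rw [Pi.add_apply, Pi.smul_apply, Pi.one_apply, smul_eq_mul, mul_one]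
    push_cast
    ring
  have hy0 : (dq (fun k => ε k - c) : Module.End K (κ → K)) ≠ 0 := by
    intro h0
    obtain ⟨a, b, hab⟩ := hne
    have h2 : (fun k => ε k - c) = 0 := dq_inj (K := K) (by rw [h0, t13_zero])
    have ha := congrFun h2 a
    have hb := congrFun h2 b
    simp only [Pi.zero_apply, sub_eq_zero] at ha hb
    exact hab (ha.trans hb.symm)
  have hyy : ((dq (fun k => ε k - c) : Module.End K (κ → K)) + (c : K) • 1) *
      (dq (fun k => ε k - c) + (c : K) • 1) = 1 := by
    rw [hshift]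
    exact dq_sq hε
  have hrank : finrank K (LinearMap.range ((1 / 2 : K) • (1 + ((dq (fun k => ε k - c) : Module.End K (κ → K)) +
      (c : K) • 1)))) = s := by
    have h2 := eig_dim (K := K) hyy (one_mul (1 : K))
    rw [← rank_eig hyy, one_smul, hshift] at h2
    rw [hshift]
    have h3 : LinearMap.trace K (κ → K) ((1 / 2 : K) • (1 + (dq ε : Module.End K (κ → K)))) = (s : K) := by
      rw [map_smul, map_add, LinearMap.trace_one, Module.finrank_fintype_fun_eq_card]
      unfold dq
      rw [dg_trace]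
      have h4 : ∑ a, ((ε a : ℚ) : K) = ((∑ a, ε a : ℚ) : K) := by push_cast; rfl
      rw [h4, hsum, smul_eq_mul]
      push_cast
      ring
    rw [h3] at h2
    exact_mod_cast h2
  refine full_y h.cmp hns hF hyL hy0 hyy (fun h2 => two (hc0.1 ?_)) fun h2 N k hk hN hNk => ?_
  · exact_mod_cast h2
  · rw [hrank]
    refine (bin (fun h3 => h2 ?_) N k hk hN hNk).2
    rw [hc0.2 h3, Rat.cast_zero]

end Pool.Agent.H25U
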