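import Pool.Agent.Lib.H25U.FullU
import Pool.Agent.Lib.H25U.CoreV

/-!
# FullV: one block, no form, the exceptional case is rigid
-/

set_option autoImplicit false
set_option linter.unusedSectionVars false
namespace Pool.Agent.H25U
open Pool.Agent.H76P Pool.Agent.H76V Pool.Agent.H76Q
open Module Matrix Pool.Agent.H53Toric
open Pool.Agent.H76T (IsIdeal Fam)
open Pool.Agent.H76Y (NsL)

variable {κ : Type*} {K : Type*} [Field K] [CharZero K] [Fintype κ] [DecidableEq κ]
  {L : Submodule K (Module.End K (κ → K))} [IsAlgClosed K] [Nonempty κ]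
  {Y : Submodule ℚ (κ → ℚ)}

/-- A function with two values in the configuration gives an involution of `L` modulo scalars. -/
theorem inv_of_eps (hY : Yo L = Y) {ε : κ → ℚ} (hε : ∀ k, ε k = 1 ∨ ε k = -1) (hne : ∃ a b, ε a ≠ ε b) {c : ℚ}
    (hc : (fun k => ε k - c) ∈ Y) :
    InL L (dq ε : Module.End K (κ → K)) ∧ (dq ε : Module.End K (κ → K)) * dq ε = 1 ∧
      finrank K (H49M.eig (dq ε : Module.End K (κ → K)) 1) = (Finset.univ.filter fun k => ε k = 1).card ∧
      finrank K (H49M.eig (dq ε : Module.End K (κ → K)) (-1)) =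
        Fintype.card κ - (Finset.univ.filter fun k => ε k = 1).card := by
  classical
  have hYo : (fun k => ε k - c) ∈ Yo L := by rw [hY]; exact hc
  have hyL : (dq (fun k => ε k - c) : Module.End K (κ → K)) ∈ L := Yo_mem hYo
  have hsq : (dq ε : Module.End K (κ → K)) * dq ε = 1 := dq_sq hε
  have hshift : (dq ε : Module.End K (κ → K)) + (-(c : K)) • 1 = dq (fun k => ε k - c) := by
    unfold dq
    rw [← dg_one, ← dg_smul, ← dg_add]
    congr 1
    funext a
    rw [Pi.add_apply, Pi.smul_apply, Pi.one_apply, smul_eq_mul, mul_one]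
    push_cast
    ring
  have hone : ∀ t : ℚ, (dq (fun _ : κ => t) : Module.End K (κ → K)) = (t : K) • 1 := by
    intro t
    unfold dq
    rw [← dg_one, ← dg_smul]
    congr 1
    funext a
    simp
  have hconst : ∀ t : ℚ, (dq ε : Module.End K (κ → K)) ≠ (t : K) • 1 := by
    intro t h0
    rw [← hone] at h0
    obtain ⟨a, b, hab⟩ := hne
    have h1 := dq_inj (K := K) h0
    exact hab (by rw [congrFun h1 a, congrFun h1 b])
  have hsum : ∑ k, ε k = 2 * ((Finset.univ.filter fun k => ε k = 1).card : ℚ) - Fintype.card κ := by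
    have e1 : ∀ k, ε k = 2 * (if ε k = 1 then (1 : ℚ) else 0) - 1 := by
      intro k
      rcases hε k with h2 | h2
      · rw [if_pos h2, h2]
        norm_num
      · rw [if_neg (by rw [h2]; norm_num), h2]
        norm_num
    rw [Finset.sum_congr rfl fun k _ => e1 k, Finset.sum_sub_distrib, ← Finset.mul_sum, Finset.sum_boole,
      Finset.sum_const, Finset.card_univ]
    simp
  have hd1 : finrank K (H49M.eig (dq ε : Module.End K (κ → K)) 1) =
      (Finset.univ.filter fun k => ε k = 1).card := by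
    have h2 := eig_dim (K := K) hsq (one_mul (1 : K))
    have h3 : LinearMap.trace K (κ → K) ((1 / 2 : K) • (1 + (dq ε : Module.End K (κ → K)))) =
        ((Finset.univ.filter fun k => ε k = 1).card : K) := by
      rw [map_smul, map_add, LinearMap.trace_one, Module.finrank_fintype_fun_eq_card]
      unfold dq
      rw [dg_trace]
      have h4 : ∑ a, ((ε a : ℚ) : K) = ((∑ a, ε a : ℚ) : K) := by push_cast; rfl
      rw [h4, hsum, smul_eq_mul]
      push_cast
      ring
    rw [one_smul, h3] at h2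
    exact_mod_cast h2
  refine ⟨⟨⟨-(c : K), by rw [hshift]; exact hyL⟩, ?_, ?_⟩, hsq, hd1, ?_⟩
  · have := hconst 1
    rwa [Rat.cast_one, one_smul] at this
  · intro h0
    apply hconst (-1)
    rw [h0]
    push_cast
    module
  · have h5 := K5_sum (K := K) hsq
    rw [Module.finrank_fintype_fun_eq_card, hd1] at h5
    omega

/-- **One block, no form, given a function with two values with different multiplicities: the component is
full, or an exterior power, and then all functions with two values of the configuration have the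
multiplicities of the exterior power.** -/
theorem rigid_of_oneU (h : TM L) (hns : NsL L) (hY : Yo L = Y) (h1 : IsBlock (1 : Module.End ℚ Y))
    {ε : κ → ℚ} (hε : ∀ k, ε k = 1 ∨ ε k = -1) (hne : ∃ a b, ε a ≠ ε b) {c : ℚ}
    (hc : (fun k => ε k - c) ∈ Y)
    (hu : 2 * (Finset.univ.filter fun k => ε k = 1).card ≠ Fintype.card κ) :
    (∀ X : Module.End K (κ → K), LinearMap.trace K (κ → K) X = 0 → X ∈ L) ∨
    ∃ N k : ℕ, 2 ≤ k ∧ k + 2 ≤ N ∧ Fintype.card κ = N.choose k ∧
      ∀ (ε' : κ → ℚ), (∀ k, ε' k = 1 ∨ ε' k = -1) → (∃ a b, ε' a ≠ ε' b) → ∀ c' : ℚ,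
        (fun k => ε' k - c') ∈ Y →
        (Finset.univ.filter fun k => ε' k = 1).card = (N - 1).choose k ∨
        (Finset.univ.filter fun k => ε' k = 1).card = (N - 1).choose (k - 1) := by
  classical
  obtain ⟨I, hF⟩ := one_fam h hns hY h1
  have hcore := h.cmp.coreN hF
  obtain ⟨g1, g2, g3, g4⟩ := inv_of_eps (K := K) hY hε hne hc
  have hle : (Finset.univ.filter fun k => ε k = 1).card ≤ Fintype.card κ := Finset.card_le_univ _
  rcases coreV hcore g1 g2 (by rw [g3, g4]; omega) with h2 | ⟨n, k, hk, hkn, h3, h4⟩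
  · exact Or.inl h2
  · right
    rw [Module.finrank_fintype_fun_eq_card] at h3
    refine ⟨n + 2, k, hk, by omega, h3, fun ε' hε' hne' c' hc' => ?_⟩
    obtain ⟨f1, f2, f3, -⟩ := inv_of_eps (K := K) hY hε' hne' hc'
    rcases h4 _ f1 f2 with ⟨h5, -⟩ | ⟨h5, -⟩
    · exact Or.inl (f3.symm.trans h5)
    · exact Or.inr (f3.symm.trans h5)

/-- **Two functions with two values with different multiplicities: the component is full.** -/
theorem full_of_oneV (h : TM L) (hns : NsL L) (hY : Yo L = Y) (h1 : IsBlock (1 : Module.End ℚ Y))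
    {ε ε' : κ → ℚ} (hε : ∀ k, ε k = 1 ∨ ε k = -1) (hne : ∃ a b, ε a ≠ ε b) {c : ℚ}
    (hc : (fun k => ε k - c) ∈ Y) (hε' : ∀ k, ε' k = 1 ∨ ε' k = -1) (hne' : ∃ a b, ε' a ≠ ε' b) {c' : ℚ}
    (hc' : (fun k => ε' k - c') ∈ Y)
    (hs : (Finset.univ.filter fun k => ε k = 1).card ≠ (Finset.univ.filter fun k => ε' k = 1).card)
    (hs' : (Finset.univ.filter fun k => ε k = 1).card + (Finset.univ.filter fun k => ε' k = 1).card ≠
      Fintype.card κ) :
    ∀ X : Module.End K (κ → K), LinearMap.trace K (κ → K) X = 0 → X ∈ L := by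
  classical
  obtain ⟨a, ha⟩ : ∃ a, a = (Finset.univ.filter fun k => ε k = 1).card := ⟨_, rfl⟩
  obtain ⟨b, hb⟩ : ∃ b, b = (Finset.univ.filter fun k => ε' k = 1).card := ⟨_, rfl⟩
  have key : ∀ N k : ℕ, 2 ≤ k → k + 2 ≤ N → Fintype.card κ = N.choose k →
      (a = (N - 1).choose k ∨ a = (N - 1).choose (k - 1)) →
      (b = (N - 1).choose k ∨ b = (N - 1).choose (k - 1)) → False := by
    intro N k hk hN hcard h2 h3
    rw [← ha, ← hb] at hs hs'
    obtain ⟨n, rfl⟩ : ∃ n, N = n + 1 := ⟨N - 1, by omega⟩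
    obtain ⟨j, rfl⟩ : ∃ j, k = j + 1 := ⟨k - 1, by omega⟩
    rw [Nat.choose_succ_succ'] at hcard
    simp only [Nat.add_sub_cancel] at h2 h3
    omega
  by_cases hu : 2 * (Finset.univ.filter fun k => ε k = 1).card = Fintype.card κ
  · have hu' : 2 * (Finset.univ.filter fun k => ε' k = 1).card ≠ Fintype.card κ := by omega
    rcases rigid_of_oneU h hns hY h1 hε' hne' hc' hu' with h2 | ⟨N, k, hk, hN, h2, h3⟩
    · exact h2
    · exact (key N k hk hN h2 (by rw [ha]; exact h3 ε hε hne c hc) (by rw [hb]; exact h3 ε' hε' hne' c' hc')).elim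
  · rcases rigid_of_oneU h hns hY h1 hε hne hc hu with h2 | ⟨N, k, hk, hN, h2, h3⟩
    · exact h2
    · exact (key N k hk hN h2 (by rw [ha]; exact h3 ε hε hne c hc) (by rw [hb]; exact h3 ε' hε' hne' c' hc')).elim

end Pool.Agent.H25U
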