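import Pool.Agent.Lib.H25U.K1

/-!
# K2: rank one Jordan pairs, all products
-/

set_option autoImplicit false
set_option linter.unusedSectionVars false
namespace Pool.Agent.H25U
open Module Pool.Agent.H53Toric Pool.Agent.H49M
open Pool.Agent.H86N (CoreN)

variable {K : Type*} [Field K] {V : Type*} [AddCommGroup V] [Module K V]

variable {L : Submodule K (Module.End K V)}

/-- Chunk K2a. Let `S` be the set of `y ∈ Lm` for which there is a linear form
`λ : End V → K` with `x y x = λ(x) x` for all `x ∈ Lp`. It is a subspace. `f ∈ S`: choose a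
linear form `φ` on `End V` with `φ e = 1` and put `λ X = φ (e f X f e)`; by `K0_ext`,
`e f x f e = c e`, `c = λ x`, and the hypothesis gives `x f x = λ(x) x`. `S` is stable under
`L0`: for `Z ∈ L0`, `y ∈ S`, put `x' = Z x - x Z ∈ Lp`; polarising,
`x y x' + x' y x = λ(x) x' + λ(x') x`, and the left side is `- x (Z y - y Z) x + Z (x y x) -
(x y x) Z = - x (Z y - y Z) x + λ(x) x'`, so `x (Z y - y Z) x = - λ(Z x - x Z) x`. By `A3_irr'`
(`f ≠ 0`) `S = Lm`. -/
theorem K2_form [CharZero K] [IsAlgClosed K] [FiniteDimensional K V] [Nontrivial V]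
    (h : CoreN L) {s e f : Module.End K V} (F : Frame L s e f)
    (hq : ∀ x ∈ Lp L s, ∀ c : K, e * f * x * (f * e) = c • e → x * f * x = c • x)
    {y : Module.End K V} (hy : y ∈ Lm L s) :
    ∃ l : Module.End K V →ₗ[K] K, ∀ x ∈ Lp L s, x * y * x = l x • x := by
  let S : Submodule K (Module.End K V) :=
    { carrier := {y | y ∈ Lm L s ∧ ∃ l : Module.End K V →ₗ[K] K, ∀ x ∈ Lp L s,
        x * y * x = l x • x}
      add_mem' := by
        rintro a b ⟨h1, l, h2⟩ ⟨h3, m, h4⟩
        refine ⟨(Lm L s).add_mem h1 h3, l + m, fun x hx => ?_⟩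
        rw [mul_add, add_mul, h2 x hx, h4 x hx, LinearMap.add_apply, add_smul]
      zero_mem' := ⟨(Lm L s).zero_mem, 0, fun x hx => by simp⟩
      smul_mem' := by
        rintro c a ⟨h1, l, h2⟩
        refine ⟨(Lm L s).smul_mem c h1, c • l, fun x hx => ?_⟩
        rw [mul_smul_comm, smul_mul_assoc, h2 x hx, LinearMap.smul_apply, smul_smul, smul_eq_mul] }
  have hfS : f ∈ S := by
    refine ⟨F.f_mem, ?_⟩
    have h1 : ∃ φ : Module.Dual K (Module.End K V), φ e ≠ 0 := by
      by_contra hcon
      push Not at hcon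
      exact F.e_ne ((Module.forall_dual_apply_eq_zero_iff K e).1 hcon)
    obtain ⟨φ, hφ⟩ := h1
    refine ⟨((φ e)⁻¹ • φ) ∘ₗ (LinearMap.mulRight K (f * e)) ∘ₗ (LinearMap.mulLeft K (e * f)),
      fun x hx => ?_⟩
    obtain ⟨c, hc⟩ := K0_ext h.lie F hx.1
    have h2 := hq x hx c hc
    rw [h2]
    congr 1
    change c = (φ e)⁻¹ * φ (e * f * x * (f * e))
    rw [hc, map_smul, smul_eq_mul, mul_comm c, ← mul_assoc, inv_mul_cancel₀ hφ, one_mul]
  have hst : ∀ Z ∈ L0 L s, ∀ Y ∈ S, Z * Y - Y * Z ∈ S := by
    rintro Z hZ y ⟨hy, l, hl⟩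
    refine ⟨A3_0m h hZ hy, -(l ∘ₗ (LinearMap.mulLeft K Z - LinearMap.mulRight K Z)),
      fun x hx => ?_⟩
    have hx' := A3_0p h hZ hx
    have h1 : x * y * (Z * x - x * Z) + (Z * x - x * Z) * y * x =
        l x • (Z * x - x * Z) + l (Z * x - x * Z) • x := by
      have h2 := hl _ ((Lp L s).add_mem hx hx')
      generalize Z * x - x * Z = x' at hx' h2
      have e1 : (x + x') * y * (x + x') = x * y * x + x' * y * x' + (x * y * x' + x' * y * x) := by
        noncomm_ring
      rw [e1, hl x hx, hl x' hx', map_add] at h2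
      have e2 : x * y * x' + x' * y * x = (l x • x + l x' • x' + (x * y * x' + x' * y * x)) -
          (l x • x + l x' • x') := by abel
      rw [e2, h2]
      module
    have h3 : x * (Z * y - y * Z) * x = Z * (x * y * x) - (x * y * x) * Z -
        (x * y * (Z * x - x * Z) + (Z * x - x * Z) * y * x) := by noncomm_ring
    rw [h3, h1, hl x hx, mul_smul_comm, smul_mul_assoc]
    change _ = (-(l (Z * x - x * Z))) • x
    module
  have hS : S = Lm L s := by
    refine A3_irr' h F.s_mem F.s_sq (fun x hx => hx.1) ?_ hst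
    intro h0
    rw [h0, Submodule.mem_bot] at hfS
    have := F.efe
    rw [hfS, mul_zero, zero_mul] at this
    exact F.e_ne this.symm
  have hyS : y ∈ S := by rw [hS]; exact hy
  exact hyS.2

/-- Chunk K2. By `K1_quad` and `K2_form`, `x y x = λ_y(x) x` for all `x ∈ Lp`, `y ∈ Lm`, hence
(polarise) (*) `x y x' + x' y x = λ_y(x) x' + λ_y(x') x`.
Claim: `b e b = 0` for `b ∈ J1 L (-s) f e` (i.e. `b ∈ Lm`, `f e b + b (e f) = b`). Multiply by
`f e` on the left and `e f` on the right: `f e b e f = 0`, so `e b e = e (f e b e f) e = 0` and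
`λ_b(e) = 0` (`e ≠ 0`). By (*) with `x' = e`: `x b e + e b x = λ_b(x) e`. Multiply on the right by
`b` and take traces: `tr (x b e b) + tr (e b x b) = 2 tr (x (b e b)) = λ_b(x) tr (e b)` and
`tr (e b) = tr (e f e b) = tr (f e b e) = 0`. So `tr (x (b e b)) = 0` for all `x ∈ Lp` and
`b e b = 0` by `A2_nondeg'` (`b e b ∈ Lm`, `IsLie.sandwich`).
Hence `K1_quad` and `K2_form` apply to the frame `(-s, f, e)` (`K0_swap`, `K0_Lp`, `K0_Lm`):
`y x y = μ_x(y) y`. Finally `λ_y(x) = μ_x(y)` if `x, y ≠ 0`:
`(y x)(y x) = y (x y x) = λ_y(x) y x = (y x y) x = μ_x(y) y x`, so they are equal if `y x ≠ 0`; if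
`y x = 0`, then `λ_y(x) x = x y x = 0` and `μ_x(y) y = 0`, both scalars vanish. If `x = 0` or
`y = 0` choose the other scalar. -/
theorem K2_all [CharZero K] [IsAlgClosed K] [FiniteDimensional K V] [Nontrivial V]
    (h : CoreN L) {s e f : Module.End K V} (F : Frame L s e f)
    (ha : ∀ u ∈ J1 L s e f, u * f * u = 0) {x y : Module.End K V} (hx : x ∈ Lp L s)
    (hy : y ∈ Lm L s) : ∃ c : K, x * y * x = c • x ∧ y * x * y = c • y := by
  have hq := fun (x : Module.End K V) (hx : x ∈ Lp L s) (c : K)
    (hc : e * f * x * (f * e) = c • e) => K1_quad h F ha hx hc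
  have hb : ∀ b ∈ J1 L (-s) f e, b * e * b = 0 := by
    rintro b ⟨hb, hbe⟩
    rw [K0_Lp] at hb
    obtain ⟨l, hl⟩ := K2_form h F hq hb
    have h1 : f * e * b * (e * f) = 0 := by
      have i1 : (f * e) * (f * e) = f * e := by
        calc (f * e) * (f * e) = (f * e * f) * e := by noncomm_ring
          _ = f * e := by rw [F.fef]
      have i2 : (e * f) * (e * f) = e * f := by
        calc (e * f) * (e * f) = (e * f * e) * f := by noncomm_ring
          _ = e * f := by rw [F.efe]
      have h2 : f * e * b * (e * f) = f * e * b * (e * f) + f * e * b * (e * f) := by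
        nth_rw 1 [← hbe]
        calc f * e * (f * e * b + b * (e * f)) * (e * f) =
            ((f * e) * (f * e)) * b * (e * f) + f * e * b * ((e * f) * (e * f)) := by noncomm_ring
          _ = _ := by rw [i1, i2]
      exact left_eq_add.1 h2
    have h2 : e * b * e = 0 := by
      calc e * b * e = (e * f * e) * b * (e * f * e) := by rw [F.efe]
        _ = e * (f * e * b * (e * f)) * e := by noncomm_ring
        _ = 0 := by rw [h1, mul_zero, zero_mul]
    have h3 : l e = 0 := by
      have h4 := hl e F.e_mem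
      rw [h2] at h4
      exact (smul_eq_zero.1 h4.symm).resolve_right F.e_ne
    have htr : LinearMap.trace K V (e * b) = 0 := by
      calc LinearMap.trace K V (e * b) = LinearMap.trace K V (e * (f * e * b)) := by
            congr 1
            calc e * b = (e * f * e) * b := by rw [F.efe]
              _ = _ := by noncomm_ring
        _ = LinearMap.trace K V ((f * e * b) * e) := LinearMap.trace_mul_comm K _ _
        _ = LinearMap.trace K V (f * (e * b * e)) := by congr 1
        _ = 0 := by rw [h2, mul_zero, map_zero]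
    apply A2_nondeg' h F.s_mem F.s_sq
    · refine ⟨h.lie.sandwich hb.1 (A2_mm hb hb) F.e_mem.1, ?_, ?_⟩
      · rw [← mul_assoc, ← mul_assoc, hb.2.1, neg_mul, neg_mul]
      · rw [mul_assoc, hb.2.2]
    · intro x hx
      have h4 : x * b * e + e * b * x = l x • e := by
        have h5 := hl _ ((Lp L s).add_mem hx F.e_mem)
        have e1 : (x + e) * b * (x + e) = x * b * x + e * b * e + (x * b * e + e * b * x) := by
          noncomm_ring
        rw [e1, hl x hx, h2, map_add, h3, add_zero, add_zero, smul_add] at h5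
        exact add_left_cancel h5
      have h5 : LinearMap.trace K V (x * b * e * b + e * b * x * b) = 0 := by
        have e1 : x * b * e * b + e * b * x * b = (x * b * e + e * b * x) * b := by noncomm_ring
        rw [e1, h4, smul_mul_assoc, map_smul, htr, smul_zero]
      have h6 : LinearMap.trace K V (e * b * x * b) = LinearMap.trace K V (x * (b * e * b)) := by
        calc LinearMap.trace K V (e * b * x * b) = LinearMap.trace K V ((e * b) * (x * b)) := by
              congr 1
          _ = LinearMap.trace K V ((x * b) * (e * b)) := LinearMap.trace_mul_comm K _ _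
          _ = _ := by congr 1
      have h7 : LinearMap.trace K V (x * b * e * b) = LinearMap.trace K V (x * (b * e * b)) := by
        congr 1
      rw [map_add, h6, h7] at h5
      have h8 : (2 : K) * LinearMap.trace K V (x * (b * e * b)) = 0 := by rw [two_mul]; exact h5
      exact (mul_eq_zero.1 h8).resolve_left (by norm_num)
  have F' := K0_swap h.lie F
  have hq' := fun (x : Module.End K V) (hx : x ∈ Lp L (-s)) (c : K)
    (hc : f * e * x * (e * f) = c • f) => K1_quad h F' hb hx hc
  obtain ⟨l, hl⟩ := K2_form h F hq hy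
  obtain ⟨m, hm⟩ := K2_form h F' hq' (y := x) (by rw [K0_Lm]; exact hx)
  have h1 := hl x hx
  have h2 := hm y (by rw [K0_Lp]; exact hy)
  by_cases hx0 : x = 0
  · exact ⟨m y, by rw [hx0]; simp, h2⟩
  by_cases hy0 : y = 0
  · exact ⟨l x, h1, by rw [hy0]; simp⟩
  refine ⟨l x, h1, ?_⟩
  by_cases hyx : y * x = 0
  · have h3 : l x = 0 := by
      rw [mul_assoc, hyx, mul_zero] at h1
      exact (smul_eq_zero.1 h1.symm).resolve_right hx0
    rw [h3, hyx]
    simp
  · have h3 : (l x - m y) • (y * x) = 0 := by
      have h4 : y * (x * y * x) = (y * x * y) * x := by noncomm_ring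
      rw [h1, h2, mul_smul_comm, smul_mul_assoc] at h4
      rw [sub_smul, h4, sub_self]
    have h4 := (smul_eq_zero.1 h3).resolve_right hyx
    rw [h2, sub_eq_zero.1 h4]

end Pool.Agent.H25U
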