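import Pool.Agent.Lib.H25U.T13

/-!
# T14: ideals are spanned by brackets
-/

set_option autoImplicit false
set_option linter.unusedSectionVars false
namespace Pool.Agent.H25U
open Pool.Agent.H76P Pool.Agent.H76V Pool.Agent.H76Q
open Module Matrix Pool.Agent.H53Toric
open Pool.Agent.H76T (IsIdeal Fam)

variable {κ : Type*} {K : Type*} [Field K] [CharZero K] [Fintype κ] [DecidableEq κ]
  {L : Submodule K (Module.End K (κ → K))} [IsAlgClosed K] [Nonempty κ]

/-- A minimal ideal is spanned by its brackets. -/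
theorem t14_min (h : CmpN L) {m : ℕ} {I : Fin m → Submodule K (Module.End K (κ → K))} (hF : Fam L I) (j : Fin m) :
    I j ≤ Submodule.span K {W | ∃ X ∈ I j, ∃ Y ∈ I j, W = X * Y - Y * X} := by
  have hj := hF.ideal j
  have hle : Submodule.span K {W | ∃ X ∈ I j, ∃ Y ∈ I j, W = X * Y - Y * X} ≤ I j := by
    rw [Submodule.span_le]
    rintro W ⟨X, hX, Y, hY, rfl⟩
    exact hj.2 X (hj.1 hX) Y hY
  have hid : IsIdeal L (Submodule.span K {W | ∃ X ∈ I j, ∃ Y ∈ I j, W = X * Y - Y * X}) := by
    refine ⟨hle.trans hj.1, fun A hA W hW => ?_⟩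
    induction hW using Submodule.span_induction with
    | mem W hW =>
      obtain ⟨X, hX, Y, hY, rfl⟩ := hW
      have e : A * (X * Y - Y * X) - (X * Y - Y * X) * A =
          ((A * X - X * A) * Y - Y * (A * X - X * A)) + (X * (A * Y - Y * A) - (A * Y - Y * A) * X) := by
        simp only [mul_sub, sub_mul, mul_assoc]
        abel
      rw [e]
      exact Submodule.add_mem _ (Submodule.subset_span ⟨_, hj.2 A hA X hX, Y, hY, rfl⟩)
        (Submodule.subset_span ⟨X, hX, _, hj.2 A hA Y hY, rfl⟩)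
    | zero =>
      rw [mul_zero, zero_mul, sub_zero]
      exact Submodule.zero_mem _
    | add a b _ _ ha hb =>
      have e : A * (a + b) - (a + b) * A = (A * a - a * A) + (A * b - b * A) := by noncomm_ring
      rw [e]
      exact Submodule.add_mem _ ha hb
    | smul c a _ ha =>
      have e : A * (c • a) - (c • a) * A = c • (A * a - a * A) := by
        rw [mul_smul_comm, smul_mul_assoc, smul_sub]
      rw [e]
      exact Submodule.smul_mem _ _ ha
  rcases hF.min j _ hid hle with h1 | h1
  · exfalso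
    refine hF.ne_bot j ((Submodule.eq_bot_iff _).2 fun X hX => t4_zero h hF (hj.1 hX) fun i Y hY => ?_)
    by_cases hij : i = j
    · subst hij
      have h2 : X * Y - Y * X ∈ Submodule.span K {W | ∃ X ∈ I i, ∃ Y ∈ I i, W = X * Y - Y * X} :=
        Submodule.subset_span ⟨X, hX, Y, hY, rfl⟩
      rw [h1, Submodule.mem_bot, sub_eq_zero] at h2
      exact h2
    · exact (hF.comm i j hij Y hY X hX).symm
  · exact h1.ge

/-- PROOF. Let `(I j)` be the minimal ideals (`H76T.exists_fam` or however the existence of a `Fam` is called: see `c1_min`, `IsBlock.comp` in H76Q.BL2 for a use).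
The span `[I j, I j]` of the brackets is an ideal in `I j` (Jacobi), so `⊥` or `I j`; in the first case `I j` commutes with itself and with the other
ideals, so with `L` (`Fam.sup`), so it is `0` (`t4_zero`), a contradiction.  Now let `Z` be an ideal, `X ∈ Z`, `X = ∑ X j` with `X j ∈ I j` (`Fam.sup`).  If `X j ≠ 0`, some
`W ∈ I j` does not commute with `X j` (`t4_zero`), and `X W - W X = X j W - W X j ≠ 0` is in `Z ⊓ I j`, an ideal, so `I j ≤ Z` and `X j` is in the span of the brackets of
elements of `I j ≤ Z`. -/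
theorem ideal_span (h : CmpN L) {Z : Submodule K (Module.End K (κ → K))} (hZ : IsIdeal L Z) :
    Z ≤ Submodule.span K {W | ∃ X ∈ Z, ∃ Y ∈ Z, W = X * Y - Y * X} := by
  classical
  obtain ⟨m, I, hF⟩ := H76T.exists_fam h.lie h.irr h.tr
  intro X hX
  have hXL : X ∈ ⨆ j, I j := by
    rw [hF.sup]
    exact hZ.1 hX
  obtain ⟨f, hf, hsum0⟩ := (Submodule.mem_iSup_iff_exists_finsupp I X).1 hXL
  have hsum : ∑ i ∈ f.support, f i = X := hsum0
  rw [← hsum]
  refine Submodule.sum_mem _ fun j _ => ?_
  by_cases h0 : f j = 0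
  · rw [h0]
    exact Submodule.zero_mem _
  have hw : ∃ W ∈ I j, f j * W ≠ W * f j := by
    by_contra hcon
    push Not at hcon
    refine h0 (t4_zero h hF ((hF.ideal j).1 (hf j)) fun i Y hY => ?_)
    by_cases hij : i = j
    · subst hij
      exact hcon Y hY
    · exact (hF.comm i j hij Y hY (f j) (hf j)).symm
  obtain ⟨W, hW, hne⟩ := hw
  have hWL : W ∈ L := (hF.ideal j).1 hW
  have hbr : X * W - W * X = f j * W - W * f j := by
    have h1 : ∀ i ∈ f.support, i ≠ j → f i * W - W * f i = 0 := fun i _ hij =>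
      sub_eq_zero.2 (hF.comm i j hij (f i) (hf i) W hW)
    have h2 : X * W - W * X = ∑ i ∈ f.support, (f i * W - W * f i) := by
      rw [← hsum, Finset.sum_mul, Finset.mul_sum, ← Finset.sum_sub_distrib]
    rw [h2]
    exact Finset.sum_eq_single_of_mem j (Finsupp.mem_support_iff.2 h0) h1
  have hmemZ : f j * W - W * f j ∈ Z := by
    rw [← hbr, ← neg_sub]
    exact Submodule.neg_mem _ (hZ.2 W hWL X hX)
  have hmemI : f j * W - W * f j ∈ I j := (hF.ideal j).2 (f j) ((hF.ideal j).1 (hf j)) W hW
  have hid : IsIdeal L (Z ⊓ I j) := by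
    refine ⟨inf_le_left.trans hZ.1, fun A hA B hB => ⟨hZ.2 A hA B hB.1, (hF.ideal j).2 A hA B hB.2⟩⟩
  have hIZ : I j ≤ Z := by
    rcases hF.min j _ hid inf_le_right with h1 | h1
    · exfalso
      have h2 : f j * W - W * f j ∈ Z ⊓ I j := ⟨hmemZ, hmemI⟩
      rw [h1, Submodule.mem_bot, sub_eq_zero] at h2
      exact hne h2
    · rw [← h1]
      exact inf_le_left
  refine Submodule.span_mono ?_ (t14_min h hF j (hf j))
  rintro V ⟨A, hA, B, hB, rfl⟩
  exact ⟨A, hIZ hA, B, hIZ hB, rfl⟩

end Pool.Agent.H25U
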