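import Pool.Agent.Lib.H25U.K0
import Pool.Agent.Lib.H25U.Defs
import Pool.Agent.Lib.H49M.P0

/-!
# P2: the block decomposition of a grid
-/

set_option autoImplicit false
set_option linter.unusedSectionVars false
namespace Pool.Agent.H25U
open Module Pool.Agent.H53Toric Pool.Agent.H49M
open Pool.Agent.H86N (CoreN)

variable {K : Type*} [Field K] {V : Type*} [AddCommGroup V] [Module K V]

variable {L : Submodule K (Module.End K V)}

/-- As `H49M.P0_block`, membership modulo scalars. -/
theorem P0_block [CharZero K] {L : Submodule K (Module.End K V)} (hl : IsLie L) {m : ℕ}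
    {c : Fin m → Module.End K V} (hc : ∀ i j, c i * c j = if i = j then c i else 0)
    (hsum : ∑ i, c i = 1) {w : Fin m → ℤ} (hD : InW L (∑ i, (w i : K) • c i))
    {X : Module.End K V} (hX : X ∈ L) (n : ℤ) :
    ∑ i, ∑ j, (if w i - w j = n then c i * X * c j else 0) ∈ L := by
  classical
  set D := ∑ i, (w i : K) • c i with hDdef
  have hDc : ∀ i, D * c i = (w i : K) • c i := by
    intro i
    rw [hDdef, Finset.sum_mul]
    simp [hc]
  have hcD : ∀ i, c i * D = (w i : K) • c i := by
    intro i
    rw [hDdef, Finset.mul_sum]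
    simp [hc]
  set F : ℤ → Module.End K V := fun n =>
    ∑ i, ∑ j, (if w i - w j = n then c i * X * c j else 0) with hF
  set T : Module.End K V →ₗ[K] Module.End K V :=
    LinearMap.mulLeft K D - LinearMap.mulRight K D with hT
  have hTapp : ∀ Y, T Y = D * Y - Y * D := fun Y => rfl
  set S : Finset ℤ := (Finset.univ ×ˢ Finset.univ : Finset (Fin m × Fin m)).image
    (fun q => w q.1 - w q.2) with hS
  have hTL : ∀ Y ∈ L, T Y ∈ L := fun Y hY => hD.br hl hY
  have hTF : ∀ n ∈ S, T (F n) = (n : K) • F n := by
    intro k _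
    rw [hF]
    simp only
    rw [map_sum, Finset.smul_sum]
    refine Finset.sum_congr rfl fun i _ => ?_
    rw [map_sum, Finset.smul_sum]
    refine Finset.sum_congr rfl fun j _ => ?_
    split
    · rename_i hk
      rw [hTapp, ← mul_assoc, ← mul_assoc, hDc, mul_assoc _ (c j) D, hcD, smul_mul_assoc,
        smul_mul_assoc, mul_smul_comm, ← sub_smul, ← hk]
      push_cast; rfl
    · rw [map_zero, smul_zero]
  have hsumF : ∑ k ∈ S, F k = X := by
    rw [hF]
    simp only
    rw [Finset.sum_comm]
    have : ∀ i ∈ (Finset.univ : Finset (Fin m)), ∑ k ∈ S, ∑ j, (if w i - w j = k then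
        c i * X * c j else 0) = ∑ j, c i * X * c j := by
      intro i _
      rw [Finset.sum_comm]
      refine Finset.sum_congr rfl fun j _ => ?_
      rw [Finset.sum_ite_eq, if_pos]
      rw [hS, Finset.mem_image]
      exact ⟨(i, j), by simp, rfl⟩
    rw [Finset.sum_congr rfl this]
    simp_rw [← Finset.mul_sum, hsum, mul_one, ← Finset.sum_mul, hsum, one_mul]
  by_cases hn : n ∈ S
  · exact P0_elim L T hTL S F hTF (by rw [hsumF]; exact hX) n hn
  · have : F n = 0 := by
      rw [hF]
      simp only
      refine Finset.sum_eq_zero fun i _ => Finset.sum_eq_zero fun j _ => ?_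
      rw [if_neg]
      intro h
      apply hn
      rw [hS, Finset.mem_image]
      exact ⟨(i, j), by simp, h⟩
    change F n ∈ L
    rw [this]; exact L.zero_mem

/-- The block components of `L`. -/
theorem P2_aux [CharZero K] (hl : IsLie L) {p q : Fin 3 → Module.End K V}
    (hpp : ∀ i j, p i * p j = if i = j then p i else 0)
    (hqq : ∀ i j, q i * q j = if i = j then q i else 0)
    (hpq : ∀ i j, p i * q j = 0) (hqp : ∀ i j, q i * p j = 0)
    (hsum : p 0 + p 1 + p 2 + (q 0 + q 1 + q 2) = 1)
    (hmem : ∀ i, InW L (p i - q i)) {X : Module.End K V} (hX : X ∈ L) (n : ℤ) :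
    ∑ i, ∑ j, (if (![1, 10, 100, -1, -10, -100] : Fin 6 → ℤ) i -
      (![1, 10, 100, -1, -10, -100] : Fin 6 → ℤ) j = n then
      (![p 0, p 1, p 2, q 0, q 1, q 2] : Fin 6 → Module.End K V) i * X *
      (![p 0, p 1, p 2, q 0, q 1, q 2] : Fin 6 → Module.End K V) j else 0) ∈ L := by
  refine P0_block hl (c := ![p 0, p 1, p 2, q 0, q 1, q 2]) ?_ ?_
    (w := ![1, 10, 100, -1, -10, -100]) ?_ hX n
  · intro i j
    fin_cases i <;> fin_cases j <;> simp [hpp, hqq, hpq, hqp]
  · rw [← hsum]
    simp [Fin.sum_univ_succ]
    abel
  · have h1 : ∑ i, (((![1, 10, 100, -1, -10, -100] : Fin 6 → ℤ) i : ℤ) : K) •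
        (![p 0, p 1, p 2, q 0, q 1, q 2] : Fin 6 → Module.End K V) i =
        (p 0 - q 0) + (10 : K) • (p 1 - q 1) + (100 : K) • (p 2 - q 2) := by
      simp [Fin.sum_univ_succ]
      module
    rw [h1]
    exact ((hmem 0).add (InW.smul _ (hmem 1))).add (InW.smul _ (hmem 2))

/-- Chunk P2. The idempotents: `e f`, `e' f'` are idempotent, orthogonal (`e f e' = 0`), absorbed
by `(1+s)/2`; same on the other side. `adj s = -s`, `adj (e f) = adj f adj e = f e` (`A0_mul`,
`Core.skew`). `mem`: `p 1 - q 1 = e f - f e`, `p 2 - q 2 = e' f' - f' e'` (`K0_H`) and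
`p 0 - q 0 = s - (p 1 - q 1) - (p 2 - q 2)`. The other fields follow from `P0_block` with
`c = (p 0, p 1, p 2, q 0, q 1, q 2)` (`Fin 6`) and weights `(1, 10, 100, -1, -10, -100)`:
`D = (p 0 - q 0) + 10 (p 1 - q 1) + 100 (p 2 - q 2)`; the difference `w (p i) - w (p j)`, `i ≠ j`,
occurs only for `p i X p j` and `q j X q i`, the difference `w (p i) + w (p j)` only for
`p i X q j`, `p j X q i`, and `0` only for the diagonal blocks. -/
theorem P2_blocks [CharZero K] (h : CoreN L) {s e f e' f' u : Module.End K V}
    (G : Grid L s e f e' f' u) : BlocksN L (pp s e f e' f') (qq s e f e' f') := by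
  obtain ⟨P, hP⟩ : ∃ P : Module.End K V, P = (1 / 2 : K) • (1 + s) := ⟨_, rfl⟩
  obtain ⟨Q, hQ⟩ : ∃ Q : Module.End K V, Q = (1 / 2 : K) • (1 - s) := ⟨_, rfl⟩
  have hs2 := G.F.s_sq
  have hPP : P * P = P := by
    rw [hP, smul_mul_smul_comm]
    have : (1 + s) * (1 + s) = (2 : K) • (1 + s) := by
      have e1 : (1 + s) * (1 + s) = 1 + s + s + s * s := by noncomm_ring
      rw [e1, hs2, two_smul]; abel
    rw [this, smul_smul]; norm_num
  have hQQ : Q * Q = Q := by
    rw [hQ, smul_mul_smul_comm]
    have : (1 - s) * (1 - s) = (2 : K) • (1 - s) := by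
      have e1 : (1 - s) * (1 - s) = 1 - s - s + s * s := by noncomm_ring
      rw [e1, hs2, two_smul]; abel
    rw [this, smul_smul]; norm_num
  have hPQ : P * Q = 0 := by
    rw [hP, hQ, smul_mul_smul_comm]
    have e1 : (1 + s) * (1 - s) = 1 - s * s := by noncomm_ring
    rw [e1, hs2, sub_self, smul_zero]
  have hQP : Q * P = 0 := by
    rw [hP, hQ, smul_mul_smul_comm]
    have e1 : (1 - s) * (1 + s) = 1 - s * s := by noncomm_ring
    rw [e1, hs2, sub_self, smul_zero]
  have hPpQ : P + Q = 1 := by
    rw [hP, hQ, ← smul_add]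
    have : (1 + s + (1 - s)) = (2 : K) • (1 : Module.End K V) := by rw [two_smul]; abel
    rw [this, smul_smul]; norm_num
  -- absorption
  have aP : ∀ {X : Module.End K V}, s * X = X → P * X = X := by
    intro X hX
    rw [hP, smul_mul_assoc, add_mul, one_mul, hX, ← two_smul K, smul_smul]; norm_num
  have aP' : ∀ {X : Module.End K V}, X * s = X → X * P = X := by
    intro X hX
    rw [hP, mul_smul_comm, mul_add, mul_one, hX, ← two_smul K, smul_smul]; norm_num
  have aQ : ∀ {X : Module.End K V}, s * X = -X → Q * X = X := by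
    intro X hX
    rw [hQ, smul_mul_assoc, sub_mul, one_mul, hX, sub_neg_eq_add, ← two_smul K, smul_smul]
    norm_num
  have aQ' : ∀ {X : Module.End K V}, X * s = -X → X * Q = X := by
    intro X hX
    rw [hQ, mul_smul_comm, mul_sub, mul_one, hX, sub_neg_eq_add, ← two_smul K, smul_smul]
    norm_num
  have ePe : P * e = e := aP G.F.e_mem.2.1
  have eQe : e * Q = e := aQ' G.F.e_mem.2.2
  have fQf : Q * f = f := aQ G.F.f_mem.2.1
  have fPf : f * P = f := aP' G.F.f_mem.2.2
  have ePe' : P * e' = e' := aP G.F'.e_mem.2.1
  have eQe' : e' * Q = e' := aQ' G.F'.e_mem.2.2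
  have fQf' : Q * f' = f' := aQ G.F'.f_mem.2.1
  have fPf' : f' * P = f' := aP' G.F'.f_mem.2.2
  -- idempotents
  have t1 : e * f * (e * f) = e * f := by rw [← mul_assoc, G.F.efe]
  have t2 : e' * f' * (e' * f') = e' * f' := by rw [← mul_assoc, G.F'.efe]
  have t3 : e * f * (e' * f') = 0 := by
    rw [mul_assoc, ← mul_assoc f, G.o4, zero_mul, mul_zero]
  have t4 : e' * f' * (e * f) = 0 := by
    rw [mul_assoc, ← mul_assoc f', G.o2, zero_mul, mul_zero]
  have t5 : P * (e * f) = e * f := by rw [← mul_assoc, ePe]
  have t6 : e * f * P = e * f := by rw [mul_assoc, fPf]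
  have t7 : P * (e' * f') = e' * f' := by rw [← mul_assoc, ePe']
  have t8 : e' * f' * P = e' * f' := by rw [mul_assoc, fPf']
  have r1 : f * e * (f * e) = f * e := by rw [← mul_assoc, G.F.fef]
  have r2 : f' * e' * (f' * e') = f' * e' := by rw [← mul_assoc, G.F'.fef]
  have r3 : f * e * (f' * e') = 0 := by
    rw [mul_assoc, ← mul_assoc e, G.o1, zero_mul, mul_zero]
  have r4 : f' * e' * (f * e) = 0 := by
    rw [mul_assoc, ← mul_assoc e', G.o3, zero_mul, mul_zero]
  have r5 : Q * (f * e) = f * e := by rw [← mul_assoc, fQf]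
  have r6 : f * e * Q = f * e := by rw [mul_assoc, eQe]
  have r7 : Q * (f' * e') = f' * e' := by rw [← mul_assoc, fQf']
  have r8 : f' * e' * Q = f' * e' := by rw [mul_assoc, eQe']
  have epp : pp s e f e' f' = ![P - e * f - e' * f', e * f, e' * f'] := by rw [pp, hP]
  have eqq : qq s e f e' f' = ![Q - f * e - f' * e', f * e, f' * e'] := by rw [qq, hQ]
  obtain ⟨p, hp⟩ : ∃ p, p = pp s e f e' f' := ⟨_, rfl⟩
  obtain ⟨q, hq⟩ : ∃ q, q = qq s e f e' f' := ⟨_, rfl⟩
  have p0 : p 0 = P - e * f - e' * f' := by rw [hp, epp]; rfl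
  have p1 : p 1 = e * f := by rw [hp, epp]; rfl
  have p2 : p 2 = e' * f' := by rw [hp, epp]; rfl
  have q0 : q 0 = Q - f * e - f' * e' := by rw [hq, eqq]; rfl
  have q1 : q 1 = f * e := by rw [hq, eqq]; rfl
  have q2 : q 2 = f' * e' := by rw [hq, eqq]; rfl
  rw [← hp, ← hq]
  have hpp : ∀ i j, p i * p j = if i = j then p i else 0 := by
    intro i j
    fin_cases i <;> fin_cases j <;>
      simp [p0, p1, p2, sub_mul, mul_sub, hPP, t1, t2, t3, t4, t5, t6, t7, t8]
  have hqq : ∀ i j, q i * q j = if i = j then q i else 0 := by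
    intro i j
    fin_cases i <;> fin_cases j <;>
      simp [q0, q1, q2, sub_mul, mul_sub, hQQ, r1, r2, r3, r4, r5, r6, r7, r8]
  have hpP : ∀ i, p i * P = p i ∧ P * p i = p i := by
    intro i
    fin_cases i <;> simp [p0, p1, p2, sub_mul, mul_sub, hPP, t5, t6, t7, t8]
  have hqQ : ∀ i, q i * Q = q i ∧ Q * q i = q i := by
    intro i
    fin_cases i <;> simp [q0, q1, q2, sub_mul, mul_sub, hQQ, r5, r6, r7, r8]
  have hpq : ∀ i j, p i * q j = 0 := by
    intro i j
    rw [← (hpP i).1, ← (hqQ j).2, mul_assoc, ← mul_assoc P, hPQ, zero_mul, mul_zero]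
  have hqp : ∀ i j, q i * p j = 0 := by
    intro i j
    rw [← (hqQ i).1, ← (hpP j).2, mul_assoc, ← mul_assoc Q, hQP, zero_mul, mul_zero]
  have hsum : p 0 + p 1 + p 2 + (q 0 + q 1 + q 2) = 1 := by
    rw [p0, p1, p2, q0, q1, q2, ← hPpQ]; abel
  have hl := h.lie
  have H1 : e * f - f * e ∈ L := K0_H hl G.F
  have H2 : e' * f' - f' * e' ∈ L := K0_H hl G.F'
  have hmem : ∀ i, InW L (p i - q i) := by
    have h0 : p 0 - q 0 = s - (e * f - f * e) - (e' * f' - f' * e') := by
      have : s = P - Q := by
        rw [hP, hQ, ← smul_sub]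
        have : (1 + s - (1 - s)) = (2 : K) • s := by rw [two_smul]; abel
        rw [this, smul_smul]; norm_num
      rw [this, p0, q0]; abel
    intro i
    fin_cases i
    · change InW L (p 0 - q 0)
      rw [h0]
      exact (G.F.s_mem.mem.sub (InW.of_mem H1)).sub (InW.of_mem H2)
    · change InW L (p 1 - q 1)
      rw [p1, q1]; exact InW.of_mem H1
    · change InW L (p 2 - q 2)
      rw [p2, q2]; exact InW.of_mem H2
  have key := fun {X : Module.End K V} (hX : X ∈ L) (n : ℤ) =>
    P2_aux hl hpp hqq hpq hqp hsum hmem hX n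
  refine ⟨hpp, hqq, hpq, hqp, hsum, hmem, ?_, ?_, ?_, ?_, ?_, ?_⟩
  · intro X hX i j hij
    fin_cases i <;> fin_cases j
    · exact absurd rfl hij
    · have := key hX (-9)
      simp [Fin.sum_univ_succ] at this
      first | (simpa using this) | (rw [add_comm]; simpa using this)
    · have := key hX (-99)
      simp [Fin.sum_univ_succ] at this
      first | (simpa using this) | (rw [add_comm]; simpa using this)
    · have := key hX 9
      simp [Fin.sum_univ_succ] at this
      first | (simpa using this) | (rw [add_comm]; simpa using this)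
    · exact absurd rfl hij
    · have := key hX (-90)
      simp [Fin.sum_univ_succ] at this
      first | (simpa using this) | (rw [add_comm]; simpa using this)
    · have := key hX 99
      simp [Fin.sum_univ_succ] at this
      first | (simpa using this) | (rw [add_comm]; simpa using this)
    · have := key hX 90
      simp [Fin.sum_univ_succ] at this
      first | (simpa using this) | (rw [add_comm]; simpa using this)
    · exact absurd rfl hij
  · intro X hX i j hij
    fin_cases i <;> fin_cases j
    · exact absurd rfl hij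
    · have := key hX 11
      simp [Fin.sum_univ_succ] at this
      first | (simpa using this) | (rw [add_comm]; simpa using this)
    · have := key hX 101
      simp [Fin.sum_univ_succ] at this
      first | (simpa using this) | (rw [add_comm]; simpa using this)
    · have := key hX 11
      simp [Fin.sum_univ_succ] at this
      first | (simpa using this) | (rw [add_comm]; simpa using this)
    · exact absurd rfl hij
    · have := key hX 110
      simp [Fin.sum_univ_succ] at this
      first | (simpa using this) | (rw [add_comm]; simpa using this)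
    · have := key hX 101
      simp [Fin.sum_univ_succ] at this
      first | (simpa using this) | (rw [add_comm]; simpa using this)
    · have := key hX 110
      simp [Fin.sum_univ_succ] at this
      first | (simpa using this) | (rw [add_comm]; simpa using this)
    · exact absurd rfl hij
  · intro X hX i j hij
    fin_cases i <;> fin_cases j
    · exact absurd rfl hij
    · have := key hX (-11)
      simp [Fin.sum_univ_succ] at this
      first | (simpa using this) | (rw [add_comm]; simpa using this)
    · have := key hX (-101)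
      simp [Fin.sum_univ_succ] at this
      first | (simpa using this) | (rw [add_comm]; simpa using this)
    · have := key hX (-11)
      simp [Fin.sum_univ_succ] at this
      first | (simpa using this) | (rw [add_comm]; simpa using this)
    · exact absurd rfl hij
    · have := key hX (-110)
      simp [Fin.sum_univ_succ] at this
      first | (simpa using this) | (rw [add_comm]; simpa using this)
    · have := key hX (-101)
      simp [Fin.sum_univ_succ] at this
      first | (simpa using this) | (rw [add_comm]; simpa using this)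
    · have := key hX (-110)
      simp [Fin.sum_univ_succ] at this
      first | (simpa using this) | (rw [add_comm]; simpa using this)
    · exact absurd rfl hij
  · intro X hX i
    fin_cases i
    · have := key hX 2
      simp [Fin.sum_univ_succ] at this
      simpa using this
    · have := key hX 20
      simp [Fin.sum_univ_succ] at this
      simpa using this
    · have := key hX 200
      simp [Fin.sum_univ_succ] at this
      simpa using this
  · intro X hX i
    fin_cases i
    · have := key hX (-2)
      simp [Fin.sum_univ_succ] at this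
      simpa using this
    · have := key hX (-20)
      simp [Fin.sum_univ_succ] at this
      simpa using this
    · have := key hX (-200)
      simp [Fin.sum_univ_succ] at this
      simpa using this
  · intro X hX
    have := key hX 0
    simp [Fin.sum_univ_succ] at this
    simpa [add_assoc] using this

end Pool.Agent.H25U
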