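import Pool.Agent.Lib.H25U.P6
import Pool.Agent.Lib.H25U.P5

/-!
# R1: the blocks in rank two
-/

set_option autoImplicit false
set_option linter.unusedSectionVars false
namespace Pool.Agent.H25U
open Module Pool.Agent.H53Toric Pool.Agent.H49M
open Pool.Agent.H86N (CoreN)

section lin
variable {K : Type*} [Field K] {U : Type*} [AddCommGroup U] [Module K U]

/-- Cayley-Hamilton in dimension two. -/
theorem r1_CH [FiniteDimensional K U] (hdim : finrank K U = 2) (a : Module.End K U) :
    ∃ d : K, a * a - LinearMap.trace K U a • a = d • 1 := by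
  have b := Module.finBasisOfFinrankEq K U hdim
  refine ⟨-(LinearMap.toMatrix b b a).det, ?_⟩
  apply (LinearMap.toMatrix b b).injective
  rw [map_sub, map_smul, map_smul, LinearMap.toMatrix_mul, LinearMap.toMatrix_one, LinearMap.trace_eq_matrix_trace K b]
  ext i j
  rw [Matrix.det_fin_two, Matrix.trace_fin_two]
  fin_cases i <;> fin_cases j <;>
    simp [Matrix.mul_apply, Fin.sum_univ_two] <;> ring

/-- A linear family of pairs of operators of a plane with scalar products, not all scalar, which contains the pair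
`(1, -1)`. -/
theorem r1_two [CharZero K] [FiniteDimensional K U] (hdim : finrank K U = 2)
    (W : Submodule K (Module.End K U × Module.End K U)) (h1 : ∀ w ∈ W, ∃ c : K, w.1 * w.2 = c • 1)
    (hns : ∃ w ∈ W, ∀ t : K, w.1 ≠ t • 1) (h0 : (1, -1) ∈ W) :
    ∀ w ∈ W, w.2 = w.1 - LinearMap.trace K U w.1 • 1 := by
  -- the second operator differs from the first by a scalar
  have hpol : ∀ w ∈ W, ∃ t : K, w.2 = w.1 + t • 1 := by
    rintro ⟨a, b⟩ hw
    obtain ⟨c, hc⟩ := h1 _ hw
    obtain ⟨c', hc'⟩ := h1 _ (W.add_mem hw h0)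
    simp only [Prod.fst_add, Prod.snd_add] at hc hc' ⊢
    refine ⟨c' - c + 1, ?_⟩
    have e1 : (a + 1) * (b + -1) = a * b - a + b - 1 := by noncomm_ring
    rw [e1, hc] at hc'
    have e2 : b = c' • (1 : Module.End K U) - c • 1 + a + 1 := by rw [← hc']; abel
    rw [e2, add_smul, sub_smul, one_smul]
    abel
  -- every operator satisfies a quadratic equation
  have hquad : ∀ w ∈ W, ∃ t c : K, w.2 = w.1 + t • 1 ∧ w.1 * w.1 + t • w.1 = c • 1 := by
    intro w hw
    obtain ⟨t, ht⟩ := hpol w hw
    obtain ⟨c, hc⟩ := h1 w hw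
    refine ⟨t, c, ht, ?_⟩
    rw [ht, mul_add, mul_smul_comm, mul_one] at hc
    exact hc
  have hns' : ∀ w ∈ W, (∀ t : K, w.1 ≠ t • 1) → w.2 = w.1 - LinearMap.trace K U w.1 • 1 := by
    intro w hw hn
    obtain ⟨t, c, ht, hq⟩ := hquad w hw
    obtain ⟨d, hd⟩ := r1_CH hdim w.1
    have e1 : (t + LinearMap.trace K U w.1) • w.1 = (c - d) • 1 := by
      rw [add_smul, sub_smul, ← hq, ← hd]
      abel
    have e2 : t + LinearMap.trace K U w.1 = 0 := by
      by_contra hne
      apply hn ((t + LinearMap.trace K U w.1)⁻¹ * (c - d))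
      rw [← smul_smul, ← e1, smul_smul, inv_mul_cancel₀ hne, one_smul]
    have e3 : t = -LinearMap.trace K U w.1 := by linear_combination e2
    rw [ht, e3, neg_smul, sub_eq_add_neg]
  obtain ⟨⟨a₀, b₀⟩, hb₀, ha₀⟩ := hns
  rintro ⟨a, b⟩ hw
  by_cases hn : ∀ t : K, a ≠ t • 1
  · exact hns' _ hw hn
  · push Not at hn
    obtain ⟨s, hs⟩ := hn
    have e1 := hns' _ hb₀ ha₀
    have e2 := hns' _ (W.add_mem hw hb₀) (by
      intro t ht
      apply ha₀ (t - s)
      simp only [Prod.fst_add] at ht
      show a₀ = _
      rw [sub_smul, ← ht, ← hs]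
      abel)
    simp only [Prod.fst_add, Prod.snd_add, map_add, add_smul] at e1 e2 ⊢
    rw [e1] at e2
    have e3 : b = a + a₀ - (LinearMap.trace K U a • (1 : Module.End K U) + LinearMap.trace K U a₀ • 1) -
        (a₀ - LinearMap.trace K U a₀ • 1) := by rw [← e2]; abel
    rw [e3]
    abel

/-- A nonzero alternating form on a plane: every operator `a` has the adjoint `tr a - a`. -/
theorem r1_form [FiniteDimensional K U] (hdim : finrank K U = 2) :
    ∃ κ : U →ₗ[K] U →ₗ[K] K, κ ≠ 0 ∧
      ∀ (a : Module.End K U) (v w : U), κ (a v) w + κ v (a w) = LinearMap.trace K U a * κ v w := by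
  have b := Module.finBasisOfFinrankEq K U hdim
  let κ : U →ₗ[K] U →ₗ[K] K := LinearMap.mk₂ K (fun v w => b.repr v 0 * b.repr w 1 - b.repr v 1 * b.repr w 0)
    (by intro x y z; simp; ring) (by intro c x y; simp; ring) (by intro x y z; simp; ring)
    (by intro c x y; simp; ring)
  have hκ : ∀ v w, κ v w = b.repr v 0 * b.repr w 1 - b.repr v 1 * b.repr w 0 := fun v w => rfl
  refine ⟨κ, ?_, ?_⟩
  · intro h0
    have h1 : κ (b 0) (b 1) = 0 := by rw [h0]; rfl
    rw [hκ] at h1
    simp at h1
  · intro a v w
    have ha : ∀ (x : U) (i : Fin 2), b.repr (a x) i = LinearMap.toMatrix b b a i 0 * b.repr x 0 +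
        LinearMap.toMatrix b b a i 1 * b.repr x 1 := by
      intro x i
      have := congrFun (LinearMap.toMatrix_mulVec_repr b b a x) i
      rw [← this, Matrix.mulVec, dotProduct, Fin.sum_univ_two]
    rw [hκ, hκ, hκ, ha, ha, ha, ha, LinearMap.trace_eq_matrix_trace K b, Matrix.trace_fin_two]
    ring

end lin

variable {K : Type*} [Field K] {V : Type*} [AddCommGroup V] [Module K V]
variable {L : Submodule K (Module.End K V)}

/-- In rank two the two parts of a block element are adjugate to each other. -/
theorem r1_adj [CharZero K] [IsAlgClosed K] [FiniteDimensional K V] [Nontrivial V] (h : CoreN L)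
    {s e f e' f' u : Module.End K V} (G : Grid L s e f e' f' u) (hr : finrank K (LinearMap.range e) = 2) :
    ∀ X ∈ L, u * f' * e' * X * f = e * f * X * (u * f) - LinearMap.trace K V (e * f * X * (u * f)) • (e * f) := by
  have hpp : e * f * (e * f) = e * f := by rw [← mul_assoc, G.F.efe]
  obtain ⟨-, g1, g2, -⟩ := P3_u1 h G
  obtain ⟨-, g3, g4⟩ := P3_u2 h G
  obtain ⟨g5, g6⟩ := P3_u12 G
  have hff' : f * f' = 0 := A2_mm G.F.f_mem G.F'.f_mem
  have hf'f : f' * f = 0 := A2_mm G.F'.f_mem G.F.f_mem
  have huu : u * u = 0 := A2_pp G.u_mem G.u_mem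
  have hue : u * e = 0 := A2_pp G.u_mem G.F.e_mem
  have he'e : e' * e = 0 := A2_pp G.F'.e_mem G.F.e_mem
  obtain ⟨p, hp⟩ : ∃ p, p = e * f := ⟨_, rfl⟩
  have hr2 : finrank K (LinearMap.range p) = 2 := by rw [hp, (K0_rank G.F).1, hr]
  have ha1 : ∀ X, p * (p * X * (u * f)) = p * X * (u * f) := by
    intro X
    rw [hp]
    calc e * f * (e * f * X * (u * f)) = (e * f * (e * f)) * X * (u * f) := by noncomm_ring
      _ = _ := by rw [hpp]
  have ha2 : ∀ X, p * X * (u * f) * p = p * X * (u * f) := by
    intro X
    rw [hp]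
    calc e * f * X * (u * f) * (e * f) = e * f * X * (u * f * (e * f)) := by noncomm_ring
      _ = _ := by rw [g4]
  have hb1 : ∀ X, p * (u * f' * e' * X * f) = u * f' * e' * X * f := by
    intro X
    rw [hp]
    calc e * f * (u * f' * e' * X * f) = (e * f * (u * f')) * e' * X * f := by noncomm_ring
      _ = _ := by rw [g1]
  have hb2 : ∀ X, u * f' * e' * X * f * p = u * f' * e' * X * f := by
    intro X
    rw [hp]
    calc u * f' * e' * X * f * (e * f) = u * f' * e' * X * (f * e * f) := by noncomm_ring
      _ = _ := by rw [G.F.fef]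
  have hppp : p * p = p := by rw [hp]; exact hpp
  let W : Submodule K (Module.End K (LinearMap.range p) × Module.End K (LinearMap.range p)) :=
    { carrier := {w | ∃ X ∈ L, w.1 = res p (p * X * (u * f)) ∧ w.2 = res p (u * f' * e' * X * f)}
      add_mem' := by
        rintro w w' ⟨X, hX, h1, h2⟩ ⟨X', hX', h3, h4⟩
        refine ⟨X + X', L.add_mem hX hX', ?_, ?_⟩
        · rw [Prod.fst_add, h1, h3, ← res_add]
          congr 1
          noncomm_ring
        · rw [Prod.snd_add, h2, h4, ← res_add]
          congr 1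
          noncomm_ring
      zero_mem' := ⟨0, L.zero_mem, by simp [res_zero], by simp [res_zero]⟩
      smul_mem' := by
        rintro c w ⟨X, hX, h1, h2⟩
        refine ⟨c • X, L.smul_mem c hX, ?_, ?_⟩
        · rw [Prod.smul_fst, h1, ← res_smul]
          congr 1
          simp only [mul_smul_comm, smul_mul_assoc]
        · rw [Prod.smul_snd, h2, ← res_smul]
          congr 1
          simp only [mul_smul_comm, smul_mul_assoc] }
  have hW := r1_two hr2 W
    (by
      rintro w ⟨X, hX, h1, h2⟩
      obtain ⟨c, hc⟩ := P6_prod h G hX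
      refine ⟨c, ?_⟩
      rw [h1, h2, res_mul (ha2 X)]
      rw [← hp] at hc
      rw [hc, res_smul, res_self hppp])
    (by
      by_contra hcon
      push Not at hcon
      -- all block elements are scalar
      have hsc : ∀ X ∈ L, ∃ t : K, p * X * (u * f) = t • p := by
        intro X hX
        obtain ⟨t, ht⟩ := hcon (res p (p * X * (u * f)), res p (u * f' * e' * X * f)) ⟨X, hX, rfl, rfl⟩
        refine ⟨t, ?_⟩
        simp only at ht
        rw [← res_self hppp, ← res_smul] at ht
        exact res_inj (ha1 X) (ha2 X) (by rw [mul_smul_comm, hppp]) (by rw [smul_mul_assoc, hppp]) ht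
      have hsc2 : ∀ Y ∈ L, ∃ t : K, u * f' * Y * p = t • p := by
        intro Y hY
        have B := P2_blocks h G
        obtain ⟨pp', hpp'⟩ : ∃ p, p = pp s e f e' f' := ⟨_, rfl⟩
        obtain ⟨qq', hqq'⟩ : ∃ q, q = qq s e f e' f' := ⟨_, rfl⟩
        rw [← hpp', ← hqq'] at B
        have p1 : pp' 1 = e * f := by rw [hpp']; rfl
        have p2 : pp' 2 = e' * f' := by rw [hpp']; rfl
        have q1 : qq' 1 = f * e := by rw [hqq']; rfl
        have q2 : qq' 2 = f' * e' := by rw [hqq']; rfl
        have hY' := B.m0 Y hY 2 1 (by decide)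
        rw [p1, p2, q1, q2] at hY'
        obtain ⟨Y', hYd⟩ : ∃ Y', Y' = e' * f' * Y * (e * f) + f * e * Y * (f' * e') := ⟨_, rfl⟩
        rw [← hYd] at hY'
        have hZ : u * f' - f' * u ∈ L := h.lie _ G.u_mem.1 _ G.F'.f_mem.1
        obtain ⟨Z, hZd⟩ : ∃ Z, Z = u * f' - f' * u := ⟨_, rfl⟩
        rw [← hZd] at hZ
        obtain ⟨t, ht⟩ := hsc _ (h.lie _ hZ _ (h.lie _ hZ _ hY'))
        have c1 : p * Z = u * f' := by
          rw [hp, hZd]
          calc e * f * (u * f' - f' * u) = e * f * (u * f') - e * (f * f') * u := by noncomm_ring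
            _ = _ := by rw [g1, hff']; simp
        have c2 : u * f' * Z = 0 := by
          rw [hZd]
          have hf'f' : f' * f' = 0 := A2_mm G.F'.f_mem G.F'.f_mem
          calc u * f' * (u * f' - f' * u) = (u * f' * u) * f' - u * (f' * f') * u := by noncomm_ring
            _ = 0 := by rw [G.ufu', G.o1, hf'f']; simp
        have c3 : Z * (u * f) = p := by
          rw [hZd, hp]
          calc (u * f' - f' * u) * (u * f) = (u * f' * u) * f - f' * (u * u) * f := by noncomm_ring
            _ = _ := by rw [G.ufu', huu]; simp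
        have c4 : Z * p = 0 := by
          rw [hZd, hp]
          calc (u * f' - f' * u) * (e * f) = u * (f' * e) * f - f' * (u * e) * f := by noncomm_ring
            _ = 0 := by rw [G.o2, hue]; simp
        have c5 : u * f' * Y' * p = u * f' * Y * p := by
          rw [hYd, hp]
          calc u * f' * (e' * f' * Y * (e * f) + f * e * Y * (f' * e')) * (e * f) =
                (u * f' * (e' * f')) * Y * (e * f * (e * f)) + u * (f' * f) * e * Y * f' * (e' * e) * f := by
                noncomm_ring
            _ = _ := by rw [g2, hpp, hf'f]; simp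
        have c6 : p * (Z * (Z * Y' - Y' * Z) - (Z * Y' - Y' * Z) * Z) * (u * f) =
            (-2 : K) • (u * f' * Y * p) := by
          calc p * (Z * (Z * Y' - Y' * Z) - (Z * Y' - Y' * Z) * Z) * (u * f) =
                (p * Z * Z) * Y' * (u * f) - p * Z * Y' * (Z * (u * f)) - p * Z * Y' * (Z * (u * f)) +
                p * Y' * (Z * (Z * (u * f))) := by noncomm_ring
            _ = (-2 : K) • (u * f' * Y * p) := by
                rw [c1, c2, c3, c4, c5]
                simp only [zero_mul, mul_zero]
                module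
        rw [c6] at ht
        refine ⟨-(t / 2), ?_⟩
        have c7 : u * f' * Y * p = (-(1 / 2) : K) • ((-2 : K) • (u * f' * Y * p)) := by
          rw [smul_smul]; norm_num
        rw [c7, ht, smul_smul]
        congr 1
        ring
      obtain ⟨a, ha⟩ := Pool.Agent.H86N.q6_nonscalar (K := K) (U := LinearMap.range p) (by omega)
      obtain ⟨T, hT⟩ := res_onto hppp a
      have h1 := P5_all h G T
      have h2 : ∃ t : K, e * f * T * (e * f) = t • p := by
        generalize e * f * T * (e * f) = T' at h1
        induction h1 using NonUnitalAlgebra.adjoin_induction with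
        | mem a ha =>
          obtain ⟨_, ⟨X, hX, rfl⟩, _, ⟨Y, hY, rfl⟩, rfl⟩ := ha
          obtain ⟨t, ht⟩ := hsc X hX
          obtain ⟨t', ht'⟩ := hsc2 Y hY
          refine ⟨t * t', ?_⟩
          calc e * f * X * (e' * f') * (e' * f' * Y * (e * f)) =
                (e * f * X * (u * f)) * (u * f' * (e' * f')) * Y * (e * f) := by
                have : e' * f' = (u * f) * (u * f') := g6.symm
                calc e * f * X * (e' * f') * (e' * f' * Y * (e * f)) =
                      e * f * X * ((e' * f') * (e' * f')) * Y * (e * f) := by noncomm_ring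
                  _ = e * f * X * ((u * f) * (u * f') * (e' * f')) * Y * (e * f) := by rw [← this]
                  _ = _ := by noncomm_ring
            _ = (p * X * (u * f)) * (u * f' * Y * p) := by rw [g2, hp]; noncomm_ring
            _ = _ := by rw [ht, ht', smul_mul_smul_comm, hppp]
        | add a b _ _ h1 h2 =>
          obtain ⟨t, ht⟩ := h1
          obtain ⟨t', ht'⟩ := h2
          exact ⟨t + t', by rw [ht, ht', add_smul]⟩
        | zero => exact ⟨0, by simp⟩
        | mul a b _ _ h1 h2 =>
          obtain ⟨t, ht⟩ := h1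
          obtain ⟨t', ht'⟩ := h2
          exact ⟨t * t', by rw [ht, ht', smul_mul_smul_comm, hppp]⟩
        | smul r a _ h1 =>
          obtain ⟨t, ht⟩ := h1
          exact ⟨r * t, by rw [ht, smul_smul]⟩
      obtain ⟨t, ht⟩ := h2
      apply ha t
      rw [← hT, hp, ht, ← hp, res_smul, res_self hppp])
    (by
      refine ⟨u * f' - f' * u, h.lie _ G.u_mem.1 _ G.F'.f_mem.1, ?_, ?_⟩
      · show (1 : Module.End K (LinearMap.range p)) = _
        rw [← res_self hppp]
        congr 1
        rw [hp]
        symm
        calc e * f * (u * f' - f' * u) * (u * f) = e * f * (u * f') * (u * f) - e * (f * f') * u * (u * f) := by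
              noncomm_ring
          _ = e * f := by rw [hff', g1, g5]; simp
      · show (-1 : Module.End K (LinearMap.range p)) = _
        have h1 : u * f' * e' * (u * f' - f' * u) * f = (-1 : K) • p := by
          calc u * f' * e' * (u * f' - f' * u) * f = u * f' * e' * u * (f' * f) - u * (f' * e' * f') * u * f := by
                noncomm_ring
            _ = -(u * f' * (u * f)) := by rw [hf'f, G.F'.fef]; noncomm_ring
            _ = _ := by rw [g5, hp, neg_one_smul]
        rw [h1, res_smul, res_self hppp]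
        module)
  intro X hX
  have h1 := hW (res p (p * X * (u * f)), res p (u * f' * e' * X * f)) ⟨X, hX, rfl, rfl⟩
  simp only at h1
  rw [res_trace (ha1 X), ← res_self hppp, ← res_smul, sub_eq_add_neg, ← neg_one_smul K, ← res_smul, ← res_add] at h1
  rw [← hp]
  have h2 := res_inj (hb1 X) (hb2 X) (by rw [mul_add, ha1 X, mul_smul_comm, mul_smul_comm, hppp])
    (by rw [add_mul, ha2 X, smul_mul_assoc, smul_mul_assoc, hppp]) h1
  rw [h2, neg_one_smul, ← sub_eq_add_neg]

end Pool.Agent.H25U
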