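import Pool.Agent.Lib.H25U.T2

/-!
# T3: mixing of coordinates
-/

set_option autoImplicit false
set_option linter.unusedSectionVars false
namespace Pool.Agent.H25U
open Pool.Agent.H76P Pool.Agent.H76V Pool.Agent.H76Q
open Module Matrix Pool.Agent.H53Toric
open Pool.Agent.H76T (IsIdeal Fam)
open Pool.Agent.H76V (Cmp alg calg)

variable {κ : Type*} {K : Type*} [Field K] [CharZero K] [Fintype κ] [DecidableEq κ]
  {L : Submodule K (Module.End K (κ → K))} {J : Matrix κ κ K} {ν : κ → ℚ}

/-- Indicators. PROOF. For `c` with `∃ f ∈ S, f c ≠ f b` choose such an `f = f_c`; the product over these `c` of the operators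
`(f_c b - f_c c)⁻¹ • (dq f_c - f_c c • 1)` is `dg` of a function which is `1` at all `d` with `f d = f b` for all `f ∈ S`, and `0` at all
other points. -/
theorem indicator_mem {A : Subalgebra K (Module.End K (κ → K))} {S : Set (κ → ℚ)}
    (hS : ∀ f ∈ S, dq f ∈ A) (b : κ) : ∃ g : κ → K, dg g ∈ A ∧ g b = 1 ∧
      ∀ c, g c ≠ 0 → ∀ f ∈ S, f c = f b := by
  have key : ∀ s : Finset κ, ∃ g : κ → K, dg g ∈ A ∧ g b = 1 ∧
      ∀ c ∈ s, g c ≠ 0 → ∀ f ∈ S, f c = f b := by
    intro s
    induction s using Finset.induction_on with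
    | empty =>
      refine ⟨1, ?_, rfl, fun c hc => absurd hc (Finset.notMem_empty c)⟩
      rw [dg_one]
      exact A.one_mem
    | insert c s hcs ih =>
      obtain ⟨g, hg, hgb, hgs⟩ := ih
      by_cases hc : ∀ f ∈ S, f c = f b
      · refine ⟨g, hg, hgb, fun d hd hgd => ?_⟩
        rcases Finset.mem_insert.1 hd with h1 | h1
        · rw [h1]
          exact hc
        · exact hgs d h1 hgd
      · push Not at hc
        obtain ⟨f, hf, hne⟩ := hc
        have hfb : ((f b : K) - (f c : K)) ≠ 0 := by
          intro h1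
          apply hne
          have h2 : (f b : K) = (f c : K) := sub_eq_zero.1 h1
          exact_mod_cast h2.symm
        have hmem : dg (fun d => ((f b : K) - (f c : K))⁻¹ * ((f d : K) - (f c : K))) ∈ A := by
          have e : dg (fun d => ((f b : K) - (f c : K))⁻¹ * ((f d : K) - (f c : K))) =
              ((f b : K) - (f c : K))⁻¹ • ((dq f : Module.End K (κ → K)) - (f c : K) • 1) := by
            refine LinearMap.ext fun v => funext fun d => ?_
            unfold dq
            simp only [dg_apply, LinearMap.smul_apply, LinearMap.sub_apply, Pi.smul_apply,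
              Pi.sub_apply, Module.End.one_apply, smul_eq_mul]
            ring
          rw [e]
          exact A.smul_mem (A.sub_mem (hS f hf) (A.smul_mem A.one_mem _)) _
        refine ⟨(fun d => ((f b : K) - (f c : K))⁻¹ * ((f d : K) - (f c : K))) * g, ?_, ?_, ?_⟩
        · rw [← dg_mul]
          exact A.mul_mem hmem hg
        · rw [Pi.mul_apply, hgb, mul_one]
          exact inv_mul_cancel₀ hfb
        · intro d hd hgd
          rw [Pi.mul_apply] at hgd
          rcases Finset.mem_insert.1 hd with h1 | h1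
          · exfalso
            apply hgd
            rw [h1]
            show ((f b : K) - (f c : K))⁻¹ * ((f c : K) - (f c : K)) * g c = 0
            rw [sub_self, mul_zero, zero_mul]
          · exact hgs d h1 (right_ne_zero_of_mul hgd)
  obtain ⟨g, h1, h2, h3⟩ := key Finset.univ
  exact ⟨g, h1, h2, fun c hc => h3 c (Finset.mem_univ c) hc⟩

variable [IsAlgClosed K] [Nonempty κ] {m : ℕ} {I : Fin m → Submodule K (Module.End K (κ → K))}

/-- PROOF. `indicator_mem` for `A = alg I j`, `S = {f | dq f ∈ I j}` and `b`: `p = dg g`; and for `A = calg I j`,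
`S = {f | ∃ i ≠ j, dq f ∈ I i}` and `a`: `q = dg g'`.  Both are nonzero (value at `b`, at `a`), so `p * q ≠ 0` by `nonvan`
(`Fam.calg_comm`, `Fam.calg_top`), i.e. there is `c` with `g c ≠ 0`, `g' c ≠ 0`. -/
theorem mix (h : CmpN L) (hF : Fam L I) (j : Fin m) (a b : κ) :
    ∃ c, (∀ f : κ → ℚ, dq f ∈ I j → f c = f b) ∧
      ∀ i, i ≠ j → ∀ f : κ → ℚ, dq f ∈ I i → f c = f a := by
  obtain ⟨g, hg, hgb, hgS⟩ := indicator_mem (A := alg I j)
    (S := {f : κ → ℚ | (dq f : Module.End K (κ → K)) ∈ I j}) (fun f hf => Pool.Agent.H76V.mem_alg hf) b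
  obtain ⟨g', hg', hga, hgS'⟩ := indicator_mem (A := calg I j)
    (S := {f : κ → ℚ | ∃ i, i ≠ j ∧ (dq f : Module.End K (κ → K)) ∈ I i})
    (fun f hf => by
      obtain ⟨i, hij, hfi⟩ := hf
      exact Pool.Agent.H76V.mem_calg hij hfi) a
  have hp0 : dg g ≠ (0 : Module.End K (κ → K)) := by
    intro h0
    have h1 := congrFun (congrArg (fun T : Module.End K (κ → K) => T (Pi.single b 1)) h0) b
    simp only [dg_apply, Pi.single_eq_same, hgb, LinearMap.zero_apply, Pi.zero_apply, mul_one] at h1
    exact one_ne_zero h1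
  have hq0 : dg g' ≠ (0 : Module.End K (κ → K)) := by
    intro h0
    have h1 := congrFun (congrArg (fun T : Module.End K (κ → K) => T (Pi.single a 1)) h0) a
    simp only [dg_apply, Pi.single_eq_same, hga, LinearMap.zero_apply, Pi.zero_apply, mul_one] at h1
    exact one_ne_zero h1
  have hpq := nonvan (Pool.Agent.H76V.Fam.calg_comm hF j) (Pool.Agent.H76V.Fam.calg_top hF h.irr j) hg hg' hp0 hq0
  rw [dg_mul] at hpq
  have hex : ∃ c, (g * g') c ≠ 0 := by
    by_contra hcon
    push Not at hcon
    apply hpq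
    refine LinearMap.ext fun v => funext fun c => ?_
    rw [dg_apply, hcon c, zero_mul]
    rfl
  obtain ⟨c, hc⟩ := hex
  rw [Pi.mul_apply] at hc
  refine ⟨c, fun f hf => hgS c (left_ne_zero_of_mul hc) f hf, fun i hij f hf => ?_⟩
  exact hgS' c (right_ne_zero_of_mul hc) f ⟨i, hij, hf⟩

end Pool.Agent.H25U
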