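import Pool.Agent.Lib.H25U.U0
import Pool.Agent.Lib.H25U.T1

/-!
# T5: weight components
-/

set_option autoImplicit false
set_option linter.unusedSectionVars false
namespace Pool.Agent.H25U
open Module Matrix Pool.Agent.H53Toric
open Pool.Agent.H76P (dg dq dg_apply dg_mul dg_add dg_smul dg_one dg_inj)
open Pool.Agent.H76T (IsIdeal Fam)
open Pool.Agent.H76V (Cmp alg calg)

variable {κ : Type*} {K : Type*} [Field K] [CharZero K] [Fintype κ] [DecidableEq κ]
  {L : Submodule K (Module.End K (κ → K))}

theorem t5_ext {X Y : Module.End K (κ → K)}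
    (h : ∀ c d, LinearMap.toMatrix' X c d = LinearMap.toMatrix' Y c d) : X = Y :=
  LinearMap.toMatrix'.injective (Matrix.ext h)

open Classical in
theorem t5_wc (δ : Module.Dual ℚ (Yo L)) (X : Module.End K (κ → K)) (c d : κ) :
    LinearMap.toMatrix' (wc L δ X) c d =
      if pt L c - pt L d = δ then LinearMap.toMatrix' X c d else 0 := by
  unfold wc
  rw [LinearMap.toMatrix'_toLin', Matrix.of_apply]

theorem t5_left (f : κ → ℚ) (X : Module.End K (κ → K)) (c d : κ) :
    LinearMap.toMatrix' (dq f * X) c d = (f c : K) * LinearMap.toMatrix' X c d := by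
  rw [LinearMap.toMatrix'_apply, LinearMap.toMatrix'_apply]
  rfl

theorem t5_right (f : κ → ℚ) (X : Module.End K (κ → K)) (c d : κ) :
    LinearMap.toMatrix' (X * dq f) c d = (f d : K) * LinearMap.toMatrix' X c d := by
  rw [LinearMap.toMatrix'_apply, LinearMap.toMatrix'_apply, Module.End.mul_apply]
  have h : (dq f : Module.End K (κ → K)) (Pi.single d 1) = (f d : K) • Pi.single d 1 := by
    ext a
    rw [dq, dg_apply, Pi.smul_apply, smul_eq_mul]
    by_cases h : a = d
    · subst h
      rfl
    · rw [Pi.single_eq_of_ne h, mul_zero, mul_zero]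
  have h2 : X ((dq f : Module.End K (κ → K)) (Pi.single d 1)) = (f d : K) • X (Pi.single d 1) := by
    rw [h, map_smul]
  exact congrFun h2 c

/-- the entries of the commutator -/
theorem t5_comm (g : Yo L) (X : Module.End K (κ → K)) (c d : κ) :
    LinearMap.toMatrix' (dq (g : κ → ℚ) * X - X * dq (g : κ → ℚ)) c d =
      (((pt L c - pt L d) g : ℚ) : K) * LinearMap.toMatrix' X c d := by
  rw [map_sub, Matrix.sub_apply, t5_left, t5_right, LinearMap.sub_apply, pt_apply, pt_apply,
    Rat.cast_sub, sub_mul]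

/-- PROOF. Entries: the entry `(c, d)` of the left side is `(g c - g d) x`, and `g c - g d = δ g` where the entry of `wc L δ X` is
not zero. -/
theorem wc_wt (δ : Module.Dual ℚ (Yo L)) (X : Module.End K (κ → K)) : IsWt L δ (wc L δ X) := by
  classical
  intro g
  refine t5_ext fun c d => ?_
  rw [t5_comm, map_smul, Matrix.smul_apply, smul_eq_mul, t5_wc]
  by_cases h : pt L c - pt L d = δ
  · rw [h]
  · rw [if_neg h, mul_zero, mul_zero]

/-- PROOF. Entries: if `X` has weight `δ` and the entry `(c, d)` is not zero then `g c - g d = δ g` for all `g`, so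
`pt L c - pt L d = δ`. -/
theorem IsWt.entry {δ : Module.Dual ℚ (Yo L)} {X : Module.End K (κ → K)} (hX : IsWt L δ X)
    {c d : κ} (h0 : LinearMap.toMatrix' X c d ≠ 0) : pt L c - pt L d = δ := by
  refine LinearMap.ext fun g => ?_
  have h1 := t5_comm g X c d
  rw [hX g, map_smul, Matrix.smul_apply, smul_eq_mul] at h1
  have h2 := mul_right_cancel₀ h0 h1
  exact_mod_cast h2.symm

theorem IsWt.wc_self {δ : Module.Dual ℚ (Yo L)} {X : Module.End K (κ → K)} (hX : IsWt L δ X) :
    wc L δ X = X := by
  classical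
  refine t5_ext fun c d => ?_
  rw [t5_wc]
  by_cases h0 : LinearMap.toMatrix' X c d = 0
  · rw [h0, ite_self]
  · rw [if_pos (hX.entry h0)]

theorem IsWt.wc_other {δ δ' : Module.Dual ℚ (Yo L)} {X : Module.End K (κ → K)}
    (hX : IsWt L δ X) (hne : δ' ≠ δ) : wc L δ' X = 0 := by
  classical
  refine t5_ext fun c d => ?_
  rw [t5_wc, map_zero, Matrix.zero_apply]
  by_cases h0 : LinearMap.toMatrix' X c d = 0
  · rw [h0, ite_self]
  · rw [if_neg]
    intro h
    exact hne (h.symm.trans (hX.entry h0))

theorem IsWt.mul {δ δ' : Module.Dual ℚ (Yo L)} {X X' : Module.End K (κ → K)}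
    (hX : IsWt L δ X) (hX' : IsWt L δ' X') : IsWt L (δ + δ') (X * X') := by
  intro g
  have h1 := hX g
  have h2 := hX' g
  calc dq (g : κ → ℚ) * (X * X') - X * X' * dq (g : κ → ℚ)
      = (dq (g : κ → ℚ) * X - X * dq (g : κ → ℚ)) * X' +
          X * (dq (g : κ → ℚ) * X' - X' * dq (g : κ → ℚ)) := by
        rw [sub_mul, mul_sub]
        simp only [mul_assoc]
        abel
    _ = (((δ + δ') g : ℚ) : K) • (X * X') := by
        rw [h1, h2, LinearMap.add_apply, Rat.cast_add, add_smul, smul_mul_assoc, mul_smul_comm]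

/-- `X` is the sum of its components; the sum is over the finite set of all `pt L c - pt L d`. -/
theorem wc_sum (X : Module.End K (κ → K)) : ∃ s : Finset (Module.Dual ℚ (Yo L)),
    (∀ δ ∉ s, wc L δ X = 0) ∧ ∑ δ ∈ s, wc L δ X = X := by
  classical
  refine ⟨Finset.univ.image fun p : κ × κ => pt L p.1 - pt L p.2, ?_, ?_⟩
  · intro δ hδ
    refine t5_ext fun c d => ?_
    rw [t5_wc, map_zero, Matrix.zero_apply, if_neg]
    intro h
    exact hδ (Finset.mem_image.2 ⟨(c, d), Finset.mem_univ _, h⟩)
  · refine t5_ext fun c d => ?_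
    rw [map_sum, Matrix.sum_apply]
    simp only [t5_wc]
    rw [Finset.sum_ite_eq, if_pos]
    exact Finset.mem_image.2 ⟨(c, d), Finset.mem_univ _, rfl⟩

theorem wc_linear (δ : Module.Dual ℚ (Yo L)) (X X' : Module.End K (κ → K)) (c : K) :
    wc L δ (c • X + X') = c • wc L δ X + wc L δ X' := by
  classical
  refine t5_ext fun a b => ?_
  rw [t5_wc, map_add, map_add, map_smul, map_smul, Matrix.add_apply, Matrix.add_apply,
    Matrix.smul_apply, Matrix.smul_apply, t5_wc, t5_wc]
  by_cases h : pt L a - pt L b = δ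
  · rw [if_pos h, if_pos h, if_pos h]
  · rw [if_neg h, if_neg h, if_neg h, smul_zero, add_zero]

end Pool.Agent.H25U
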