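import Pool.Agent.Lib.H76Y.Y0
import Pool.Agent.Lib.H25U.Defs

/-!
# U0: definitions of the configuration theory without a condition of balance

The names are those of H76P / H76Y.  `Hs L` is the set of the functions with two values `c + 1` and
`c - 1` whose operator is in `L` (for `L` of trace zero `c` is determined by the function), `Yo L` is
its rational span, and `CmpN L` says that only the scalars commute with all `y ∈ L` such that
`(y + c) ^ 2 = 1` for a scalar `c`.
-/

set_option autoImplicit false
set_option linter.unusedSectionVars false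
namespace Pool.Agent.H25U
open Module Matrix Pool.Agent.H53Toric
open Pool.Agent.H76P (dg dq)
open Pool.Agent.H76T (IsIdeal Fam)

variable {κ : Type*} [Fintype κ] [DecidableEq κ] {K : Type*} [Field K]

/-- The functions with two values `c + 1` and `c - 1` whose operator is in `L`. -/
def Hs (L : Submodule K (Module.End K (κ → K))) : Set (κ → ℚ) :=
  {ε | (∃ c : ℚ, ∀ a, ε a = c + 1 ∨ ε a = c - 1) ∧ dq ε ∈ L}

/-- Their span. -/
def Yo (L : Submodule K (Module.End K (κ → K))) : Submodule ℚ (κ → ℚ) :=
  Submodule.span ℚ (Hs L)

/-- The evaluations. -/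
def pt (L : Submodule K (Module.End K (κ → K))) (a : κ) : Module.Dual ℚ (Yo L) :=
  (LinearMap.proj (R := ℚ) (φ := fun _ : κ => ℚ) a) ∘ₗ (Yo L).subtype

theorem pt_apply (L : Submodule K (Module.End K (κ → K))) (a : κ) (f : Yo L) :
    pt L a f = (f : κ → ℚ) a := rfl

open Classical in
/-- The component of weight `δ` of the operator `X`. -/
noncomputable def wc (L : Submodule K (Module.End K (κ → K))) (δ : Module.Dual ℚ (Yo L))
    (X : Module.End K (κ → K)) : Module.End K (κ → K) :=
  Matrix.toLin' (Matrix.of fun c d =>
    if pt L c - pt L d = δ then LinearMap.toMatrix' X c d else 0)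

/-- The operator `X` has weight `δ`. -/
def IsWt (L : Submodule K (Module.End K (κ → K))) (δ : Module.Dual ℚ (Yo L))
    (X : Module.End K (κ → K)) : Prop :=
  ∀ g : Yo L, dq (g : κ → ℚ) * X - X * dq (g : κ → ℚ) = ((δ g : ℚ) : K) • X

/-- An irreducible Lie algebra of operators of trace zero such that only the scalars commute with
all its elements `y` such that `(y + c) ^ 2 = 1` for some scalar `c`. -/
structure CmpN (L : Submodule K (Module.End K (κ → K))) : Prop where
  lie : IsLie L
  irr : Irr L
  tr : ∀ X ∈ L, LinearMap.trace K (κ → K) X = 0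
  gen : ∀ T : Module.End K (κ → K),
    (∀ y ∈ L, (∃ c : K, (y + c • 1) * (y + c • 1) = 1) → T * y = y * T) → ∃ c : K, T = c • 1

/-- `CmpN`, and the diagonal elements of `L` separate the basis vectors. -/
structure TM [CharZero K] (L : Submodule K (Module.End K (κ → K))) : Prop where
  cmp : CmpN L
  diag : ∀ f : κ → ℚ, dq f ∈ L → f ∈ Yo L
  sep : ∀ a b : κ, a ≠ b → ∃ f ∈ Yo L, f a ≠ f b

end Pool.Agent.H25U
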